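import Pool.Agent.Lib.MP_6f5538_al.Main

/-!
Four 5-subsets never form a base of the alternating group of degree 14.
-/

namespace Pool.Agent.Lib.MP_6f5538_al

open Equiv Equiv.Perm Finset

theorem weight_three (C : Finset (Finset (Fin 4))) (hC : C.card ≤ 3) :
    ∑ A ∈ C, A.card ≤ 10 := by
  have h1 : ∀ A : Finset (Fin 4), A.card ≤ 3 + if A = univ then 1 else 0 := by decide
  calc ∑ A ∈ C, A.card ≤ ∑ A ∈ C, (3 + if A = univ then 1 else 0) :=
        sum_le_sum (fun A _ => h1 A)
    _ = C.card * 3 + (C.filter (fun A => A = univ)).card := by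
        rw [sum_add_distrib, sum_const, smul_eq_mul, card_filter]
    _ ≤ 10 := by
        have h2 : (C.filter (fun A => A = univ)).card ≤ 1 := by
          rw [card_le_one]
          intro a ha b hb
          rw [(mem_filter.1 ha).2, (mem_filter.1 hb).2]
        omega

theorem weight_thirteen (D : Finset (Finset (Fin 4))) (hD : D.card = 13) :
    22 ≤ ∑ A ∈ D, A.card := by
  have h1 : ∑ A : Finset (Fin 4), A.card = 32 := by decide
  have h2 : Dᶜ.card = 3 := by
    rw [card_compl, hD]; rfl
  have h3 := weight_three Dᶜ (by omega)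
  have h4 := sum_add_sum_compl D (fun A => A.card)
  omega

theorem exists_even (b : Fin 4 → Finset (Fin 14)) (hb : ∀ i, (b i).card = 5) :
    ∃ g : S14, sign g = 1 ∧ g ≠ 1 ∧ ∀ i p, g p ∈ b i ↔ p ∈ b i := by
  set f : Fin 14 → Finset (Fin 4) := fun p => univ.filter (fun i => p ∈ b i) with hf
  have hmem : ∀ i p, i ∈ f p ↔ p ∈ b i := by intro i p; simp [hf]
  have hsum : ∑ p, (f p).card = 20 := by
    have h1 : ∀ p, (f p).card = ∑ i, if p ∈ b i then 1 else 0 := by
      intro p
      rw [hf, card_filter]
    rw [sum_congr rfl (fun p _ => h1 p), sum_comm]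
    have h2 : ∀ i, ∑ p, (if p ∈ b i then 1 else 0) = 5 := by
      intro i
      rw [← card_filter, filter_mem_eq_inter, univ_inter, hb]
    rw [sum_congr rfl (fun i _ => h2 i)]
    simp
  have hswap : ∀ p q, f p = f q → ∀ i r, swap p q r ∈ b i ↔ r ∈ b i := by
    intro p q hpq i r
    have h1 : p ∈ b i ↔ q ∈ b i := by rw [← hmem, ← hmem, hpq]
    by_cases hp : r = p
    · subst hp; rw [swap_apply_left]; exact h1.symm
    · by_cases hq : r = q
      · subst hq; rw [swap_apply_right]; exact h1
      · rw [swap_apply_of_ne_of_ne hp hq]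
  -- it is enough to find two coincidences
  have key : ∀ p q r s, p ≠ q → f p = f q → r ≠ s → f r = f s → q ≠ r → q ≠ s →
      ∃ g : S14, sign g = 1 ∧ g ≠ 1 ∧ ∀ i p, g p ∈ b i ↔ p ∈ b i := by
    intro p q r s hpq h1 hrs h2 hqr hqs
    refine ⟨swap p q * swap r s, ?_, ?_, ?_⟩
    · rw [Perm.sign_mul, sign_swap hpq, sign_swap hrs]; rfl
    · intro h
      have h3 := congrArg (fun e : S14 => e q) h
      simp only [Perm.mul_apply, Perm.one_apply] at h3
      rw [swap_apply_of_ne_of_ne hqr hqs, swap_apply_right] at h3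
      exact hpq h3
    · intro i x
      rw [Perm.mul_apply, hswap p q h1, hswap r s h2]
  by_contra hcon
  have hinj : ∃ q, Set.InjOn f (univ.erase q : Finset (Fin 14)) := by
    by_cases hi : Function.Injective f
    · exact ⟨0, hi.injOn⟩
    · unfold Function.Injective at hi
      push Not at hi
      obtain ⟨p, q, hpq, hne⟩ := hi
      refine ⟨q, ?_⟩
      intro r hr s hs hrs
      by_contra hne2
      simp only [coe_erase, coe_univ, Set.mem_diff, Set.mem_univ, Set.mem_singleton_iff,
        true_and] at hr hs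
      exact hcon (key p q r s hne hpq hne2 hrs (Ne.symm hr) (Ne.symm hs))
  obtain ⟨q, hq⟩ := hinj
  have h1 : ((univ.erase q).image f).card = 13 := by
    rw [card_image_of_injOn hq, card_erase_of_mem (mem_univ _)]; rfl
  have h2 := weight_thirteen _ h1
  rw [sum_image hq] at h2
  have h3 : ∑ p ∈ univ.erase q, (f p).card ≤ ∑ p, (f p).card :=
    sum_le_sum_of_subset (erase_subset _ _)
  omega

end Pool.Agent.Lib.MP_6f5538_al
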