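import Mathlib

section

/-!
General facts on finite groups used for the counterexample at `n = 14`.
-/

namespace Pool.Agent.Lib.MP_6f5538_al

open Subgroup

/-- In a finite group whose order is not divisible by `p ^ 2`, the subgroups generated by two
elements of order `p` are conjugate. -/
theorem conj_of_orderOf_prime {K : Type*} [Group K] [Finite K] {p : ℕ} (hp : p.Prime)
    (h : ¬ p ^ 2 ∣ Nat.card K) (y y' : K) (hy : orderOf y = p) (hy' : orderOf y' = p) :
    ∃ k : K, k * y' * k⁻¹ ∈ zpowers y := by
  have : Fact p.Prime := ⟨hp⟩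
  have key : ∀ z : K, orderOf z = p → ∃ P : Sylow p K, (P : Subgroup K) = zpowers z := by
    intro z hz
    have hcard : Nat.card (zpowers z) = p := by rw [Nat.card_zpowers, hz]
    refine ⟨Sylow.ofCard (zpowers z) ?_, Sylow.coe_ofCard _ _⟩
    rw [hcard]
    have hdvd : p ∣ Nat.card K := by rw [← hz]; exact orderOf_dvd_natCard z
    have h1 : (Nat.card K).factorization p = 1 := by
      have hne : Nat.card K ≠ 0 := Nat.card_pos.ne'
      have h2 : 1 ≤ (Nat.card K).factorization p :=
        (hp.dvd_iff_one_le_factorization hne).1 hdvd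
      have h3 : ¬ 2 ≤ (Nat.card K).factorization p := fun h4 =>
        h ((hp.pow_dvd_iff_le_factorization hne).2 h4)
      omega
    rw [h1, pow_one]
  obtain ⟨P, hP⟩ := key y hy
  obtain ⟨Q, hQ⟩ := key y' hy'
  obtain ⟨k, hk⟩ := MulAction.exists_smul_eq K Q P
  refine ⟨k, ?_⟩
  rw [← hP]
  have : k * y' * k⁻¹ ∈ ((k • Q : Sylow p K) : Subgroup K) := by
    rw [Sylow.coe_subgroup_smul, Subgroup.mem_pointwise_smul_iff_inv_smul_mem]
    have : y' ∈ (Q : Subgroup K) := by rw [hQ]; exact mem_zpowers y'
    simpa [MulAut.smul_def, mul_assoc] using this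
  rw [hk] at this
  exact this

/-- Sylow data for a Sylow subgroup of prime order that contains its centralizer. -/
theorem sylow_data {K : Type*} [Group K] [Finite K] {p : ℕ} [Fact p.Prime] (P : Sylow p K)
    (hP : Nat.card (P : Subgroup K) = p)
    (hC : centralizer ((P : Subgroup K) : Set K) ≤ (P : Subgroup K)) :
    ∃ e n : ℕ, Nat.card K = p * e * n ∧ n ≡ 1 [MOD p] ∧ e ∣ p - 1 ∧
      (e = 1 → normalizer ((P : Subgroup K) : Set K) ≤ centralizer ((P : Subgroup K) : Set K)) ∧
      (∀ k : ℕ, (∀ g ∈ normalizer ((P : Subgroup K) : Set K),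
        g ^ k ∈ centralizer ((P : Subgroup K) : Set K)) → e ∣ k) ∧
      Nat.card (normalizer ((P : Subgroup K) : Set K)) = p * e := by
  have hp : p.Prime := Fact.out
  set H : Subgroup K := (P : Subgroup K) with hH
  set φ := H.normalizerMonoidHom with hφ
  have hker : φ.ker = (centralizer (H : Set K)).subgroupOf (normalizer (H : Set K)) :=
    H.normalizerMonoidHom_ker
  have hcyc : IsCyclic H := isCyclic_of_prime_card hP
  have hPC : H ≤ centralizer (H : Set K) := by
    have : IsMulCommutative H := inferInstance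
    exact Subgroup.le_centralizer _
  have hCP : centralizer (H : Set K) = H := le_antisymm hC hPC
  have hcardker : Nat.card φ.ker = p := by
    rw [hker, hCP]
    have hle : H ≤ normalizer (H : Set K) := Subgroup.le_normalizer
    exact (Nat.card_congr (Subgroup.subgroupOfEquivOfLe hle).toEquiv).trans hP
  have : Finite (MulAut H) := inferInstance
  have hcyc2 : IsCyclic (MulAut H) := by
    have : IsCyclic (ZMod (Nat.card H))ˣ := by
      rw [hP]; infer_instance
    exact isCyclic_of_surjective (IsCyclic.mulAutMulEquiv H).symm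
      (IsCyclic.mulAutMulEquiv H).symm.surjective
  have hN : p * Nat.card φ.range = Nat.card (normalizer (H : Set K)) := by
    have h1 : Nat.card φ.ker * Nat.card φ.range = Nat.card (normalizer (H : Set K)) := by
      rw [← Subgroup.index_ker, Subgroup.card_mul_index]
    rw [← h1, hcardker]
  refine ⟨Nat.card φ.range, Nat.card (Sylow p K), ?_, card_sylow_modEq_one p K, ?_, ?_, ?_, hN.symm⟩
  · have h1 : Nat.card (Sylow p K) = (normalizer (H : Set K)).index :=
      P.card_eq_index_normalizer
    rw [h1, hN]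
    exact (Subgroup.card_mul_index _).symm
  · have h1 : Nat.card φ.range ∣ Nat.card (MulAut H) := Subgroup.card_subgroup_dvd_card _
    rw [IsCyclic.card_mulAut, hP, Nat.totient_prime hp] at h1
    exact h1
  · intro h1
    have h2 : φ.range = ⊥ := Subgroup.card_eq_one.1 h1
    intro g hg
    have h3 : (⟨g, hg⟩ : normalizer (H : Set K)) ∈ φ.ker := by
      rw [MonoidHom.mem_ker, ← Subgroup.mem_bot, ← h2]
      exact ⟨_, rfl⟩
    rw [hker] at h3
    exact h3
  · intro k hk
    have : IsCyclic φ.range := inferInstance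
    rw [← IsCyclic.exponent_eq_card]
    apply Monoid.exponent_dvd_of_forall_pow_eq_one
    rintro ⟨x, g, rfl⟩
    have h3 : g ^ k ∈ φ.ker := by
      rw [hker, Subgroup.mem_subgroupOf]
      exact hk g g.2
    rw [MonoidHom.mem_ker, map_pow] at h3
    exact Subtype.ext h3

/-- If `p` does not divide the index of `H` in `K`, then every `p`-subgroup has a conjugate
inside `H`. -/
theorem exists_conj_le_of_not_dvd_index {K : Type*} [Group K] [Finite K] {p : ℕ} (hp : p.Prime)
    (E H : Subgroup K) (hE : IsPGroup p E) (h : ¬ p ∣ H.index) :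
    ∃ g : K, ∀ e ∈ E, g⁻¹ * e * g ∈ H := by
  have : Fact p.Prime := ⟨hp⟩
  have h1 := hE.card_modEq_card_fixedPoints (K ⧸ H)
  have h2 : Nat.card (K ⧸ H) = H.index := rfl
  have h3 : Nat.card (MulAction.fixedPoints E (K ⧸ H)) ≠ 0 := by
    intro h4
    rw [h4, h2] at h1
    exact h (Nat.modEq_zero_iff_dvd.1 h1)
  have h5 : Nonempty (MulAction.fixedPoints E (K ⧸ H)) := by
    by_contra h6
    rw [not_nonempty_iff] at h6
    exact h3 (Nat.card_of_isEmpty)
  obtain ⟨⟨x, hx⟩⟩ := h5
  obtain ⟨g, rfl⟩ := QuotientGroup.mk_surjective x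
  refine ⟨g, fun e he => ?_⟩
  have h7 := hx ⟨e, he⟩
  have h8 : (QuotientGroup.mk (e * g) : K ⧸ H) = QuotientGroup.mk g := h7
  rw [QuotientGroup.eq] at h8
  have h9 := H.inv_mem h8
  simpa [mul_assoc] using h9

end Pool.Agent.Lib.MP_6f5538_al
end

section
/-!
Tables of permutations of 14 points coded by natural numbers, and the finite checks used in the
proof, as plain functions of natural numbers.
-/

namespace Pool.Agent.Lib.MP_6f5538_al

/-- forcing evaluation of a natural number -/
def force {α : Type} (v : Nat) (f : Nat → α) : α :=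
  match v with
  | 0 => f 0
  | k + 1 => f (k + 1)

/-- table of orbit indices of pairs -/
def tbl : Nat := 0xd3455436789abc3d34554c6789ab43d3455bc6789a543d345abc67895543d349abc67845543d389abc67345543d789abc66cba987d01221076cba980d01221876cba910d01229876cba210d012a9876cb2210d01ba9876c12210d0cba9876012210d

/-- orbit index of the pair `(a, b)`; the value 13 stands for the diagonal -/
def pidx (a b : Nat) : Nat := Nat.land (Nat.shiftRight tbl (Nat.mul 4 (Nat.add (Nat.mul 14 a) b))) 15

/-- bit -/
def bt (c i : Nat) : Nat := Nat.land (Nat.shiftRight c i) 1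

/-- relation (as 0 or 1) with code `c` -/
def rl (c a b : Nat) : Nat := bt c (pidx a b)

/-- number from bits -/
def ofB : Nat → (Nat → Bool) → Nat
  | 0, _ => 0
  | n + 1, f => (f 0).toNat + 2 * ofB n (fun i => f (i + 1))

/-- number of common neighbours -/
def cn (c a b : Nat) : Nat :=
  rl c a 0 * rl c b 0 + rl c a 1 * rl c b 1 + rl c a 2 * rl c b 2 + rl c a 3 * rl c b 3 +
  rl c a 4 * rl c b 4 + rl c a 5 * rl c b 5 + rl c a 6 * rl c b 6 + rl c a 7 * rl c b 7 +
  rl c a 8 * rl c b 8 + rl c a 9 * rl c b 9 + rl c a 10 * rl c b 10 + rl c a 11 * rl c b 11 +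
  rl c a 12 * rl c b 12 + rl c a 13 * rl c b 13

/-- derived code: pairs with exactly `j` common neighbours -/
def der (c j : Nat) : Nat :=
  ofB 13 (fun k => Nat.beq (cn c (Nat.land (Nat.shiftRight 0x0000000777000 (Nat.mul 4 k)) 15)
    (Nat.land (Nat.shiftRight 0xdcba987a98321 (Nat.mul 4 k)) 15)) j)

/-- number of ones among the three lowest bits -/
def pc3 (c : Nat) : Nat := bt c 0 + bt c 1 + bt c 2

/-- the relation with code `c` is incompatible with primitivity -/
def badc (c : Nat) : Bool :=
  match c with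
  | 0 => false
  | c' + 1 =>
    (!(Nat.beq (pc3 (c' + 1)) (pc3 (Nat.shiftRight (c' + 1) 3)))) || (Nat.ble (c' + 1) 63) ||
      Nat.beq (c' + 1) 64 || Nat.beq (c' + 1) 128 || Nat.beq (c' + 1) 256 ||
      Nat.beq (c' + 1) 512 || Nat.beq (c' + 1) 1024 || Nat.beq (c' + 1) 2048 ||
      Nat.beq (c' + 1) 4096

/-- disjunction over `k < n` -/
def anyB : Nat → (Nat → Bool) → Bool
  | 0, _ => false
  | n + 1, f => f n || anyB n f

/-- conjunction over `k < n` -/
def allB : Nat → (Nat → Bool) → Bool
  | 0, _ => true
  | n + 1, f => f n && allB n f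

/-- some derived relation satisfies `f` -/
def anyD (f : Nat → Bool) (c : Nat) : Bool :=
  anyB 13 (fun j => force (der c j) (fun d => force (Nat.land d c) f ||
    force (Nat.land d (Nat.xor c 8191)) f))

/-- certificate that the relation with code `c` is incompatible with primitivity -/
def chk (c : Nat) : Bool :=
  badc c || badc (Nat.xor c 8191) || anyD badc c || anyD (anyD badc) c

/-- table lookup: the digit of `c` at position `i` -/
def lk (c i : Nat) : Nat := Nat.land (Nat.shiftRight c (Nat.mul 4 i)) 15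

/-- fourteen hexadecimal digits -/
def pack (f : Nat → Nat) : Nat :=
  Nat.add (f 0) (Nat.mul 16 (Nat.add (f 1) (Nat.mul 16 (Nat.add (f 2) (Nat.mul 16 (Nat.add (f 3)
  (Nat.mul 16 (Nat.add (f 4) (Nat.mul 16 (Nat.add (f 5) (Nat.mul 16 (Nat.add (f 6) (Nat.mul 16
  (Nat.add (f 7) (Nat.mul 16 (Nat.add (f 8) (Nat.mul 16 (Nat.add (f 9) (Nat.mul 16 (Nat.add (f 10)
  (Nat.mul 16 (Nat.add (f 11) (Nat.mul 16 (Nat.add (f 12)
    (Nat.mul 16 (f 13))))))))))))))))))))))))))

/-- composition of tables -/
def comp (a b : Nat) : Nat := pack (fun i => lk a (lk b i))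

/-- code of the identity -/
def idc : Nat := 0xdcba9876543210

/-- number of steps of the first return to `p` -/
def firstRet (v p : Nat) : Nat → Nat → Nat → Nat
  | 0, _, _ => 0
  | fuel + 1, q, n =>
    match Nat.beq q p with
    | true => n
    | false => force (lk v q) (fun q' => firstRet v p fuel q' (n + 1))

/-- the first return time of `p` does not divide `E` -/
def badRet (E v p : Nat) : Bool :=
  force (firstRet v p 15 (lk v p) 1) (fun n => !(Nat.beq (Nat.mod E n) 0) && !(Nat.beq n 0))

/-- table of a permutation `w` exchanging 0 and 13 with `w u0 w⁻¹ = u0 ^ j` -/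
def wt (j c d : Nat) : Nat := pack (fun x =>
  Nat.add (Nat.mod (Nat.mul (lk 0xa9c341 (Nat.mod (Nat.mul j (lk 0x03354152412000 x)) 6))
    (Nat.add (Nat.mul c (lk 0x01011000011010 x)) (Nat.mul d (lk 0x00100111100100 x)))) 13)
    (lk 0xd x))

/-- table of a power of the 13-cycle -/
def tc (q : Nat) : Nat := pack (fun x =>
  match Nat.beq x 13 with
  | true => 13
  | false => Nat.mod (Nat.add x q) 13)

/-- tables of the elements `u0 ^ k * w0` -/
def wL (k : Nat) : Nat := match k with
  | 0 => 0xc64352b8a971d
  | 1 => 0x9b3c78561a24d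
  | 2 => 0xa5c9267b4183d
  | 3 => 0x179a8b25346cd
  | 4 => 0x42a16587c3b9d
  | _ => 0x3814b7629c5ad

/-- tables of the elements `m2 * u0 ^ k * w0` -/
def wO (k : Nat) : Nat := match k with
  | 0 => 0xbc86a4937512d
  | 1 => 0x596b13ac2748d
  | 2 => 0x7ab54c198236d
  | 3 => 0x2157394a68cbd
  | 4 => 0x8472ca31b695d
  | _ => 0x632891c45ba7d

/-- check of a candidate -/
def chkW (j c d : Nat) : Bool := force (wt j c d) (fun w =>
  anyB 6 (fun k => Nat.beq w (wL k)) || anyB 6 (fun k => Nat.beq w (wO k)) ||
  (Nat.beq (lk w 1) (lk w 2) || Nat.beq (lk w 1) (lk w 8) || Nat.beq (lk w 1) (lk w 6) ||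
    Nat.beq (lk w 1) (lk w 11) || Nat.beq (lk w 1) (lk w 5) || Nat.beq (lk w 1) (lk w 7)) ||
  anyB 13 (fun i => force (comp (tc i) w) (fun v => badRet 1092 v 0)) ||
  anyB 13 (fun i => force (comp w (comp (tc i) w)) (fun a =>
    anyB 13 (fun l => force (comp (tc l) a) (fun v => badRet 1092 v 0)))))

/-- violation of transitivity -/
def viol (c a b d : Nat) : Bool :=
  Nat.beq (rl c b d) 1 && Nat.beq (rl c a d) 0 && !(Nat.beq a d)

/-- codes of proper nontrivial equivalence relations -/
def inLst (c : Nat) : Bool :=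
  Nat.beq c 7 || Nat.beq c 56 || Nat.beq c 63 || Nat.beq c 64 || Nat.beq c 128 ||
    Nat.beq c 256 || Nat.beq c 512 || Nat.beq c 1024 || Nat.beq c 2048 || Nat.beq c 4096

/-- either a known code or a violation of transitivity -/
def chkT (c : Nat) : Bool :=
  inLst c || anyB 13 (fun k => Nat.beq (bt c k) 1 &&
    anyB 14 (fun d => viol c (lk 0x777000 k) (lk 0xdcba987a98321 k) d ||
      viol c (lk 0xdcba987a98321 k) (lk 0x777000 k) d))

/-- tables of the powers of `r7` -/
def RP (i : Nat) : Nat := match i with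
  | 0 => 0xdcba9876543210
  | 1 => 0x1075463c9ba82d
  | 2 => 0x2d39bca0475681
  | 3 => 0x81a4705db39c62
  | 4 => 0x625b3d917a40c8
  | 5 => 0xc897a14235bd06
  | _ => 0x64352b8a971dc

/-- table of a map conjugating `s0` to `r7 ^ m` -/
def pt (m a z : Nat) : Nat := pack (fun x => match Nat.ble x 6 with
  | true => lk (RP (Nat.mod (Nat.mul m x) 7)) a
  | false => lk (RP (Nat.mod (Nat.mul m (x - 7)) 7)) z)

/-- tables of the powers of `tau` -/
def Tc (j : Nat) : Nat := match j with
  | 0 => 0xdcba9876543210
  | 1 => 0x3b6ad4c7501892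
  | 2 => 0x167a30bc5294d8
  | _ => 0x97ca126b58d034

/-- tables of the involutions `muk` -/
def MU (k : Nat) : Nat := match k with
  | 0 => 0x6543210dcba987
  | 1 => 0x54321067dcba98
  | 2 => 0x432106587dcba9
  | 3 => 0x3210654987dcba
  | 4 => 0x2106543a987dcb
  | 5 => 0x1065432ba987dc
  | _ => 0x654321cba987d

/-- tables of the powers of `s0` -/
def SP (k : Nat) : Nat := match k with
  | 0 => 0xdcba9876543210
  | 1 => 0x7dcba980654321
  | 2 => 0x87dcba91065432
  | 3 => 0x987dcba2106543
  | 4 => 0xa987dcb3210654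
  | 5 => 0xba987dc4321065
  | _ => 0xcba987d5432106

/-- tables of the powers of `u0` -/
def uc (k : Nat) : Nat := match k with
  | 0 => 0xdcba9876543210
  | 1 => 0xd951a62b73c840
  | 2 => 0xda741b852c9630
  | 3 => 0xd123456789abc0
  | 4 => 0xd48c37b26a1590
  | _ => 0xd369c258b147a0

/-- the table does not preserve the two cycles of `s0` -/
def notW (y : Nat) : Bool := match Nat.ble 7 (lk y 0) with
  | true => !(Nat.ble 7 (lk y 1) && Nat.ble 7 (lk y 2) && Nat.ble 7 (lk y 3) &&
      Nat.ble 7 (lk y 4) && Nat.ble 7 (lk y 5) && Nat.ble 7 (lk y 6))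
  | false => Nat.ble 7 (lk y 1) || Nat.ble 7 (lk y 2) || Nat.ble 7 (lk y 3) ||
      Nat.ble 7 (lk y 4) || Nat.ble 7 (lk y 5) || Nat.ble 7 (lk y 6)

/-- the table does not commute with the involution with table `mk` -/
def notM (y mk : Nat) : Bool :=
  anyB 7 (fun p => !(Nat.beq (lk y (lk mk p)) (lk mk (lk y p))))

/-- the table preserves no `s0`-invariant block system -/
def notImp (y : Nat) : Bool := notW y && allB 7 (fun k => notM y (MU k))

/-- first return for a composition -/
def firstRet2 (y s p : Nat) : Nat → Nat → Nat → Nat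
  | 0, _, _ => 0
  | fuel + 1, q, n =>
    match Nat.beq q p with
    | true => n
    | false => force (lk y (lk s q)) (fun q' => firstRet2 y s p fuel q' (n + 1))

/-- some element `y * s0 ^ i` has order not dividing 546 -/
def badWord (y : Nat) : Bool :=
  anyB 6 (fun i => force (firstRet2 y (SP (i + 1)) 0 15 (lk y (lk (SP (i + 1)) 0)) 1)
    (fun n => !(Nat.beq (Nat.mod 546 n) 0) && !(Nat.beq n 0)))

/-- inverse lookup -/
def fi (p y : Nat) : Nat → Nat
  | 0 => 0
  | n + 1 => match Nat.beq (lk p n) y with
    | true => n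
    | false => fi p y n

/-- inverse table -/
def invc (p : Nat) : Nat := pack (fun y => Nat.land (fi p y 14) 15)

/-- check of one conjugate -/
def chk1 (Q Qi l : Nat) : Bool := force (comp Qi (comp l Q)) (fun y => notImp y && badWord y)

/-- check of one element in three positions -/
def chk3 (Q1 Q1i Q2 Q2i Q3 Q3i l : Nat) : Bool :=
  Nat.beq l idc || chk1 Q1 Q1i l || chk1 Q2 Q2i l || chk1 Q3 Q3i l

/-- check of all elements of the explicit group -/
def chkAll (f : Nat → Bool) : Bool :=
  allB 13 (fun b => allB 6 (fun k => force (comp (tc b) (uc k)) (fun a =>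
    f a && force (comp 0xc64352b8a971d a) (fun a' =>
      allB 13 (fun q => force (comp (tc q) a') f)))))

/-- check of one position of the group -/
def chkL (m sw j : Nat) : Bool :=
  force (pt (m + 1) (3 * sw) (lk (RP j) (3 - 3 * sw))) (fun p =>
    force (comp p (Tc 3)) (fun Q1 => force (comp p (Tc 2)) (fun Q2 => force (comp p (Tc 1))
    (fun Q3 => force (invc Q1) (fun Q1i => force (invc Q2) (fun Q2i => force (invc Q3) (fun Q3i =>
      chkAll (chk3 Q1 Q1i Q2 Q2i Q3 Q3i))))))))

/-- all cycle lengths divide 546 -/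
def goodRet (v : Nat) : Bool := allB 14 (fun p => force (firstRet v p 15 (lk v p) 1)
  (fun n => Nat.beq (Nat.mod 546 n) 0 && !(Nat.beq n 0)))

/-- set one digit -/
def setd (T p v : Nat) : Nat := pack (fun q => match Nat.beq q p with
  | true => v
  | false => lk T q)

/-- the value occurs in the table -/
def usd (T v : Nat) : Bool := anyB 14 (fun q => Nat.beq (lk T q) v)

/-- walk along an orbit of the group generated by two involutions, assigning values -/
def wk (k : Nat → Bool) : Nat → Nat → Nat → Nat → Nat → Nat → Bool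
  | 0, _, _, _, _, _ => false
  | fuel + 1, A, B, T, p, v =>
    match Nat.beq (lk T p) 15 with
    | true => match usd T v with
      | true => true
      | false => force (setd T p v) (fun T' => force (lk A p) (fun p' => force (lk A v) (fun v' =>
          wk k fuel B A T' p' v')))
    | false => match Nat.beq (lk T p) v with
      | true => k T
      | false => true

/-- search for all permutations commuting with two involutions -/
def srch (A B : Nat) (leaf : Nat → Bool) : Nat → Nat → Nat → Bool
  | 0, _, _ => false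
  | fuel + 1, T, p =>
    match Nat.beq p 14 with
    | true => allB 14 (fun q => !(Nat.beq (lk T q) 15)) && leaf T
    | false => match Nat.beq (lk T p) 15 with
      | true => allB 14 (fun v => wk (fun T' => srch A B leaf fuel T' (p + 1)) 20 A B T p v)
      | false => srch A B leaf fuel T (p + 1)

/-- exclusive disjunction over `k < n` -/
def xorB : Nat → (Nat → Bool) → Bool
  | 0, _ => false
  | n + 1, f => Bool.xor (f n) (xorB n f)

/-- parity of a table -/
def oddT (T : Nat) : Bool := xorB 14 (fun j => xorB j (fun i => Nat.ble (lk T j) (lk T i)))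

/-- leaf check -/
def leafA (d T : Nat) : Bool := Nat.beq T idc || (match d with
  | 1 => force (comp (Tc 2) (comp T (Tc 2))) notImp || force (comp (Tc 3) (comp T (Tc 1))) notImp
  | _ => force (comp (Tc 1) (comp T (Tc 3))) notImp || force (comp (Tc 3) (comp T (Tc 1))) notImp)
  || oddT T

/-- empty table -/
def T15 : Nat := 0xffffffffffffff

/-- search for one pair of involutions -/
def chkA (d m n : Nat) : Bool :=
  force (comp (Tc (4 - d)) (comp (MU n) (Tc d))) (fun B => srch (MU m) B (leafA d) 15 T15 0)

/-- compatibility with the three partitions -/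
def okp (p v v0 : Nat) : Bool := allB 3 (fun j =>
  !(Bool.xor (Bool.xor (Nat.ble 7 (lk (Tc (j + 1)) p)) (Nat.ble 7 (lk (Tc (j + 1)) 0)))
  (Bool.xor (Nat.ble 7 (lk (Tc (j + 1)) v)) (Nat.ble 7 (lk (Tc (j + 1)) v0)))))

/-- search for the permutations preserving three partitions -/
def srchB (v0 : Nat) : Nat → Nat → Nat → Bool
  | 0, _, _ => false
  | fuel + 1, T, p =>
    match Nat.beq p 14 with
    | true => Nat.beq T idc || notImp T || oddT T
    | false => allB 14 (fun v => match usd T v || !(okp p v v0) with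
      | true => true
      | false => force (setd T p v) (fun T' => srchB v0 fuel T' (p + 1)))

/-- search from one first value -/
def chkB (v0 : Nat) : Bool := force (setd T15 0 v0) (fun T => srchB v0 14 T 1)

end Pool.Agent.Lib.MP_6f5538_al
end
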