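import Pool.Agent.Lib.MP_6f5538_al.Jordan
import Pool.Agent.Lib.MP_6f5538_al.NDefs

/-!
Codes of symmetric relations on 14 points invariant under the standard element of type (7,7).
-/

namespace Pool.Agent.Lib.MP_6f5538_al

open Equiv Equiv.Perm Subgroup

theorem force_eq {α : Type} (v : ℕ) (f : ℕ → α) : force v f = f v := by
  cases v <;> rfl

theorem bt_eq (c i : ℕ) : bt c i = (c.testBit i).toNat := by
  unfold bt
  change c >>> i &&& 1 = _
  rw [Nat.and_one_is_mod, Nat.shiftRight_eq_div_pow, Nat.toNat_testBit]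

theorem bt_eq_one {c i : ℕ} : bt c i = 1 ↔ c.testBit i = true := by
  rw [bt_eq]; cases c.testBit i <;> simp

theorem bt_le (c i : ℕ) : bt c i ≤ 1 := by
  rw [bt_eq]; cases c.testBit i <;> simp

theorem ofB_lt (n : ℕ) (f : ℕ → Bool) : ofB n f < 2 ^ n := by
  induction n generalizing f with
  | zero => simp [ofB]
  | succ n ih =>
    have := ih (fun i => f (i + 1))
    unfold ofB
    have h2 : (f 0).toNat ≤ 1 := Bool.toNat_le _
    rw [pow_succ]
    omega

theorem testBit_ofB (n : ℕ) (f : ℕ → Bool) (i : ℕ) (hi : i < n) :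
    (ofB n f).testBit i = f i := by
  induction n generalizing f i with
  | zero => omega
  | succ n ih =>
    unfold ofB
    cases i with
    | zero =>
      rw [Nat.testBit_zero]
      cases f 0 <;> simp [Nat.add_mod]
    | succ i =>
      rw [Nat.testBit_succ]
      have : ((f 0).toNat + 2 * ofB n (fun i => f (i + 1))) / 2 = ofB n (fun i => f (i + 1)) := by
        have h2 : (f 0).toNat ≤ 1 := Bool.toNat_le _
        omega
      rw [this, ih _ _ (by omega)]

/-- the standard element of type (7,7) -/
def s0 : S14 := List.formPerm [0, 1, 2, 3, 4, 5, 6] * List.formPerm [7, 8, 9, 10, 11, 12, 13]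

theorem s0_type : s0.cycleType = {7, 7} := by
  have h1 : Perm.Disjoint (List.formPerm [0, 1, 2, 3, 4, 5, 6] : S14)
      (List.formPerm [7, 8, 9, 10, 11, 12, 13]) := by
    rw [List.formPerm_disjoint_iff (by decide) (by decide) (by decide) (by decide)]
    intro a ha hb
    revert a
    decide
  have h2 : (List.formPerm [7, 8, 9, 10, 11, 12, 13] : S14).cycleType = {7} := by
    rw [(List.isCycle_formPerm (by decide) (by decide)).cycleType,
      List.support_formPerm_of_nodup _ (by decide) (by decide)]
    rfl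
  unfold s0
  rw [h1.cycleType_mul, h2]
  have := c7_type
  unfold c7 at this
  rw [this]
  rfl

/-- representatives of the orbits on pairs, first component -/
def ra (k : Fin 13) : Fin 14 := ![0, 0, 0, 7, 7, 7, 0, 0, 0, 0, 0, 0, 0] k
/-- representatives of the orbits on pairs, second component -/
def rb (k : Fin 13) : Fin 14 := ![1, 2, 3, 8, 9, 10, 7, 8, 9, 10, 11, 12, 13] k

theorem pidx_symm (a b : Fin 14) : pidx a b = pidx b a := by revert a b; decide
theorem pidx_self (a : Fin 14) : pidx a a = 13 := by revert a; decide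
theorem pidx_lt (a b : Fin 14) (h : a ≠ b) : pidx a b < 13 := by revert a b; decide
theorem pidx_rep (k : Fin 13) : pidx (ra k) (rb k) = k := by revert k; decide
theorem rep_ne (k : Fin 13) : ra k ≠ rb k := by revert k; decide
theorem pidx_orbit (a b : Fin 14) (h : a ≠ b) (k : Fin 13) (hk : pidx a b = k) :
    ∃ j : Fin 7, ((s0 ^ (j : ℕ)) (ra k) = a ∧ (s0 ^ (j : ℕ)) (rb k) = b) ∨
      ((s0 ^ (j : ℕ)) (ra k) = b ∧ (s0 ^ (j : ℕ)) (rb k) = a) := by
  revert a b k; decide +kernel

end Pool.Agent.Lib.MP_6f5538_al
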