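import Pool.Agent.Lib.MP_6f5538_al.NDefs
import Pool.Agent.Lib.MP_6f5538_al.Codes

section

section

/-!
Kernel evaluation of a finite check, in chunks.
-/

namespace Pool.Agent.Lib.MP_6f5538_al

theorem chk_0 : allB 512 (fun k => chk (k + 1)) = true := by decide +kernel

theorem chk_1 : allB 512 (fun k => chk (k + 513)) = true := by decide +kernel

theorem chk_2 : allB 512 (fun k => chk (k + 1025)) = true := by decide +kernel

theorem chk_3 : allB 512 (fun k => chk (k + 1537)) = true := by decide +kernel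

theorem chk_4 : allB 512 (fun k => chk (k + 2049)) = true := by decide +kernel

theorem chk_5 : allB 512 (fun k => chk (k + 2561)) = true := by decide +kernel

theorem chk_6 : allB 512 (fun k => chk (k + 3073)) = true := by decide +kernel

theorem chk_7 : allB 512 (fun k => chk (k + 3585)) = true := by decide +kernel

end Pool.Agent.Lib.MP_6f5538_al
end

section

/-!
Kernel evaluation of a finite check, in chunks.
-/

namespace Pool.Agent.Lib.MP_6f5538_al

theorem chk_8 : allB 512 (fun k => chk (k + 4097)) = true := by decide +kernel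

theorem chk_9 : allB 512 (fun k => chk (k + 4609)) = true := by decide +kernel

theorem chk_10 : allB 512 (fun k => chk (k + 5121)) = true := by decide +kernel

theorem chk_11 : allB 512 (fun k => chk (k + 5633)) = true := by decide +kernel

theorem chk_12 : allB 512 (fun k => chk (k + 6145)) = true := by decide +kernel

theorem chk_13 : allB 512 (fun k => chk (k + 6657)) = true := by decide +kernel

theorem chk_14 : allB 512 (fun k => chk (k + 7169)) = true := by decide +kernel

theorem chk_15 : allB 510 (fun k => chk (k + 7681)) = true := by decide +kernel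

end Pool.Agent.Lib.MP_6f5538_al
end
end

section

section

/-!
A primitive group of degree 14 containing the standard element of type (7,7) preserves no
symmetric relation except the trivial ones; it is 2-transitive.
-/

namespace Pool.Agent.Lib.MP_6f5538_al

open Equiv Equiv.Perm Subgroup

/-- `c` is the code of a `G`-invariant relation -/
def InvC (G : Subgroup S14) (c : ℕ) : Prop :=
  c < 8192 ∧ ∀ g ∈ G, ∀ a b : Fin 14, rl c (g a) (g b) = rl c a b

theorem bt_thirteen {c : ℕ} (h : c < 8192) : bt c 13 = 0 := by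
  rw [bt_eq, Nat.testBit_lt_two_pow (by simpa using h)]; rfl

theorem rl_self {c : ℕ} (h : c < 8192) (a : Fin 14) : rl c a a = 0 := by
  unfold rl; rw [pidx_self, bt_thirteen h]

/-- every invariant symmetric irreflexive relation has a code -/
theorem exists_code {G : Subgroup S14} (hs : s0 ∈ G) (R : Fin 14 → Fin 14 → Prop)
    (hirr : ∀ a, ¬ R a a) (hsymm : ∀ a b, R a b → R b a)
    (hinv : ∀ g ∈ G, ∀ a b, R a b → R (g a) (g b)) :
    ∃ c, InvC G c ∧ (∀ a b : Fin 14, rl c a b = 1 ↔ R a b) ∧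
      c = ofB 13 (fun k => if h : k < 13 then
        (open Classical in decide (R (ra ⟨k, h⟩) (rb ⟨k, h⟩))) else false) := by
  classical
  set f : ℕ → Bool := fun k => if h : k < 13 then
        (open Classical in decide (R (ra ⟨k, h⟩) (rb ⟨k, h⟩))) else false with hf
  have hlt : ofB 13 f < 8192 := ofB_lt 13 f
  have hinv' : ∀ g ∈ G, ∀ a b, R (g a) (g b) ↔ R a b := by
    intro g hg a b
    refine ⟨fun h => ?_, hinv g hg a b⟩
    have := hinv g⁻¹ (G.inv_mem hg) _ _ h
    simpa using this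
  have hsymm' : ∀ a b, R a b ↔ R b a := fun a b => ⟨hsymm a b, hsymm b a⟩
  have hR : ∀ a b : Fin 14, rl (ofB 13 f) a b = 1 ↔ R a b := by
    intro a b
    by_cases hab : a = b
    · subst hab
      rw [rl_self hlt]
      simp [hirr]
    · have h1 := pidx_lt a b hab
      unfold rl
      rw [bt_eq_one, testBit_ofB 13 f _ h1]
      obtain ⟨j, hj⟩ := pidx_orbit a b hab ⟨pidx a b, h1⟩ rfl
      have hsj : s0 ^ (j : ℕ) ∈ G := G.pow_mem hs _
      have h2 : f (pidx a b) = decide (R (ra ⟨pidx a b, h1⟩) (rb ⟨pidx a b, h1⟩)) := by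
        rw [hf]; simp only [h1, dif_pos]
      rw [h2, decide_eq_true_iff]
      rcases hj with ⟨h3, h4⟩ | ⟨h3, h4⟩
      · rw [← hinv' _ hsj, h3, h4]
      · rw [← hinv' _ hsj, h3, h4, hsymm']
  refine ⟨ofB 13 f, ⟨hlt, ?_⟩, hR, rfl⟩
  intro g hg a b
  have h1 := hR a b
  have h2 := hR (g a) (g b)
  have h3 := hinv' g hg a b
  have h4 : rl (ofB 13 f) (g a) (g b) ≤ 1 := bt_le _ _
  have h5 : rl (ofB 13 f) a b ≤ 1 := bt_le _ _
  by_cases h6 : R a b
  · rw [h1.2 h6, h2.2 (h3.2 h6)]
  · have h7 : rl (ofB 13 f) a b ≠ 1 := fun h => h6 (h1.1 h)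
    have h8 : rl (ofB 13 f) (g a) (g b) ≠ 1 := fun h => h6 (h3.1 (h2.1 h))
    omega

theorem cn_eq_sum (c a b : ℕ) : cn c a b = ∑ w : Fin 14, rl c a w * rl c b w := by
  simp only [Fin.sum_univ_succ, Fin.sum_univ_zero, cn]
  simp only [Fin.val_zero, Fin.val_succ, Nat.reduceAdd, zero_add, add_zero]
  ring

theorem cn_inv {G : Subgroup S14} {c : ℕ} (h : InvC G c) {g : S14} (hg : g ∈ G) (a b : Fin 14) :
    cn c (g a) (g b) = cn c a b := by
  rw [cn_eq_sum, cn_eq_sum, ← Equiv.sum_comp g]
  apply Finset.sum_congr rfl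
  intro w _
  rw [h.2 g hg, h.2 g hg]

theorem cn_symm (c a b : ℕ) : cn c a b = cn c b a := by
  rw [cn_eq_sum, cn_eq_sum]
  exact Finset.sum_congr rfl (fun w _ => mul_comm _ _)

theorem inv_der {G : Subgroup S14} (hs : s0 ∈ G) {c : ℕ} (h : InvC G c) (j : ℕ) :
    InvC G (der c j) := by
  classical
  obtain ⟨c', h1, -, h3⟩ := exists_code hs (fun a b => a ≠ b ∧ cn c a b = j)
    (fun a h => h.1 rfl) (fun a b h => ⟨h.1.symm, by rw [cn_symm]; exact h.2⟩)
    (fun g hg a b hab => ⟨fun h' => hab.1 (g.injective h'), by rw [cn_inv h hg]; exact hab.2⟩)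
  have : der c j = c' := by
    rw [h3]
    unfold der
    apply Nat.eq_of_testBit_eq
    intro i
    by_cases hi : i < 13
    · rw [testBit_ofB _ _ _ hi, testBit_ofB _ _ _ hi]
      simp only [hi, dif_pos, rep_ne, ne_eq, not_false_eq_true, true_and]
      have e1 : ∀ k : Fin 13, Nat.land (Nat.shiftRight 0x0000000777000 (Nat.mul 4 k)) 15 = ra k := by
        decide
      have e2 : ∀ k : Fin 13, Nat.land (Nat.shiftRight 0xdcba987a98321 (Nat.mul 4 k)) 15 = rb k := by
        decide
      have e1' := e1 ⟨i, hi⟩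
      have e2' := e2 ⟨i, hi⟩
      simp only at e1' e2'
      rw [e1', e2']
      rw [Bool.eq_iff_iff, decide_eq_true_iff, Nat.beq_eq]
    · rw [Nat.testBit_lt_two_pow (lt_of_lt_of_le (ofB_lt _ _) (Nat.pow_le_pow_right (by norm_num) (by omega))),
        Nat.testBit_lt_two_pow (lt_of_lt_of_le (ofB_lt _ _) (Nat.pow_le_pow_right (by norm_num) (by omega)))]
  rw [this]
  exact h1

theorem rl_land (c c' a b : ℕ) : rl (Nat.land c c') a b = rl c a b * rl c' a b := by
  unfold rl
  rw [bt_eq, bt_eq, bt_eq]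
  change ((c &&& c').testBit _).toNat = _
  rw [Nat.testBit_and]
  cases c.testBit (pidx a b) <;> cases c'.testBit (pidx a b) <;> rfl

theorem inv_land {G : Subgroup S14} {c c' : ℕ} (h : InvC G c) (h' : InvC G c') :
    InvC G (Nat.land c c') := by
  refine ⟨lt_of_le_of_lt Nat.and_le_left h.1, fun g hg a b => ?_⟩
  rw [rl_land, rl_land, h.2 g hg, h'.2 g hg]

theorem rl_compl {c : ℕ} (a b : Fin 14) :
    rl (Nat.xor c 8191) a b = if a = b then rl c a b else 1 - rl c a b := by
  unfold rl
  rw [bt_eq, bt_eq]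
  change ((c ^^^ 8191).testBit _).toNat = _
  rw [Nat.testBit_xor]
  by_cases hab : a = b
  · subst hab
    rw [pidx_self]
    simp
    have : Nat.testBit 8191 13 = false := by decide
    rw [this]; simp
  · rw [if_neg hab]
    have h1 := pidx_lt a b hab
    have : ∀ i < 13, Nat.testBit 8191 i = true := by decide
    rw [this _ h1]
    cases c.testBit (pidx a b) <;> rfl

theorem inv_compl {G : Subgroup S14} {c : ℕ} (h : InvC G c) : InvC G (Nat.xor c 8191) := by
  refine ⟨Nat.xor_lt_two_pow (n := 13) h.1 (by norm_num), fun g hg a b => ?_⟩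
  rw [rl_compl, rl_compl, h.2 g hg]
  simp

theorem anyB_true {n : ℕ} {f : ℕ → Bool} (h : anyB n f = true) : ∃ k < n, f k = true := by
  induction n with
  | zero => simp [anyB] at h
  | succ n ih =>
    unfold anyB at h
    rw [Bool.or_eq_true] at h
    rcases h with h | h
    · exact ⟨n, by omega, h⟩
    · obtain ⟨k, hk, h1⟩ := ih h
      exact ⟨k, by omega, h1⟩

theorem allB_true {n : ℕ} {f : ℕ → Bool} (h : allB n f = true) (k : ℕ) (hk : k < n) :
    f k = true := by
  induction n with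
  | zero => omega
  | succ n ih =>
    unfold allB at h
    rw [Bool.and_eq_true] at h
    rcases Nat.lt_succ_iff_lt_or_eq.1 hk with h1 | h1
    · exact ih h.2 h1
    · subst h1; exact h.1

end Pool.Agent.Lib.MP_6f5538_al
end

section

/-!
Soundness of the certificates, and 2-transitivity.
-/

namespace Pool.Agent.Lib.MP_6f5538_al

open Equiv Equiv.Perm Subgroup

theorem chk_ok (k : ℕ) (hk : k < 8190) : chk (k + 1) = true := by
  by_cases h0 : k < 512
  · have h := allB_true chk_0 (k - 0) (by omega)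
    rwa [show k - 0 + 1 = k + 1 by omega] at h
  by_cases h1 : k < 1024
  · have h := allB_true chk_1 (k - 512) (by omega)
    rwa [show k - 512 + 513 = k + 1 by omega] at h
  by_cases h2 : k < 1536
  · have h := allB_true chk_2 (k - 1024) (by omega)
    rwa [show k - 1024 + 1025 = k + 1 by omega] at h
  by_cases h3 : k < 2048
  · have h := allB_true chk_3 (k - 1536) (by omega)
    rwa [show k - 1536 + 1537 = k + 1 by omega] at h
  by_cases h4 : k < 2560
  · have h := allB_true chk_4 (k - 2048) (by omega)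
    rwa [show k - 2048 + 2049 = k + 1 by omega] at h
  by_cases h5 : k < 3072
  · have h := allB_true chk_5 (k - 2560) (by omega)
    rwa [show k - 2560 + 2561 = k + 1 by omega] at h
  by_cases h6 : k < 3584
  · have h := allB_true chk_6 (k - 3072) (by omega)
    rwa [show k - 3072 + 3073 = k + 1 by omega] at h
  by_cases h7 : k < 4096
  · have h := allB_true chk_7 (k - 3584) (by omega)
    rwa [show k - 3584 + 3585 = k + 1 by omega] at h
  by_cases h8 : k < 4608
  · have h := allB_true chk_8 (k - 4096) (by omega)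
    rwa [show k - 4096 + 4097 = k + 1 by omega] at h
  by_cases h9 : k < 5120
  · have h := allB_true chk_9 (k - 4608) (by omega)
    rwa [show k - 4608 + 4609 = k + 1 by omega] at h
  by_cases h10 : k < 5632
  · have h := allB_true chk_10 (k - 5120) (by omega)
    rwa [show k - 5120 + 5121 = k + 1 by omega] at h
  by_cases h11 : k < 6144
  · have h := allB_true chk_11 (k - 5632) (by omega)
    rwa [show k - 5632 + 5633 = k + 1 by omega] at h
  by_cases h12 : k < 6656
  · have h := allB_true chk_12 (k - 6144) (by omega)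
    rwa [show k - 6144 + 6145 = k + 1 by omega] at h
  by_cases h13 : k < 7168
  · have h := allB_true chk_13 (k - 6656) (by omega)
    rwa [show k - 6656 + 6657 = k + 1 by omega] at h
  by_cases h14 : k < 7680
  · have h := allB_true chk_14 (k - 7168) (by omega)
    rwa [show k - 7168 + 7169 = k + 1 by omega] at h
  have h := allB_true chk_15 (k - 7680) (by omega)
  rwa [show k - 7680 + 7681 = k + 1 by omega] at h

theorem exists_bit {c : ℕ} (h0 : c ≠ 0) (h : c < 8192) : ∃ i : Fin 13, bt c i = 1 := by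
  obtain ⟨i, hi⟩ := Nat.exists_testBit_of_ne_zero h0
  have h13 : i < 13 := by
    by_contra hc
    have h1 : c < 2 ^ i := lt_of_lt_of_le h (by
      calc 8192 = 2 ^ 13 := by norm_num
        _ ≤ 2 ^ i := Nat.pow_le_pow_right (by norm_num) (by omega))
    rw [Nat.testBit_lt_two_pow h1] at hi
    simp at hi
  exact ⟨⟨i, h13⟩, bt_eq_one.2 hi⟩

theorem connected {G : Subgroup S14} (hp : Prim G) {c : ℕ} (h : InvC G c) (h0 : c ≠ 0)
    (B : Fin 14 → Prop) (hB0 : B 0)
    (hB : ∀ a b : Fin 14, B a → rl c a b = 1 → B b) (x : Fin 14) : B x := by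
  have hsymm : ∀ a b : Fin 14, rl c a b = 1 → rl c b a = 1 := by
    intro a b hab
    unfold rl at hab ⊢
    rw [pidx_symm]; exact hab
  have h1 := hp (Relation.ReflTransGen (fun a b : Fin 14 => rl c a b = 1))
    ⟨fun a => Relation.ReflTransGen.refl,
     fun {a b} hab => by
      induction hab with
      | refl => exact Relation.ReflTransGen.refl
      | tail _ h2 ih => exact Relation.ReflTransGen.head (hsymm _ _ h2) ih,
     fun h2 h3 => h2.trans h3⟩ ?_
  · rcases h1 with h1 | h1
    · exfalso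
      obtain ⟨i, hi⟩ := exists_bit h0 h.1
      have h2 : rl c (ra i) (rb i) = 1 := by unfold rl; rw [pidx_rep]; exact hi
      exact rep_ne i (h1 _ _ (Relation.ReflTransGen.single h2))
    · have h2 := h1 0 x
      induction h2 with
      | refl => exact hB0
      | tail _ h3 ih => exact hB _ _ ih h3
  · intro g hg a b hab
    induction hab with
    | refl => exact Relation.ReflTransGen.refl
    | tail _ h3 ih =>
      exact ih.tail (by rw [h.2 g hg]; exact h3)

theorem sum_zero (c : ℕ) : ∑ w : Fin 14, rl c 0 w = 2 * (bt c 0 + bt c 1 + bt c 2) +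
    (bt c 6 + bt c 7 + bt c 8 + bt c 9 + bt c 10 + bt c 11 + bt c 12) + bt c 13 := by
  have e : ∀ w : Fin 14, pidx 0 w = ![13, 0, 1, 2, 2, 1, 0, 6, 7, 8, 9, 10, 11, 12] w := by decide
  simp only [rl, e]
  simp [Fin.sum_univ_succ]
  ring

theorem sum_seven (c : ℕ) : ∑ w : Fin 14, rl c 7 w = 2 * (bt c 3 + bt c 4 + bt c 5) +
    (bt c 6 + bt c 7 + bt c 8 + bt c 9 + bt c 10 + bt c 11 + bt c 12) + bt c 13 := by
  have e : ∀ w : Fin 14, pidx 7 w = ![6, 12, 11, 10, 9, 8, 7, 13, 3, 4, 5, 5, 4, 3] w := by decide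
  simp only [rl, e]
  simp [Fin.sum_univ_succ]
  ring

theorem regular {G : Subgroup S14} (ht : ∀ a b : Fin 14, ∃ g ∈ G, g a = b) {c : ℕ}
    (h : InvC G c) : pc3 c = pc3 (Nat.shiftRight c 3) := by
  obtain ⟨g, hg, h07⟩ := ht 0 7
  have h1 : ∑ w : Fin 14, rl c (7 : Fin 14) w = ∑ w : Fin 14, rl c (0 : Fin 14) w := by
    rw [← h07, ← Equiv.sum_comp g]
    exact Finset.sum_congr rfl (fun w _ => h.2 g hg 0 w)
  have h2 := sum_zero c
  have h3 := sum_seven c
  have h1' : ∑ w : Fin 14, rl c 7 w = ∑ w : Fin 14, rl c 0 w := h1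
  unfold pc3
  have e : ∀ i, bt (Nat.shiftRight c 3) i = bt c (3 + i) := by
    intro i
    rw [bt_eq, bt_eq]
    change ((c >>> 3).testBit i).toNat = _
    rw [Nat.testBit_shiftRight]
  rw [e, e, e]
  simp only [Nat.add_zero, Nat.reduceAdd]
  omega

theorem badc_sound {G : Subgroup S14} (hp : Prim G) (ht : ∀ a b : Fin 14, ∃ g ∈ G, g a = b)
    {c : ℕ} (h : InvC G c) (hb : badc c = true) : False := by
  have h0 : c ≠ 0 := by rintro rfl; simp [badc] at hb
  obtain ⟨c', rfl⟩ := Nat.exists_eq_succ_of_ne_zero h0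
  have hreg := regular ht h
  have key : ∀ v : ℕ, c'.succ = v → ∀ x : Fin 14,
      (∀ a b : Fin 14, (a = 0 ∨ a = x) → rl v a b = 1 → (b = 0 ∨ b = x)) →
      x ≠ 1 → False := by
    intro v hv x hx hx1
    have := connected hp h h0 (fun a => a = 0 ∨ a = x) (Or.inl rfl)
      (fun a b ha hab => hx a b ha (by rw [← hv]; exact hab)) 1
    rcases this with h1 | h1
    · simp at h1
    · exact hx1 h1.symm
  unfold badc at hb
  simp only [Bool.or_eq_true, Bool.not_eq_true', Nat.beq_eq] at hb
  rcases hb with (((((((hb | hb) | hb) | hb) | hb) | hb) | hb) | hb) | hb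
  · have h5 : Nat.beq (pc3 (c' + 1)) (pc3 (Nat.shiftRight (c' + 1) 3)) = true := by
      rw [Nat.beq_eq]; exact hreg
    rw [h5] at hb
    simp at hb
  · have hle : c' + 1 ≤ 63 := Nat.le_of_ble_eq_true hb
    have := connected hp h h0 (fun a => a.val < 7) (by decide) (fun a b ha hab => by
      have h6 : pidx a b < 6 := by
        by_contra hc
        unfold rl at hab
        rw [bt_eq_one, Nat.testBit_lt_two_pow] at hab
        · simp at hab
        · exact lt_of_le_of_lt hle (lt_of_lt_of_le (by norm_num : 63 < 2 ^ 6)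
            (Nat.pow_le_pow_right (by norm_num) (by omega)))
      revert ha h6
      clear hab
      revert a b
      decide) 13
    simp at this
  · exact key 64 hb 7 (by decide) (by decide)
  · exact key 128 hb 8 (by decide) (by decide)
  · exact key 256 hb 9 (by decide) (by decide)
  · exact key 512 hb 10 (by decide) (by decide)
  · exact key 1024 hb 11 (by decide) (by decide)
  · exact key 2048 hb 12 (by decide) (by decide)
  · exact key 4096 hb 13 (by decide) (by decide)

theorem anyD_sound {G : Subgroup S14} (hs : s0 ∈ G) {f : ℕ → Bool}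
    (hf : ∀ c, InvC G c → f c = true → False) {c : ℕ} (h : InvC G c) (hb : anyD f c = true) :
    False := by
  unfold anyD at hb
  obtain ⟨j, -, hj⟩ := anyB_true hb
  rw [force_eq, force_eq, force_eq, Bool.or_eq_true] at hj
  rcases hj with hj | hj
  · exact hf _ (inv_land (inv_der hs h j) h) hj
  · exact hf _ (inv_land (inv_der hs h j) (inv_compl h)) hj

/-- a primitive group containing `s0` has no proper nontrivial invariant relation -/
theorem inv_trivial {G : Subgroup S14} (hp : Prim G) (ht : ∀ a b : Fin 14, ∃ g ∈ G, g a = b)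
    (hs : s0 ∈ G) {c : ℕ} (h : InvC G c) : c = 0 ∨ c = 8191 := by
  by_contra hc
  push Not at hc
  obtain ⟨h0, h1⟩ := hc
  have hlt := h.1
  obtain ⟨c', rfl⟩ := Nat.exists_eq_succ_of_ne_zero h0
  have h2 := chk_ok c' (by omega)
  have hbad : ∀ c, InvC G c → badc c = true → False := fun c hc hb => badc_sound hp ht hc hb
  simp only [chk, Bool.or_eq_true] at h2
  rcases h2 with ((h2 | h2) | h2) | h2
  · exact hbad _ h h2
  · exact hbad _ (inv_compl h) h2
  · exact anyD_sound hs hbad h h2
  · exact anyD_sound hs (fun c hc hb => anyD_sound hs hbad hc hb) h h2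

theorem rl_full (a b : Fin 14) (hab : a ≠ b) : rl 8191 a b = 1 := by
  revert a b; decide

theorem fourteen_dvd_card {G : Subgroup S14} (ht : ∀ a b : Fin 14, ∃ g ∈ G, g a = b) :
    14 ∣ Nat.card G := by
  have : MulAction.IsPretransitive G (Fin 14) := ⟨fun a b => by
    obtain ⟨g, hg, h⟩ := ht a b
    exact ⟨⟨g, hg⟩, h⟩⟩
  have h1 := MulAction.index_stabilizer_of_transitive G (0 : Fin 14)
  rw [Nat.card_eq_fintype_card, Fintype.card_fin] at h1
  have h2 := Subgroup.index_dvd_card (MulAction.stabilizer G (0 : Fin 14))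
  rw [h1] at h2
  exact h2

theorem twoTrans_of_s0 {G : Subgroup S14} (hp : Prim G) (ht : ∀ a b : Fin 14, ∃ g ∈ G, g a = b)
    (hs : s0 ∈ G) : TwoTrans G := by
  -- an involution
  have h2 : 2 ∣ Nat.card G := dvd_trans (by norm_num) (fourteen_dvd_card ht)
  have : Fact (Nat.Prime 2) := ⟨Nat.prime_two⟩
  obtain ⟨⟨t, htG⟩, hto⟩ := exists_prime_orderOf_dvd_card' 2 h2
  have ht2 : t ^ 2 = 1 := by
    have := pow_orderOf_eq_one (⟨t, htG⟩ : G)
    rw [hto] at this
    exact congrArg Subtype.val this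
  have ht1 : t ≠ 1 := by
    rintro rfl
    have h1 : (⟨1, htG⟩ : G) = 1 := rfl
    rw [h1, orderOf_one] at hto
    norm_num at hto
  obtain ⟨p, hp1⟩ : ∃ p, t p ≠ p := by
    by_contra hc
    push Not at hc
    exact ht1 (Equiv.ext hc)
  have htt : t (t p) = p := by
    have := congrArg (fun e : S14 => e p) ht2
    simpa [pow_two] using this
  -- the symmetrised orbital of `(a, b)` is everything
  have hsym : ∀ a b c d : Fin 14, a ≠ b → c ≠ d →
      (∃ g ∈ G, g a = c ∧ g b = d) ∨ (∃ g ∈ G, g a = d ∧ g b = c) := by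
    intro a b c d hab hcd
    obtain ⟨e, he, heR, -⟩ := exists_code hs
      (fun c d => (∃ g ∈ G, g a = c ∧ g b = d) ∨ (∃ g ∈ G, g a = d ∧ g b = c))
      (by
        rintro x (⟨g, -, h1, h2⟩ | ⟨g, -, h1, h2⟩)
        · exact hab (g.injective (h1.trans h2.symm))
        · exact hab (g.injective (h1.trans h2.symm)))
      (fun x y hxy => hxy.symm)
      (by
        rintro g hg x y (⟨k, hk, h1, h2⟩ | ⟨k, hk, h1, h2⟩)
        · exact Or.inl ⟨g * k, G.mul_mem hg hk, by simp [h1], by simp [h2]⟩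
        · exact Or.inr ⟨g * k, G.mul_mem hg hk, by simp [h1], by simp [h2]⟩)
    rcases inv_trivial hp ht hs he with h0 | h1
    · exfalso
      subst h0
      have := (heR a b).2 (Or.inl ⟨1, G.one_mem, rfl, rfl⟩)
      unfold rl at this
      rw [bt_eq] at this
      simp at this
    · subst h1
      exact (heR c d).1 (rl_full c d hcd)
  have hfull : ∀ c d : Fin 14, c ≠ d → ∃ g ∈ G, g p = c ∧ g (t p) = d := by
    intro c d hcd
    rcases hsym p (t p) c d (Ne.symm hp1) hcd with h | ⟨g, hg, h1, h2⟩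
    · exact h
    · exact ⟨g * t, G.mul_mem hg htG, by simpa using h2, by simpa [htt] using h1⟩
  intro a b c d hab hcd
  obtain ⟨g, hg, h1, h3⟩ := hfull a b hab
  obtain ⟨k, hk, h4, h5⟩ := hfull c d hcd
  refine ⟨k * g⁻¹, G.mul_mem hk (G.inv_mem hg), ?_, ?_⟩
  · rw [Perm.mul_apply, ← h1]; simp [h4]
  · rw [Perm.mul_apply, ← h3]; simp [h5]

theorem Hyp.twoTrans {G : Subgroup S14} (h : Hyp G) : TwoTrans G := by
  obtain ⟨s, hs, hs7⟩ := h.seven
  obtain ⟨π, hπ⟩ := exists_cj_mem hs (hs7.trans s0_type.symm)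
  have h' := h.cj π
  have h1 := twoTrans_of_s0 h'.prim h'.trans hπ
  have h2 := h1.cj π⁻¹
  rwa [cj_inv_cj] at h2

end Pool.Agent.Lib.MP_6f5538_al
end
end

section

section

/-!
Normalizers of Sylow subgroups of prime order acting on the fixed points (Witt), and the absence
of elements of order 5 and 11.
-/

namespace Pool.Agent.Lib.MP_6f5538_al

open Equiv Equiv.Perm Subgroup

/-- elements of `G` fixing `c` and `d` -/
def stab2 (G : Subgroup S14) (c d : Fin 14) : Subgroup S14 where
  carrier := {g | g ∈ G ∧ g c = c ∧ g d = d}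
  one_mem' := ⟨G.one_mem, rfl, rfl⟩
  mul_mem' := by
    rintro a b ⟨h1, h2, h3⟩ ⟨h4, h5, h6⟩
    exact ⟨G.mul_mem h1 h4, by simp [h5, h2], by simp [h6, h3]⟩
  inv_mem' := by
    rintro a ⟨h1, h2, h3⟩
    exact ⟨G.inv_mem h1, by rw [Perm.inv_eq_iff_eq]; exact h2.symm,
      by rw [Perm.inv_eq_iff_eq]; exact h3.symm⟩

theorem stab2_le (G : Subgroup S14) (c d : Fin 14) : stab2 G c d ≤ G := fun _ h => h.1

theorem orderOf_conj' (k y : S14) : orderOf (k * y * k⁻¹) = orderOf y :=
  MulEquiv.orderOf_eq (MulAut.conj k) y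

theorem fix_of_conj_mem {y g : S14} (h : g * y * g⁻¹ ∈ zpowers y) {x : Fin 14} (hx : y x = x) :
    y (g x) = g x := by
  have h5 : (g * y * g⁻¹) (g x) = g x := by
    simp [hx]
  have h7 : y ∈ zpowers (g * y * g⁻¹) := by
    have h8 : Nat.card (zpowers (g * y * g⁻¹)) = Nat.card (zpowers y) := by
      rw [Nat.card_zpowers, Nat.card_zpowers, orderOf_conj']
    have h9 : zpowers (g * y * g⁻¹) = zpowers y :=
      Subgroup.eq_of_le_of_card_ge (zpowers_le.2 h) h8.ge
    rw [h9]; exact mem_zpowers _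
  obtain ⟨i, hi⟩ := mem_zpowers_iff.1 h7
  have h10 : ((g * y * g⁻¹) ^ i) (g x) = g x := Perm.zpow_apply_eq_self_of_apply_eq_self h5 i
  rw [hi] at h10
  exact h10

theorem TwoTrans.witt {G : Subgroup S14} (h2 : TwoTrans G) {p : ℕ} (hp : p.Prime)
    (hpp : ¬ p ^ 2 ∣ Nat.card G) {y : S14} (hy : y ∈ G) (ho : orderOf y = p)
    {a b c d : Fin 14} (hab : a ≠ b) (hcd : c ≠ d) (ya : y a = a) (yb : y b = b) (yc : y c = c)
    (yd : y d = d) : ∃ g ∈ G, g a = c ∧ g b = d ∧ g * y * g⁻¹ ∈ zpowers y := by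
  obtain ⟨k, hk, hkc, hkd⟩ := h2 a b c d hab hcd
  have h1 : y ∈ stab2 G c d := ⟨hy, yc, yd⟩
  have h3 : k * y * k⁻¹ ∈ stab2 G c d := by
    refine ⟨G.mul_mem (G.mul_mem hk hy) (G.inv_mem hk), ?_, ?_⟩
    · simp only [Perm.mul_apply]
      have : k⁻¹ c = a := by rw [Perm.inv_eq_iff_eq]; exact hkc.symm
      rw [this, ya, hkc]
    · simp only [Perm.mul_apply]
      have : k⁻¹ d = b := by rw [Perm.inv_eq_iff_eq]; exact hkd.symm
      rw [this, yb, hkd]
  have hcard : ¬ p ^ 2 ∣ Nat.card (stab2 G c d) := fun h =>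
    hpp (h.trans (Subgroup.card_dvd_of_le (stab2_le G c d)))
  obtain ⟨⟨m, hm⟩, hmm⟩ := conj_of_orderOf_prime hp hcard ⟨y, h1⟩ ⟨k * y * k⁻¹, h3⟩
    (by rw [Subgroup.orderOf_mk]; exact ho)
    (by rw [Subgroup.orderOf_mk, orderOf_conj', ho])
  obtain ⟨j, hj⟩ := mem_zpowers_iff.1 hmm
  refine ⟨m * k, G.mul_mem hm.1 hk, ?_, ?_, ?_⟩
  · rw [Perm.mul_apply, hkc]; exact hm.2.1
  · rw [Perm.mul_apply, hkd]; exact hm.2.2
  · rw [mem_zpowers_iff]
    refine ⟨j, ?_⟩
    have := congrArg Subtype.val hj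
    simp only [Subgroup.coe_zpow, Subgroup.coe_mul, Subgroup.coe_inv] at this
    rw [this]
    group

theorem conj_pow_iter {g y : S14} {j : ℕ} (h : g * y * g⁻¹ = y ^ j) (n : ℕ) :
    g ^ n * y * (g ^ n)⁻¹ = y ^ (j ^ n) := by
  induction n with
  | zero => simp
  | succ n ih =>
    have : g ^ (n + 1) * y * (g ^ (n + 1))⁻¹ = g ^ n * (g * y * g⁻¹) * (g ^ n)⁻¹ := by
      rw [pow_succ]; group
    rw [this, h, ← conj_pow, ih, ← pow_mul, pow_succ]

theorem exists_pow_of_conj_mem {y g : S14} {p : ℕ} (hp : 0 < p) (ho : orderOf y = p)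
    (h : g * y * g⁻¹ ∈ zpowers y) : ∃ j < p, g * y * g⁻¹ = y ^ j := by
  obtain ⟨j, hj⟩ := mem_zpowers_iff.1 h
  refine ⟨(j % p).toNat, ?_, ?_⟩
  · have h1 : j % (p : ℤ) < p := Int.emod_lt_of_pos _ (by exact_mod_cast hp)
    have h2 : 0 ≤ j % (p : ℤ) := Int.emod_nonneg _ (by omega)
    omega
  · have h2 : 0 ≤ j % (p : ℤ) := Int.emod_nonneg _ (by omega)
    rw [← hj, ← zpow_natCast, Int.toNat_of_nonneg h2, ← ho, zpow_mod_orderOf]

theorem comm_of_conj_mem {y g : S14} {p : ℕ} (hp : p.Prime) (ho : orderOf y = p)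
    (h : g * y * g⁻¹ ∈ zpowers y) : g ^ (p - 1) * y = y * g ^ (p - 1) := by
  obtain ⟨j, hjp, hj⟩ := exists_pow_of_conj_mem hp.pos ho h
  have hj0 : j ≠ 0 := by
    rintro rfl
    rw [pow_zero, mul_inv_eq_one, mul_eq_left] at hj
    rw [hj, orderOf_one] at ho
    exact hp.one_lt.ne ho
  have hco : Nat.Coprime j p := (Nat.coprime_of_lt_prime hj0 hjp hp).symm
  have h1 := conj_pow_iter hj (p - 1)
  have h2 : j ^ (p - 1) ≡ 1 [MOD p] := by
    have := Nat.ModEq.pow_totient hco
    rwa [Nat.totient_prime hp] at this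
  have h3 : y ^ (j ^ (p - 1)) = y := by
    rw [← pow_mod_orderOf, ho]
    have h4 : j ^ (p - 1) % p = 1 % p := h2
    rw [h4, Nat.mod_eq_of_lt hp.one_lt, pow_one]
  rw [h3] at h1
  exact mul_inv_eq_iff_eq_mul.1 h1

theorem commute_iterate {z y : S14} (h : z * y = y * z) {q : Fin 14} {k : ℕ}
    (hk : z q = (y ^ k) q) (n : ℕ) : (z ^ n) q = (y ^ (k * n)) q := by
  have hc : ∀ m : ℕ, z * y ^ m = y ^ m * z := fun m => (Commute.pow_right (h : Commute z y) m)
  induction n with
  | zero => simp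
  | succ n ih =>
    rw [pow_succ', Perm.mul_apply, ih, ← Perm.mul_apply, hc, Perm.mul_apply, hk,
      ← Perm.mul_apply, ← pow_add, Nat.mul_succ]

/-- the standard 11-cycle -/
def c11 : S14 := List.formPerm [0, 1, 2, 3, 4, 5, 6, 7, 8, 9, 10]

theorem c11_cycle : c11.IsCycle := List.isCycle_formPerm (by decide) (by decide)
theorem c11_support : c11.support = {0, 1, 2, 3, 4, 5, 6, 7, 8, 9, 10} := by
  unfold c11
  rw [List.support_formPerm_of_nodup _ (by decide) (by decide)]
  decide
theorem c11_type : c11.cycleType = {11} := by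
  rw [c11_cycle.cycleType, c11_support]; rfl
theorem c11_order : orderOf c11 = 11 := by
  rw [c11_cycle.orderOf, c11_support]; rfl

/-- a standard 3-cycle -/
def c3 : S14 := List.formPerm [11, 12, 13]
theorem c3_three : IsThreeCycle c3 := by
  unfold c3
  rw [← card_support_eq_three_iff, List.support_formPerm_of_nodup _ (by decide) (by decide)]
  decide

theorem Hyp.no_c11 {G : Subgroup S14} (h : Hyp G) (hpp : ¬ 11 ^ 2 ∣ Nat.card G) : c11 ∉ G := by
  intro hc
  obtain ⟨g, hg, h1, h2, h3⟩ := h.twoTrans.witt (p := 11) (by norm_num) hpp hc c11_order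
    (a := 11) (b := 12) (c := 12) (d := 13) (by decide) (by decide) (by decide) (by decide)
    (by decide) (by decide)
  have hcomm := comm_of_conj_mem (by norm_num) c11_order h3
  simp only [Nat.add_one_sub_one] at hcomm
  -- action on the fixed points
  have h13 : g 13 = 11 := by
    have h4 : g 13 ∉ c11.support := by
      rw [Perm.notMem_support]
      exact fix_of_conj_mem h3 (by decide)
    have h5 : g 13 ≠ 12 := by rw [← h1]; exact fun h => absurd (g.injective h) (by decide)
    have h6 : g 13 ≠ 13 := by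
      intro h'
      exact absurd (g.injective (h'.trans h2.symm)) (by decide)
    rw [c11_support] at h4
    revert h4 h5 h6
    generalize g 13 = x
    revert x
    decide
  -- action on the support
  have hsupp : ∀ q : Fin 14, q ∈ c11.support → ((g ^ 10) ^ 11) q = q := by
    intro q hq
    have hz : (g ^ 10) q ∈ c11.support := by
      rw [Perm.mem_support] at hq ⊢
      intro hc'
      apply hq
      have : (g ^ 10) (c11 q) = (g ^ 10) q := by
        rw [← Perm.mul_apply, hcomm, Perm.mul_apply, hc']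
      exact (g ^ 10).injective this
    obtain ⟨k, hk⟩ : ∃ k : Fin 11, (g ^ 10) q = (c11 ^ (k : ℕ)) q := by
      rw [c11_support] at hq hz
      revert hq hz
      generalize (g ^ 10) q = x
      revert q x
      decide +kernel
    rw [commute_iterate hcomm hk 11]
    rw [mul_comm, pow_mul]
    have : c11 ^ 11 = 1 := by rw [← c11_order]; exact pow_orderOf_eq_one _
    rw [this, one_pow]; rfl
  have hfin : ((g ^ 10) ^ 11) = c3⁻¹ := by
    have e3 : ∀ x : Fin 14, x ∉ c11.support → (g ^ 3) x = x := by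
      intro x hx
      rw [c11_support] at hx
      have : x = 11 ∨ x = 12 ∨ x = 13 := by revert x; decide
      rcases this with rfl | rfl | rfl <;> simp [pow_succ, h1, h2, h13]
    have e110 : ∀ x : Fin 14, x ∉ c11.support → ((g ^ 10) ^ 11) x = (g ^ 2) x := by
      intro x hx
      have h36 : ∀ n : ℕ, ((g ^ 3) ^ n) x = x := by
        intro n
        induction n with
        | zero => rfl
        | succ n ih => rw [pow_succ, Perm.mul_apply, e3 x hx, ih]
      have : (g ^ 10) ^ 11 = g ^ 2 * (g ^ 3) ^ 36 := by group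
      rw [this, Perm.mul_apply, h36]
    ext x
    congr 1
    by_cases hx : x ∈ c11.support
    · rw [hsupp x hx]
      rw [c11_support] at hx
      revert hx
      clear hsupp e3 e110
      revert x
      decide
    · rw [e110 x hx]
      rw [c11_support] at hx
      have : x = 11 ∨ x = 12 ∨ x = 13 := by revert x; decide
      rcases this with rfl | rfl | rfl
      · simp only [pow_two, Perm.mul_apply, h1, h2]; decide
      · simp only [pow_two, Perm.mul_apply, h2, h13]; decide
      · simp only [pow_two, Perm.mul_apply, h13, h1]; decide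
  have h3c : IsThreeCycle ((g ^ 10) ^ 11) := by
    rw [hfin]; exact c3_three.inv
  exact h.no_three (G.pow_mem (G.pow_mem hg _) _) h3c

/-- the standard element of type (5,5) -/
def y55 : S14 := List.formPerm [0, 1, 2, 3, 4] * List.formPerm [5, 6, 7, 8, 9]

theorem y55_type : y55.cycleType = {5, 5} := by
  have h1 : Perm.Disjoint (List.formPerm [0, 1, 2, 3, 4] : S14)
      (List.formPerm [5, 6, 7, 8, 9]) := by
    rw [List.formPerm_disjoint_iff (by decide) (by decide) (by decide) (by decide)]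
    intro a ha hb
    revert a
    decide
  have h2 : (List.formPerm [5, 6, 7, 8, 9] : S14).cycleType = {5} := by
    rw [(List.isCycle_formPerm (by decide) (by decide)).cycleType,
      List.support_formPerm_of_nodup _ (by decide) (by decide)]
    rfl
  unfold y55
  rw [h1.cycleType_mul, h2]
  have := c5_type
  unfold c5 at this
  rw [this]
  rfl

theorem y55_order : orderOf y55 = 5 := by
  rw [← Perm.lcm_cycleType, y55_type]; rfl

theorem iff_of_not_iff {A B C : Prop} (h : ¬ (A ↔ B)) (h' : ¬ (A ↔ C)) : B ↔ C := by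
  tauto

theorem Hyp.no_y55 {G : Subgroup S14} (h : Hyp G) (hpp : ¬ 5 ^ 2 ∣ Nat.card G) : y55 ∉ G := by
  intro hc
  -- an element of the normalizer acting as a 3-cycle on the fixed points
  have fixF : ∀ g : S14, g * y55 * g⁻¹ ∈ zpowers y55 → ∀ x : Fin 14, 10 ≤ x.val →
      10 ≤ (g x).val := by
    intro g hg x hx
    have h1 : y55 x = x := by revert x; decide
    have h2 := fix_of_conj_mem hg h1
    revert h2
    generalize g x = w
    revert w
    decide
  have hex : ∃ g ∈ G, g * y55 * g⁻¹ ∈ zpowers y55 ∧ g 10 = 10 ∧ g 11 = 12 ∧ g 12 = 13 ∧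
      g 13 = 11 := by
    obtain ⟨g, hg, g1, g2, g3⟩ := h.twoTrans.witt (p := 5) (by norm_num) hpp hc y55_order
      (a := 10) (b := 11) (c := 10) (d := 12) (by decide) (by decide) (by decide) (by decide)
      (by decide) (by decide)
    obtain ⟨k, hk, k1, k2, k3⟩ := h.twoTrans.witt (p := 5) (by norm_num) hpp hc y55_order
      (a := 10) (b := 11) (c := 10) (d := 13) (by decide) (by decide) (by decide) (by decide)
      (by decide) (by decide)
    have inj : ∀ (g : S14) (x y : Fin 14), x ≠ y → g x ≠ g y := fun g x y hxy h =>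
      hxy (g.injective h)
    have hg12 := fixF g g3 12 (by decide)
    have hg13 := fixF g g3 13 (by decide)
    have hk12 := fixF k k3 12 (by decide)
    have hk13 := fixF k k3 13 (by decide)
    have a1 := inj g 12 10 (by decide)
    have a2 := inj g 12 11 (by decide)
    have a3 := inj g 13 10 (by decide)
    have a4 := inj g 13 11 (by decide)
    have a5 := inj g 12 13 (by decide)
    have b1 := inj k 12 10 (by decide)
    have b2 := inj k 12 11 (by decide)
    have b3 := inj k 13 10 (by decide)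
    have b4 := inj k 13 11 (by decide)
    have b5 := inj k 12 13 (by decide)
    rw [g1] at a1 a3
    rw [g2] at a2 a4
    rw [k1] at b1 b3
    rw [k2] at b2 b4
    have gcase : (g 12 = 13 ∧ g 13 = 11) ∨ (g 12 = 11 ∧ g 13 = 13) := by
      revert hg12 hg13 a1 a2 a3 a4 a5
      generalize g 12 = x
      generalize g 13 = y
      revert x y
      decide
    have kcase : (k 13 = 12 ∧ k 12 = 11) ∨ (k 13 = 11 ∧ k 12 = 12) := by
      revert hk12 hk13 b1 b2 b3 b4 b5
      generalize k 12 = x
      generalize k 13 = y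
      revert x y
      decide
    rcases gcase with ⟨g4, g5⟩ | ⟨g4, g5⟩
    · exact ⟨g, hg, g3, g1, g2, g4, g5⟩
    · rcases kcase with ⟨k4, k5⟩ | ⟨k4, k5⟩
      · -- use the inverse of `k`
        refine ⟨k * k, G.mul_mem hk hk, ?_, ?_, ?_, ?_, ?_⟩
        · have e : (k * k) * y55 * (k * k)⁻¹ = k * (k * y55 * k⁻¹) * k⁻¹ := by group
          rw [e]
          obtain ⟨j, hj⟩ := mem_zpowers_iff.1 k3
          rw [← hj, ← conj_zpow]
          exact (zpowers y55).zpow_mem k3 j
        · simp [k1]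
        · simp [k2, k4]
        · simp [k5, k2]
        · simp [k4, k5]
      · refine ⟨k * g, G.mul_mem hk hg, ?_, ?_, ?_, ?_, ?_⟩
        · have e : (k * g) * y55 * (k * g)⁻¹ = k * (g * y55 * g⁻¹) * k⁻¹ := by group
          rw [e]
          obtain ⟨j, hj⟩ := mem_zpowers_iff.1 g3
          rw [← hj, ← conj_zpow]
          exact (zpowers y55).zpow_mem k3 j
        · simp [g1, k1]
        · simp [g2, k5]
        · simp [g4, k2]
        · simp [g5, k4]
  obtain ⟨g, hg, h3, g10, g11, g12, g13⟩ := hex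
  have hcomm := comm_of_conj_mem (by norm_num) y55_order h3
  simp only [Nat.add_one_sub_one] at hcomm
  have hpow5 : y55 ^ 5 = 1 := by rw [← y55_order]; exact pow_orderOf_eq_one _
  -- `z = g ^ 4` preserves the support
  set z := g ^ 4 with hz
  have hzs : ∀ q : Fin 14, q.val < 10 → (z q).val < 10 := by
    intro q hq
    have h1 : y55 q ≠ q := by revert q; decide
    have h2 : y55 (z q) ≠ z q := by
      intro hc'
      apply h1
      have : z (y55 q) = z q := by
        rw [← Perm.mul_apply, hcomm, Perm.mul_apply, hc']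
      exact z.injective this
    revert h2
    generalize z q = w
    revert w
    decide
  have hblock : ∀ q x : Fin 14, q.val < 10 → x.val < 10 → (q.val < 5 ↔ x.val < 5) →
      ∃ k : Fin 5, x = (y55 ^ (k : ℕ)) q := by
    decide +kernel
  have hblock2 : ∀ (q : Fin 14) (k : Fin 5), q.val < 10 →
      (((y55 ^ (k : ℕ)) q).val < 5 ↔ q.val < 5) := by
    decide +kernel
  have hsupp : ∀ q : Fin 14, q.val < 10 → (z ^ 10) q = q := by
    intro q hq
    by_cases hb : (q.val < 5 ↔ (z q).val < 5)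
    · obtain ⟨k, hk⟩ := hblock q (z q) hq (hzs q hq) hb
      rw [commute_iterate hcomm hk 10]
      have : (k : ℕ) * 10 = 5 * (k * 2) := by ring
      rw [this, pow_mul, hpow5, one_pow]; rfl
    · -- `z (z q)` is in the block of `q`
      have hb2 : (q.val < 5 ↔ (z (z q)).val < 5) := by
        by_contra hb3
        have hb4 : ((z q).val < 5 ↔ (z (z q)).val < 5) := iff_of_not_iff hb hb3
        obtain ⟨k, hk⟩ := hblock (z q) (z (z q)) (hzs q hq) (hzs _ (hzs q hq)) hb4
        have h5 : (y55 ^ (k : ℕ)) (z q) = z ((y55 ^ (k : ℕ)) q) := by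
          have hc2 : z * y55 ^ (k : ℕ) = y55 ^ (k : ℕ) * z :=
            (Commute.pow_right (hcomm : Commute z y55) k)
          rw [← Perm.mul_apply, ← hc2, Perm.mul_apply]
        rw [h5] at hk
        have h6 := z.injective hk
        apply hb
        rw [h6]
        exact (hblock2 q k hq).symm
      obtain ⟨k, hk⟩ := hblock q (z (z q)) hq (hzs _ (hzs q hq)) hb2
      have hcomm2 : (z * z) * y55 = y55 * (z * z) := by
        rw [mul_assoc, hcomm, ← mul_assoc, hcomm, mul_assoc]
      have hk' : (z * z) q = (y55 ^ (k : ℕ)) q := hk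
      have h7 := commute_iterate hcomm2 hk' 5
      have h8 : z ^ 10 = (z * z) ^ 5 := by rw [← pow_two]; exact pow_mul z 2 5
      rw [h8, h7]
      have : (k : ℕ) * 5 = 5 * k := by ring
      rw [this, pow_mul, hpow5, one_pow]; rfl
  have hfin : z ^ 10 = c3 := by
    have e3 : ∀ x : Fin 14, 10 ≤ x.val → (g ^ 3) x = x := by
      intro x hx
      have : x = 10 ∨ x = 11 ∨ x = 12 ∨ x = 13 := by revert x; decide
      rcases this with rfl | rfl | rfl | rfl <;> simp [pow_succ, g10, g11, g12, g13]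
    have e40 : ∀ x : Fin 14, 10 ≤ x.val → (z ^ 10) x = g x := by
      intro x hx
      have h13 : ∀ n : ℕ, ((g ^ 3) ^ n) x = x := by
        intro n
        induction n with
        | zero => rfl
        | succ n ih => rw [pow_succ, Perm.mul_apply, e3 x hx, ih]
      have : z ^ 10 = g * (g ^ 3) ^ 13 := by rw [hz]; group
      rw [this, Perm.mul_apply, h13]
    ext x
    congr 1
    by_cases hx : x.val < 10
    · rw [hsupp x hx]
      revert hx
      clear hsupp e3 e40
      revert x
      decide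
    · have hx' : 10 ≤ x.val := by omega
      rw [e40 x hx']
      have : x = 10 ∨ x = 11 ∨ x = 12 ∨ x = 13 := by revert x; decide
      rcases this with rfl | rfl | rfl | rfl
      · rw [g10]; decide
      · rw [g11]; decide
      · rw [g12]; decide
      · rw [g13]; decide
  have h3c : IsThreeCycle (z ^ 10) := by
    rw [hfin]; exact c3_three
  exact h.no_three (G.pow_mem (G.pow_mem hg _) _) h3c

end Pool.Agent.Lib.MP_6f5538_al
end

section

/-!
The order of a primitive group of degree 14 divides `2^9 3^4 7 13`.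
-/

namespace Pool.Agent.Lib.MP_6f5538_al

open Equiv Equiv.Perm Subgroup

theorem card_S14 : Nat.card S14 = 87178291200 := by
  rw [Nat.card_perm, Nat.card_eq_fintype_card, Fintype.card_fin]
  decide

theorem card_mul_index' (G : Subgroup S14) : Nat.card G * G.index = 87178291200 := by
  rw [Subgroup.card_mul_index, card_S14]

theorem dvd_index_of_forall {G : Subgroup S14} {c : S14} {p : ℕ} (hp : p.Prime)
    (ho : orderOf c = p) (hno : ∀ π, c ∉ cj π G) : p ∣ G.index := by
  by_contra hnd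
  obtain ⟨g, hg⟩ := exists_conj_le_of_not_dvd_index hp (zpowers c) G
    (IsPGroup.of_card (n := 1) (by rw [Nat.card_zpowers, ho, pow_one])) hnd
  exact hno g (mem_cj.2 (hg c (mem_zpowers c)))

theorem Hyp.three_dvd {G : Subgroup S14} (h : Hyp G) : 3 ∣ G.index :=
  dvd_index_of_forall (by norm_num) c3_three.orderOf
    (fun π hc => (h.cj π).no_three hc c3_three)

theorem Hyp.five_dvd {G : Subgroup S14} (h : Hyp G) : 5 ∣ G.index :=
  dvd_index_of_forall (c := c5) (by norm_num)
    (by rw [c5_cycle.orderOf, c5_support]; rfl) (fun π => (h.cj π).no_c5)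

theorem Hyp.seven_dvd {G : Subgroup S14} (h : Hyp G) : 7 ∣ G.index :=
  dvd_index_of_forall (c := c7) (by norm_num)
    (by rw [c7_cycle.orderOf, c7_support]; rfl) (fun π => (h.cj π).no_c7)

/-- the involution pairing `2 i` with `2 i + 1` -/
def mu (x : Fin 14) : Fin 14 := ![1, 0, 3, 2, 5, 4, 7, 6, 9, 8, 11, 10, 13, 12] x

theorem mu_mu (x : Fin 14) : mu (mu x) = x := by revert x; decide
theorem mu_ne (x : Fin 14) : mu x ≠ x := by revert x; decide

/-- even permutations preserving each pair -/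
def EE : Subgroup (alternatingGroup (Fin 14)) where
  carrier := {e | ∀ x, (e : S14) x = x ∨ (e : S14) x = mu x}
  one_mem' := fun x => Or.inl rfl
  mul_mem' := by
    intro a b ha hb x
    have e1 : ((a * b : alternatingGroup (Fin 14)) : S14) x = (a : S14) ((b : S14) x) := rfl
    rw [e1]
    rcases hb x with h1 | h1
    · rw [h1]; exact ha x
    · rw [h1]
      rcases ha (mu x) with h2 | h2
      · exact Or.inr h2
      · rw [mu_mu] at h2; exact Or.inl h2
  inv_mem' := by
    intro a ha x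
    have e1 : ((a⁻¹ : alternatingGroup (Fin 14)) : S14) x = (a : S14)⁻¹ x := rfl
    rw [e1]
    rcases ha x with h1 | h1
    · left; rw [Perm.inv_eq_iff_eq]; exact h1.symm
    · right
      rw [Perm.inv_eq_iff_eq]
      rcases ha (mu x) with h2 | h2
      · exfalso
        exact mu_ne x ((a : S14).injective (h2.trans h1.symm))
      · rw [h2, mu_mu]

theorem EE_pgroup : IsPGroup 2 EE := by
  rintro ⟨e, he⟩
  refine ⟨1, ?_⟩
  apply Subtype.ext
  apply Subtype.ext
  ext x
  congr 1
  change ((e : S14) ^ (2 ^ 1)) x = x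
  rw [pow_one, pow_two, Perm.mul_apply]
  rcases he x with h1 | h1
  · rw [h1, h1]
  · rw [h1]
    rcases he (mu x) with h2 | h2
    · exfalso
      exact mu_ne x ((e : S14).injective (h2.trans h1.symm))
    · rw [h2, mu_mu]

/-- elements of `EE` -/
def ej (j : Fin 7) : S14 := swap 0 1 * swap (![0, 2, 4, 6, 8, 10, 12] j) (![1, 3, 5, 7, 9, 11, 13] j)

theorem ej_mu (j : Fin 7) (hj : j ≠ 0) (x : Fin 14) : ej j x = x ∨ ej j x = mu x := by
  revert j x; decide

theorem ej_sign (j : Fin 7) : sign (ej j) = 1 := by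
  unfold ej
  rw [Perm.sign_mul, Perm.sign_swap (by decide), Perm.sign_swap]
  · rfl
  · revert j; decide

theorem Hyp.no_EE {G : Subgroup S14} (h : Hyp G)
    (hE : ∀ j : Fin 7, j ≠ 0 → ej j ∈ G) : False := by
  obtain ⟨w, hw, w0, w1⟩ := h.twoTrans 0 1 0 2 (by decide) (by decide)
  have A0 : ∀ i : Fin 7, i ≠ 0 → (![0, 2, 4, 6, 8, 10, 12] i : Fin 14) ≠ 0 := by decide
  have A1 : ∀ i : Fin 7, i ≠ 0 → (![0, 2, 4, 6, 8, 10, 12] i : Fin 14) ≠ 1 := by decide
  have B0 : ∀ i : Fin 7, i ≠ 0 → (![1, 3, 5, 7, 9, 11, 13] i : Fin 14) ≠ 0 := by decide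
  have B1 : ∀ i : Fin 7, i ≠ 0 → (![1, 3, 5, 7, 9, 11, 13] i : Fin 14) ≠ 1 := by decide
  have key : ∀ i : Fin 7, i ≠ 0 → w (![0, 2, 4, 6, 8, 10, 12] i) ≠ 1 →
      w (![1, 3, 5, 7, 9, 11, 13] i) ≠ 1 → False := by
    intro i hi h1 h2
    set c := w (![0, 2, 4, 6, 8, 10, 12] i) with hc
    set d := w (![1, 3, 5, 7, 9, 11, 13] i) with hd
    have hv : w * ej i * w⁻¹ = swap 0 2 * swap c d := by
      unfold ej
      have e1 : w * (swap 0 1 * swap (![0, 2, 4, 6, 8, 10, 12] i) (![1, 3, 5, 7, 9, 11, 13] i)) *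
          w⁻¹ = (w * swap 0 1 * w⁻¹) *
          (w * swap (![0, 2, 4, 6, 8, 10, 12] i) (![1, 3, 5, 7, 9, 11, 13] i) * w⁻¹) := by group
      rw [e1]
      have e2 : ∀ x y : Fin 14, w * swap x y * w⁻¹ = swap (w x) (w y) := by
        intro x y
        rw [Equiv.swap_apply_apply]
      rw [e2, e2, w0, w1]
    have hvG : swap 0 2 * swap c d ∈ G := by
      rw [← hv]; exact G.mul_mem (G.mul_mem hw (hE i hi)) (G.inv_mem hw)
    have hc0 : c ≠ 0 := by
      intro hh; rw [← w0, hc] at hh
      exact A0 i hi (w.injective hh)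
    have hd0 : d ≠ 0 := by
      intro hh; rw [← w0, hd] at hh
      exact B0 i hi (w.injective hh)
    have hc2 : c ≠ 2 := by
      intro hh; rw [← w1, hc] at hh
      exact A1 i hi (w.injective hh)
    have hd2 : d ≠ 2 := by
      intro hh; rw [← w1, hd] at hh
      exact B1 i hi (w.injective hh)
    clear_value c d
    -- a pair disjoint from everything
    obtain ⟨j, hj0, hj⟩ : ∃ j : Fin 7, j ≠ 0 ∧ ∀ x : Fin 14, ej j x ≠ x → x ≠ 0 →
        x ≠ 2 ∧ x ≠ c ∧ x ≠ d := by
      have : ∀ c d : Fin 14, c ≠ 1 → d ≠ 1 → ∃ j : Fin 7, j ≠ 0 ∧ ∀ x : Fin 14, ej j x ≠ x →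
          x ≠ 0 → x ≠ 2 ∧ x ≠ c ∧ x ≠ d := by decide +kernel
      exact this c d h1 h2
    have h3 : IsThreeCycle (ej j * (swap 0 2 * swap c d) * (ej j)⁻¹ *
        (swap 0 2 * swap c d)⁻¹) := by
      apply isThreeCycle_comm 0
      · clear hj
        revert j; decide
      · rw [Perm.mul_apply, swap_apply_of_ne_of_ne hc0.symm hd0.symm, swap_apply_left]
        decide
      · intro x hx1 hx2
        by_contra hx0
        obtain ⟨hx3, hx4, hx5⟩ := hj x hx1 hx0
        apply hx2
        rw [Perm.mul_apply, swap_apply_of_ne_of_ne hx4 hx5, swap_apply_of_ne_of_ne hx0 hx3]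
    have hjG := hE j hj0
    exact h.no_three (G.mul_mem (G.mul_mem (G.mul_mem hjG hvG) (G.inv_mem hjG))
      (G.inv_mem hvG)) h3
  by_cases h1 : w 2 = 1 ∨ w 3 = 1
  · refine key 2 (by decide) ?_ ?_
    · rcases h1 with h1 | h1 <;> intro hh <;>
        exact absurd (w.injective (hh.trans h1.symm)) (by decide)
    · rcases h1 with h1 | h1 <;> intro hh <;>
        exact absurd (w.injective (hh.trans h1.symm)) (by decide)
  · push Not at h1
    exact key 1 (by decide) h1.1 h1.2

theorem Hyp.four_dvd {G : Subgroup S14} (h : Hyp G) : 4 ∣ G.index := by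
  have hle : G ≤ alternatingGroup (Fin 14) := fun g hg => mem_alternatingGroup.2 (h.even g hg)
  have h2 : 2 ∣ (G.subgroupOf (alternatingGroup (Fin 14))).index := by
    by_contra hnd
    obtain ⟨g, hg⟩ := exists_conj_le_of_not_dvd_index Nat.prime_two EE _ EE_pgroup hnd
    refine (h.cj (g : S14)).no_EE (fun j hj => ?_)
    have h1 := hg ⟨ej j, mem_alternatingGroup.2 (ej_sign j)⟩ (ej_mu j hj)
    rw [mem_cj]
    exact h1
  have h3 : (G.subgroupOf (alternatingGroup (Fin 14))).index *
      (alternatingGroup (Fin 14)).index = G.index := Subgroup.relIndex_mul_index hle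
  have h4 : (alternatingGroup (Fin 14)).index = 2 := alternatingGroup.index_eq_two
  rw [h4] at h3
  rw [← h3]
  exact Nat.mul_dvd_mul h2 (dvd_refl 2)

theorem Hyp.card_dvd1 {G : Subgroup S14} (h : Hyp G) : Nat.card G ∣ 207567360 := by
  have h1 : 420 ∣ G.index := by
    have e1 : 4 * 3 ∣ G.index := Nat.Coprime.mul_dvd_of_dvd_of_dvd (by norm_num) h.four_dvd h.three_dvd
    have e2 : 4 * 3 * 5 ∣ G.index := Nat.Coprime.mul_dvd_of_dvd_of_dvd (by norm_num) e1 h.five_dvd
    have e3 : 4 * 3 * 5 * 7 ∣ G.index :=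
      Nat.Coprime.mul_dvd_of_dvd_of_dvd (by norm_num) e2 h.seven_dvd
    exact e3
  obtain ⟨k, hk⟩ := h1
  have h2 := card_mul_index' G
  rw [hk] at h2
  refine ⟨k, ?_⟩
  have h3 : 420 * (Nat.card G * k) = 420 * 207567360 := by
    rw [← mul_assoc, mul_comm 420, mul_assoc]; exact h2
  exact (Nat.eq_of_mul_eq_mul_left (by norm_num) h3).symm

theorem type_of_prime_order {y : S14} {p : ℕ} (hp : p.Prime) (ho : orderOf y = p) :
    ∃ n : ℕ, y.cycleType = Multiset.replicate (n + 1) p ∧ (n + 1) * p ≤ 14 := by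
  obtain ⟨n, hn⟩ := cycleType_prime_order (σ := y) (by rw [ho]; exact hp)
  rw [ho] at hn
  refine ⟨n, hn, ?_⟩
  have h1 : y.cycleType.sum ≤ 14 := by
    rw [sum_cycleType]
    exact (Finset.card_le_univ _).trans (by simp)
  rw [hn, Multiset.sum_replicate, smul_eq_mul] at h1
  exact h1

theorem exists_orderOf {G : Subgroup S14} {p : ℕ} (hp : p.Prime) (hd : p ∣ Nat.card G) :
    ∃ y ∈ G, orderOf y = p := by
  have : Fact p.Prime := ⟨hp⟩
  obtain ⟨⟨t, htG⟩, hto⟩ := exists_prime_orderOf_dvd_card' p hd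
  exact ⟨t, htG, by rw [← hto, Subgroup.orderOf_mk]⟩

theorem Hyp.not_five {G : Subgroup S14} (h : Hyp G) : ¬ 5 ∣ Nat.card G := by
  intro hd
  obtain ⟨y, hy, ho⟩ := exists_orderOf (by norm_num) hd
  obtain ⟨n, hn, hle⟩ := type_of_prime_order (by norm_num) ho
  have hn2 : n = 0 ∨ n = 1 := by omega
  rcases hn2 with rfl | rfl
  · exact h.no_type5 hy hn
  · obtain ⟨π, hπ⟩ := exists_cj_mem (c := y55) hy (by rw [hn, y55_type]; rfl)
    refine (h.cj π).no_y55 ?_ hπ
    rw [card_cj]
    intro h25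
    exact absurd (h25.trans h.card_dvd1) (by norm_num)

theorem Hyp.not_eleven {G : Subgroup S14} (h : Hyp G) : ¬ 11 ∣ Nat.card G := by
  intro hd
  obtain ⟨y, hy, ho⟩ := exists_orderOf (by norm_num) hd
  obtain ⟨n, hn, hle⟩ := type_of_prime_order (by norm_num) ho
  have hn2 : n = 0 := by omega
  subst hn2
  obtain ⟨π, hπ⟩ := exists_cj_mem (c := c11) hy (by rw [hn, c11_type]; rfl)
  refine (h.cj π).no_c11 ?_ hπ
  rw [card_cj]
  intro h25
  exact absurd (h25.trans h.card_dvd1) (by norm_num)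

theorem Hyp.card_dvd {G : Subgroup S14} (h : Hyp G) : Nat.card G ∣ 3773952 := by
  have h1 : Nat.card G ∣ 5 * (11 * 3773952) := by
    have := h.card_dvd1
    norm_num at this ⊢
    exact this
  have h5 : Nat.Coprime (Nat.card G) 5 :=
    ((Nat.Prime.coprime_iff_not_dvd (by norm_num)).2 h.not_five).symm
  have h11 : Nat.Coprime (Nat.card G) 11 :=
    ((Nat.Prime.coprime_iff_not_dvd (by norm_num)).2 h.not_eleven).symm
  exact h11.dvd_of_dvd_mul_left (h5.dvd_of_dvd_mul_left h1)

end Pool.Agent.Lib.MP_6f5538_al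
end

section

/-!
Sylow data for the primes 7 and 13.
-/

namespace Pool.Agent.Lib.MP_6f5538_al

open Equiv Equiv.Perm Subgroup

theorem exists_sylow_eq_zpowers {K : Type*} [Group K] [Finite K] {p : ℕ} [Fact p.Prime]
    (h : ¬ p ^ 2 ∣ Nat.card K) (z : K) (hz : orderOf z = p) :
    ∃ P : Sylow p K, (P : Subgroup K) = zpowers z := by
  have hp : p.Prime := Fact.out
  have hcard : Nat.card (zpowers z) = p := by rw [Nat.card_zpowers, hz]
  refine ⟨Sylow.ofCard (zpowers z) ?_, Sylow.coe_ofCard _ _⟩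
  rw [hcard]
  have hdvd : p ∣ Nat.card K := by rw [← hz]; exact orderOf_dvd_natCard z
  have h1 : (Nat.card K).factorization p = 1 := by
    have hne : Nat.card K ≠ 0 := Nat.card_pos.ne'
    have h2 : 1 ≤ (Nat.card K).factorization p :=
      (hp.dvd_iff_one_le_factorization hne).1 hdvd
    have h3 : ¬ 2 ≤ (Nat.card K).factorization p := fun h4 =>
      h ((hp.pow_dvd_iff_le_factorization hne).2 h4)
    omega
  rw [h1, pow_one]

/-- Burnside transfer, for subgroups of the symmetric group -/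
theorem burnside_compl {G : Subgroup S14} {p : ℕ} [Fact p.Prime] (P : Sylow p G)
    (hN : normalizer ((P : Subgroup G) : Set G) ≤ centralizer ((P : Subgroup G) : Set G)) :
    ∃ K : Subgroup S14, K ≤ G ∧ (∀ g ∈ G, ∀ k ∈ K, g * k * g⁻¹ ∈ K) ∧
      Nat.card K * Nat.card (P : Subgroup G) = Nat.card G ∧ ¬ p ∣ Nat.card K := by
  obtain ⟨L, hn, h1, h2⟩ : ∃ L : Subgroup G, L.Normal ∧ L.IsComplement' (P : Subgroup G) ∧
      ¬ p ∣ Nat.card L :=
    ⟨_, MonoidHom.normal_ker _, MonoidHom.ker_transferSylow_isComplement' P hN,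
      MonoidHom.not_dvd_card_ker_transferSylow P hN⟩
  have h3 : Nat.card (L.map G.subtype) = Nat.card L :=
    (Nat.card_congr (L.equivMapOfInjective _ G.subtype_injective).toEquiv).symm
  refine ⟨L.map G.subtype, Subgroup.map_subtype_le L, ?_, ?_, ?_⟩
  · rintro g hg k ⟨k', hk', rfl⟩
    have h4 := hn.conj_mem k' hk' ⟨g, hg⟩
    exact ⟨_, h4, rfl⟩
  · rw [h3]; exact h1.card_mul_card
  · rw [h3]; exact h2

theorem sylow_data' {G : Subgroup S14} {p : ℕ} (hp : p.Prime) (hpp : ¬ p ^ 2 ∣ Nat.card G)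
    {y : S14} (hy : y ∈ G) (ho : orderOf y = p)
    (hcent : ∀ w ∈ G, w * y = y * w → w ∈ zpowers y) :
    ∃ e n : ℕ, Nat.card G = p * e * n ∧ n ≡ 1 [MOD p] ∧ e ∣ p - 1 ∧
      (e = 1 → ∃ K : Subgroup S14, K ≤ G ∧ (∀ g ∈ G, ∀ k ∈ K, g * k * g⁻¹ ∈ K) ∧
        Nat.card K * p = Nat.card G ∧ ¬ p ∣ Nat.card K) ∧
      (∀ k : ℕ, (∀ g ∈ G, g * y * g⁻¹ ∈ zpowers y → g ^ k * y = y * g ^ k) → e ∣ k) := by
  have : Fact p.Prime := ⟨hp⟩
  obtain ⟨P, hP⟩ := exists_sylow_eq_zpowers (K := G) hpp ⟨y, hy⟩ (by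
    rw [Subgroup.orderOf_mk]; exact ho)
  have hcardP : Nat.card (P : Subgroup G) = p := by
    rw [hP, Nat.card_zpowers, Subgroup.orderOf_mk, ho]
  have hyP : (⟨y, hy⟩ : G) ∈ (P : Subgroup G) := by rw [hP]; exact mem_zpowers _
  have hmem : ∀ w : G, w.val ∈ zpowers y → w ∈ (P : Subgroup G) := by
    intro w hw
    rw [hP]
    obtain ⟨j, hj⟩ := mem_zpowers_iff.1 hw
    rw [mem_zpowers_iff]
    exact ⟨j, Subtype.ext (by rw [← hj]; rfl)⟩
  have hmem' : ∀ w : G, w ∈ (P : Subgroup G) → w.val ∈ zpowers y := by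
    intro w hw
    rw [hP] at hw
    obtain ⟨j, hj⟩ := mem_zpowers_iff.1 hw
    rw [mem_zpowers_iff]
    exact ⟨j, by rw [← hj]; rfl⟩
  have hC : centralizer ((P : Subgroup G) : Set G) ≤ (P : Subgroup G) := by
    intro w hw
    apply hmem
    apply hcent _ w.2
    have := mem_centralizer_iff.1 hw _ hyP
    exact (congrArg Subtype.val this).symm
  obtain ⟨e, n, h1, h2, h3, h4, h5, -⟩ := sylow_data P hcardP hC
  refine ⟨e, n, h1, h2, h3, ?_, ?_⟩
  · intro he
    obtain ⟨K, k1, k2, k3, k4⟩ := burnside_compl P (h4 he)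
    exact ⟨K, k1, k2, by rw [hcardP] at k3; exact k3, k4⟩
  · intro k hk
    apply h5
    intro g hg
    rw [mem_centralizer_iff]
    have hgy : g.val * y * g.val⁻¹ ∈ zpowers y := by
      have := (mem_normalizer_iff.1 hg ⟨y, hy⟩).1 hyP
      exact hmem' _ this
    have hcm := hk g g.2 hgy
    intro w hw
    obtain ⟨j, hj⟩ := mem_zpowers_iff.1 (hmem' w hw)
    apply Subtype.ext
    change w.val * g.val ^ k = g.val ^ k * w.val
    rw [← hj]
    exact ((Commute.zpow_right (show Commute (g.val ^ k) y from hcm) j).eq).symm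

/-- involutions commuting with `s0` and exchanging its cycles -/
def muk (k : Fin 7) : S14 :=
  ![swap 0 7 * swap 1 8 * swap 2 9 * swap 3 10 * swap 4 11 * swap 5 12 * swap 6 13,
    swap 0 8 * swap 1 9 * swap 2 10 * swap 3 11 * swap 4 12 * swap 5 13 * swap 6 7,
    swap 0 9 * swap 1 10 * swap 2 11 * swap 3 12 * swap 4 13 * swap 5 7 * swap 6 8,
    swap 0 10 * swap 1 11 * swap 2 12 * swap 3 13 * swap 4 7 * swap 5 8 * swap 6 9,
    swap 0 11 * swap 1 12 * swap 2 13 * swap 3 7 * swap 4 8 * swap 5 9 * swap 6 10,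
    swap 0 12 * swap 1 13 * swap 2 7 * swap 3 8 * swap 4 9 * swap 5 10 * swap 6 11,
    swap 0 13 * swap 1 7 * swap 2 8 * swap 3 9 * swap 4 10 * swap 5 11 * swap 6 12] k

theorem muk_sign (k : Fin 7) : sign (muk k) = -1 := by
  revert k
  decide +kernel

/-- function commuting with `s0` with prescribed values at `0` and `7` -/
def Fab (a b i : Fin 14) : Fin 14 := if i.val < 7 then (s0 ^ i.val) a else (s0 ^ (i.val - 7)) b

theorem s0_pow_zero (i : Fin 14) (hi : i.val < 7) : (s0 ^ i.val) 0 = i := by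
  revert i; decide +kernel

theorem s0_pow_seven (i : Fin 14) (hi : ¬ i.val < 7) : (s0 ^ (i.val - 7)) 7 = i := by
  revert i; decide +kernel

theorem eq_Fab {v : S14} (h : v * s0 = s0 * v) (i : Fin 14) : v i = Fab (v 0) (v 7) i := by
  have hc : ∀ m : ℕ, v * s0 ^ m = s0 ^ m * v := fun m =>
    (Commute.pow_right (h : Commute v s0) m)
  unfold Fab
  by_cases hi : i.val < 7
  · rw [if_pos hi, ← Perm.mul_apply, ← hc, Perm.mul_apply, s0_pow_zero i hi]
  · rw [if_neg hi, ← Perm.mul_apply, ← hc, Perm.mul_apply, s0_pow_seven i hi]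

theorem Fab_check : ∀ a b : Fin 14, (∀ i, Fab a b (Fab a b i) = i) →
    (∀ i, Fab a b i = i) ∨ ∃ k : Fin 7, ∀ i, Fab a b i = muk k i := by
  decide +kernel

theorem cent7 {v : S14} (h : v * s0 = s0 * v) (h2 : v ^ 2 = 1) (hs : sign v = 1) : v = 1 := by
  have hv := eq_Fab h
  have h3 : ∀ i, Fab (v 0) (v 7) (Fab (v 0) (v 7) i) = i := by
    intro i
    rw [← hv, ← hv, ← Perm.mul_apply, ← pow_two, h2]; rfl
  rcases Fab_check _ _ h3 with h4 | ⟨k, h4⟩
  · ext i
    rw [hv, h4]; rfl
  · exfalso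
    have : v = muk k := by
      ext i
      rw [hv, h4]
    rw [this, muk_sign] at hs
    exact absurd hs (by decide)

theorem Hyp.cent_seven {G : Subgroup S14} (h : Hyp G) {y : S14} (hy : y ∈ G)
    (ho : orderOf y = 7) : ∀ w ∈ G, w * y = y * w → w ∈ zpowers y := by
  obtain ⟨n, hn, hle⟩ := type_of_prime_order (by norm_num) ho
  have hn2 : n = 0 ∨ n = 1 := by omega
  have hty : y.cycleType = {7, 7} := by
    rcases hn2 with rfl | rfl
    · exact absurd hn (h.no_type7 hy)
    · rw [hn]; rfl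
  intro w hw hwy
  set D : Subgroup S14 := G ⊓ centralizer {y} with hD
  have hwD : w ∈ D := ⟨hw, mem_centralizer_singleton_iff.2 hwy⟩
  have h98 : Nat.card (centralizer ({y} : Set S14)) = 98 := by
    rw [nat_card_centralizer, hty]
    decide
  have hD98 : Nat.card D ∣ 98 := by
    rw [← h98]; exact Subgroup.card_dvd_of_le inf_le_right
  have hDG : Nat.card D ∣ Nat.card G := Subgroup.card_dvd_of_le inf_le_left
  have h49 : ¬ 49 ∣ Nat.card D := fun h49 =>
    absurd ((h49.trans hDG).trans h.card_dvd) (by norm_num)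
  have hzD : zpowers y ≤ D := by
    rw [zpowers_le]
    exact ⟨hy, mem_centralizer_singleton_iff.2 rfl⟩
  have h7 : 7 ∣ Nat.card D := by
    have := Subgroup.card_dvd_of_le hzD
    rwa [Nat.card_zpowers, ho] at this
  have h2 : ¬ 2 ∣ Nat.card D := by
    intro h2
    obtain ⟨v, hv, hvo⟩ := exists_orderOf (by norm_num) h2
    have hconj : IsConj y s0 := isConj_iff_cycleType_eq.2 (hty.trans s0_type.symm)
    obtain ⟨π, hπ⟩ := isConj_iff.1 hconj
    have hcomm : v * y = y * v := mem_centralizer_singleton_iff.1 hv.2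
    have h5 : π * v * π⁻¹ = 1 := by
      apply cent7
      · rw [← hπ]
        have e1 : π * v * π⁻¹ * (π * y * π⁻¹) = π * (v * y) * π⁻¹ := by group
        have e2 : π * y * π⁻¹ * (π * v * π⁻¹) = π * (y * v) * π⁻¹ := by group
        rw [e1, e2, hcomm]
      · rw [conj_pow, ← hvo, pow_orderOf_eq_one]; group
      · rw [Perm.sign_mul, Perm.sign_mul, h.even v hv.1, Perm.sign_inv, mul_one,
          Int.units_mul_self]
    have h6 : v = 1 := by
      have := congrArg (fun x => π⁻¹ * x * π) h5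
      simpa [mul_assoc] using this
    rw [h6, orderOf_one] at hvo
    norm_num at hvo
  have hcard : Nat.card D = 7 := by
    have hpos : 0 < Nat.card D := Nat.card_pos
    have hle98 : Nat.card D ≤ 98 := Nat.le_of_dvd (by norm_num) hD98
    obtain ⟨c, hc⟩ := h7
    rw [hc] at hD98 h49 h2 hpos hle98
    have hc14 : c ∣ 14 := by
      have : 7 * c ∣ 7 * 14 := by norm_num; exact hD98
      exact Nat.dvd_of_mul_dvd_mul_left (by norm_num) this
    have hc14' : c ≤ 14 := Nat.le_of_dvd (by norm_num) hc14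
    rw [hc]
    interval_cases c <;> omega
  have heq : zpowers y = D := Subgroup.eq_of_le_of_card_ge hzD (by
    rw [hcard, Nat.card_zpowers, ho])
  rw [heq]
  exact hwD

end Pool.Agent.Lib.MP_6f5538_al
end

section

/-!
The order of a primitive group of degree 14 (with our hypotheses) is 1092.
-/

namespace Pool.Agent.Lib.MP_6f5538_al

open Equiv Equiv.Perm Subgroup

theorem Hyp.exists_type7 {G : Subgroup S14} (h : Hyp G) : ∃ y ∈ G, orderOf y = 7 := by
  obtain ⟨s, hs, hs7⟩ := h.seven
  exact ⟨s, hs, by rw [← lcm_cycleType, hs7]; rfl⟩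

theorem Hyp.normal_compl {G : Subgroup S14} (h : Hyp G) {K : Subgroup S14}
    (hn : ∀ g ∈ G, ∀ k ∈ K, g * k * g⁻¹ ∈ K) : Nat.card K = 1 ∨
      ((∀ a b : Fin 14, ∃ k ∈ K, k a = b) ∧ 14 ∣ Nat.card K) := by
  by_cases h1 : ∃ k ∈ K, k ≠ 1
  · right
    have h2 := fun a b => h.prim.trans_of_normal K hn h1 a b
    exact ⟨h2, fourteen_dvd_card h2⟩
  · left
    push Not at h1
    rw [Subgroup.card_eq_one, Subgroup.eq_bot_iff_forall]
    exact h1

theorem Hyp.card_pos' {G : Subgroup S14} : 0 < Nat.card G := Nat.card_pos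

/-- Sylow 7 data -/
theorem Hyp.data7 {G : Subgroup S14} (h : Hyp G) :
    ∃ e n : ℕ, Nat.card G = 7 * e * n ∧ n % 7 = 1 ∧ e ∣ 6 ∧ e ≠ 1 := by
  obtain ⟨y, hy, ho⟩ := h.exists_type7
  have h49 : ¬ 7 ^ 2 ∣ Nat.card G := fun h49 => absurd (h49.trans h.card_dvd) (by norm_num)
  obtain ⟨e, n, h1, h2, h3, h4, -⟩ := sylow_data' (by norm_num) h49 hy ho (h.cent_seven hy ho)
  refine ⟨e, n, h1, h2, h3, ?_⟩
  intro he
  obtain ⟨K, hKG, hn, hc, h7⟩ := h4 he
  rcases h.normal_compl hn with h5 | ⟨-, h5⟩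
  · rw [h5, one_mul] at hc
    have h6 := fourteen_dvd_card h.trans
    rw [← hc] at h6
    exact absurd h6 (by norm_num)
  · exact h7 (dvd_trans (by norm_num) h5)

/-- the standard 13-cycle -/
def c13 : S14 := List.formPerm [0, 1, 2, 3, 4, 5, 6, 7, 8, 9, 10, 11, 12]

theorem c13_cycle : c13.IsCycle := List.isCycle_formPerm (by decide) (by decide)
theorem c13_support : c13.support = {0, 1, 2, 3, 4, 5, 6, 7, 8, 9, 10, 11, 12} := by
  unfold c13
  rw [List.support_formPerm_of_nodup _ (by decide) (by decide)]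
  decide
theorem c13_type : c13.cycleType = {13} := by
  rw [c13_cycle.cycleType, c13_support]; rfl
theorem c13_order : orderOf c13 = 13 := by
  rw [c13_cycle.orderOf, c13_support]; rfl

/-- addition modulo 13, fixing the point 13 -/
def addm (x : Fin 14) (n : ℕ) : Fin 14 :=
  if x.val = 13 then 13 else ⟨(x.val + n) % 13, by omega⟩

theorem c13_pow (n : ℕ) (x : Fin 14) : (c13 ^ n) x = addm x n := by
  have h1 : ∀ x : Fin 14, c13 x = addm x 1 := by decide
  induction n with
  | zero =>
    unfold addm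
    split_ifs with h
    · exact Fin.ext (by simpa using h)
    · apply Fin.ext
      simp only [pow_zero, Perm.one_apply, Nat.add_zero]
      omega
  | succ n ih =>
    rw [pow_succ', Perm.mul_apply, ih, h1]
    unfold addm
    by_cases h : x.val = 13
    · simp [h]
    · simp only [h, if_false]
      have h2 : (x.val + n) % 13 ≠ 13 := by omega
      simp only [h2, if_false]
      apply Fin.ext
      simp only
      omega

/-- multiplication by 2 modulo 13, fixing the point 13 -/
def m2 : S14 where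
  toFun := ![0, 2, 4, 6, 8, 10, 12, 1, 3, 5, 7, 9, 11, 13]
  invFun := ![0, 7, 1, 8, 2, 9, 3, 10, 4, 11, 5, 12, 6, 13]
  left_inv := by decide
  right_inv := by decide

theorem m2_sign : sign m2 = -1 := by decide +kernel
theorem c13_sign : sign c13 = 1 := by decide +kernel

theorem m2_conj : m2 * c13 * m2⁻¹ = c13 ^ 2 := by
  rw [mul_inv_eq_iff_eq_mul]
  ext x
  revert x
  decide +kernel

theorem m2_order : m2 ^ 12 = 1 := by
  ext x
  revert x
  decide +kernel

/-- multiplication by 4 modulo 13 -/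
def u0 : S14 := m2 ^ 2

theorem aff_check : ∀ a : Fin 13, a ≠ 0 → ∃ k : Fin 12, ∀ b i : Fin 13,
    addm ((m2 ^ k.val) i.castSucc) b.val = addm b.castSucc (a.val * i.val) := by
  decide +kernel

/-- the normalizer of the 13-cycle in the alternating group -/
theorem normalizer13 {g : S14} (hs : sign g = 1) (hg : g * c13 * g⁻¹ ∈ zpowers c13) :
    ∃ b k : ℕ, g = c13 ^ b * u0 ^ k := by
  obtain ⟨a, ha, hag⟩ := exists_pow_of_conj_mem (by norm_num) c13_order hg
  have ha0 : a ≠ 0 := by
    rintro rfl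
    rw [pow_zero, mul_inv_eq_one, mul_eq_left] at hag
    have := c13_order
    rw [hag, orderOf_one] at this
    norm_num at this
  have h13 : g 13 = 13 := by
    have h1 : c13 (g 13) = g 13 := fix_of_conj_mem hg (by decide)
    revert h1
    generalize g 13 = w
    revert w
    decide
  have hb : g 0 ≠ 13 := by
    intro h1
    exact absurd (g.injective (h1.trans h13.symm)) (by decide)
  have hpow : ∀ i : ℕ, g * c13 ^ i = c13 ^ (a * i) * g := by
    intro i
    have h1 : g * c13 ^ i * g⁻¹ = c13 ^ (a * i) := by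
      rw [← conj_pow, hag, pow_mul]
    rw [← h1]; group
  obtain ⟨k, hk⟩ := aff_check ⟨a, ha⟩ (fun h => ha0 (congrArg Fin.val h))
  have hb13 : (g 0).val < 13 := by
    have : (g 0).val ≠ 13 := fun h => hb (Fin.ext h)
    omega
  have hgk : g = c13 ^ (g 0).val * m2 ^ k.val := by
    ext x
    congr 1
    rw [Perm.mul_apply, c13_pow]
    by_cases hx : x.val = 13
    · have hx' : x = 13 := Fin.ext hx
      subst hx'
      rw [h13]
      have : ∀ k : Fin 12, (m2 ^ k.val) 13 = 13 := by decide +kernel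
      rw [this]
      rfl
    · have hx13 : x.val < 13 := by omega
      have h1 := hk ⟨(g 0).val, hb13⟩ ⟨x.val, hx13⟩
      have e1 : (Fin.castSucc ⟨x.val, hx13⟩ : Fin 14) = x := rfl
      have e2 : (Fin.castSucc ⟨(g 0).val, hb13⟩ : Fin 14) = g 0 := rfl
      rw [e1, e2] at h1
      simp only at h1
      rw [h1, ← c13_pow]
      have h2 : x = (c13 ^ x.val) 0 := by
        rw [c13_pow]
        unfold addm
        apply Fin.ext
        simp
        omega
      conv_lhs => rw [h2]
      rw [← Perm.mul_apply, hpow, Perm.mul_apply]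
  have hk2 : Even k.val := by
    rw [hgk, Perm.sign_mul, map_pow, map_pow, c13_sign, m2_sign, one_pow, one_mul] at hs
    by_contra hodd
    rw [Nat.not_even_iff_odd] at hodd
    rw [hodd.neg_one_pow] at hs
    exact absurd hs (by decide)
  obtain ⟨k', hk'⟩ := hk2
  refine ⟨(g 0).val, k', ?_⟩
  rw [u0, ← pow_mul, two_mul, ← hk']
  exact hgk

theorem pow_six_comm {g : S14} (hs : sign g = 1) (hg : g * c13 * g⁻¹ ∈ zpowers c13) :
    g ^ 6 * c13 = c13 * g ^ 6 := by
  obtain ⟨b, k, rfl⟩ := normalizer13 hs hg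
  have h1 : u0 * c13 * u0⁻¹ = c13 ^ 4 := by
    have := conj_pow_iter m2_conj 2
    exact this
  have h2 := conj_pow_iter h1 k
  have h3 : (c13 ^ b * u0 ^ k) * c13 * (c13 ^ b * u0 ^ k)⁻¹ = c13 ^ (4 ^ k) := by
    have : (c13 ^ b * u0 ^ k) * c13 * (c13 ^ b * u0 ^ k)⁻¹ =
      c13 ^ b * (u0 ^ k * c13 * (u0 ^ k)⁻¹) * (c13 ^ b)⁻¹ := by group
    rw [this, h2, ← pow_add, mul_inv_eq_iff_eq_mul, ← pow_add, Nat.add_comm]
  have h4 := conj_pow_iter h3 6
  have h5 : (4 ^ k) ^ 6 % 13 = 1 := by
    rw [← pow_mul, mul_comm, pow_mul]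
    norm_num
    rw [Nat.pow_mod]
    norm_num
  have h6 : c13 ^ ((4 ^ k) ^ 6) = c13 := by
    rw [← pow_mod_orderOf, c13_order, h5, pow_one]
  rw [h6] at h4
  exact mul_inv_eq_iff_eq_mul.1 h4

theorem cent_thirteen {y : S14} (ho : orderOf y = 13) (w : S14) (hwy : w * y = y * w) :
    w ∈ zpowers y := by
  obtain ⟨n, hn, hle⟩ := type_of_prime_order (by norm_num) ho
  have hn2 : n = 0 := by omega
  subst hn2
  have hty : y.cycleType = {13} := hn
  have h13 : Nat.card (centralizer ({y} : Set S14)) = 13 := by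
    rw [nat_card_centralizer, hty]
    decide
  have hle : zpowers y ≤ centralizer {y} := by
    rw [zpowers_le]
    exact mem_centralizer_singleton_iff.2 rfl
  have heq : zpowers y = centralizer {y} := Subgroup.eq_of_le_of_card_ge hle (by
    rw [h13, Nat.card_zpowers, ho])
  rw [heq]
  exact mem_centralizer_singleton_iff.2 hwy

theorem addm_trans : ∀ p x : Fin 14, ∀ j : Fin 13, p ≠ 13 → x ≠ 13 → j ≠ 0 →
    ∃ n : Fin 13, x = addm p (n.val * j.val) := by
  decide +kernel

/-- a normal 13-complement is regular -/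
theorem Hyp.regular_compl {G : Subgroup S14} (hc : c13 ∈ G) {K : Subgroup S14}
    (hn : ∀ g ∈ G, ∀ k ∈ K, g * k * g⁻¹ ∈ K) (h13 : ¬ 13 ∣ Nat.card K)
    (ht : ∀ a b : Fin 14, ∃ k ∈ K, k a = b) : Nat.card K = 14 := by
  have : MulAction.IsPretransitive K (Fin 14) := ⟨fun a b => by
    obtain ⟨g, hg, h⟩ := ht a b
    exact ⟨⟨g, hg⟩, h⟩⟩
  have h1 := MulAction.index_stabilizer_of_transitive K (13 : Fin 14)
  rw [Nat.card_eq_fintype_card, Fintype.card_fin] at h1
  have h2 : MulAction.stabilizer K (13 : Fin 14) = ⊥ := by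
    by_contra hne
    obtain ⟨⟨k, hkK⟩, hk1, hk2⟩ := (Subgroup.bot_or_exists_ne_one
      (MulAction.stabilizer K (13 : Fin 14))).resolve_left hne
    have hk13 : k 13 = 13 := hk1
    have hk2' : k ≠ 1 := fun h => hk2 (Subtype.ext h)
    obtain ⟨p, hp⟩ : ∃ p, k p ≠ p := by
      by_contra hcon
      push Not at hcon
      exact hk2' (Equiv.ext hcon)
    have hp13 : p ≠ 13 := by rintro rfl; exact hp hk13
    have hkp13 : k p ≠ 13 := fun h => hp13 (k.injective (h.trans hk13.symm))
    -- `k p = c13 ^ j p`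
    obtain ⟨j, hj0, hj⟩ : ∃ j : Fin 13, j ≠ 0 ∧ k p = addm p j.val := by
      revert hp hp13 hkp13
      generalize k p = q
      revert p q
      decide +kernel
    -- the group of elements of `K` fixing 13
    set L : Subgroup S14 := K ⊓ MulAction.stabilizer S14 (13 : Fin 14) with hL
    have hmemL : ∀ l : S14, l ∈ L ↔ l ∈ K ∧ l 13 = 13 := fun l => Iff.rfl
    have horb : ∀ n : ℕ, ∃ l ∈ L, l p = addm p (n * j.val) := by
      intro n
      induction n with
      | zero =>
        refine ⟨1, L.one_mem, ?_⟩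
        have := c13_pow 0 p
        simpa using this
      | succ n ih =>
        obtain ⟨l, hl, hlp⟩ := ih
        have hl' := (hmemL l).1 hl
        refine ⟨c13 ^ (n * j.val) * k * (c13 ^ (n * j.val))⁻¹ * l, ?_, ?_⟩
        · rw [hmemL]
          refine ⟨K.mul_mem (hn _ (G.pow_mem hc _) k hkK) hl'.1, ?_⟩
          have e1 : (c13 ^ (n * j.val)) 13 = 13 := by rw [c13_pow]; rfl
          have e2 : (c13 ^ (n * j.val))⁻¹ 13 = 13 := by rw [Perm.inv_eq_iff_eq]; exact e1.symm
          simp only [Perm.mul_apply]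
          rw [hl'.2, e2, hk13, e1]
        · simp only [Perm.mul_apply]
          rw [hlp, ← c13_pow]
          have e3 : (c13 ^ (n * j.val))⁻¹ ((c13 ^ (n * j.val)) p) = p := by simp
          rw [e3, hj, ← c13_pow, ← Perm.mul_apply, ← pow_add, c13_pow]
          congr 1
          ring
    -- so the orbit of `p` under `L` has 13 elements
    have horb2 : MulAction.orbit L p = {x : Fin 14 | x ≠ 13} := by
      ext x
      constructor
      · rintro ⟨⟨l, hl⟩, rfl⟩
        have hl' := (hmemL l).1 hl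
        intro h
        exact hp13 (l.injective (h.trans hl'.2.symm))
      · intro hx
        obtain ⟨n, hnx⟩ := addm_trans p x j hp13 hx hj0
        obtain ⟨l, hl, hlp⟩ := horb n.val
        exact ⟨⟨l, hl⟩, by rw [hnx, ← hlp]; rfl⟩
    have h3 := MulAction.index_stabilizer L p
    rw [horb2] at h3
    have h4 : ({x : Fin 14 | x ≠ 13} : Set (Fin 14)).ncard = 13 := by
      rw [Set.ncard_eq_toFinset_card']
      decide
    rw [h4] at h3
    have h5 := Subgroup.index_dvd_card (MulAction.stabilizer L p)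
    rw [h3] at h5
    exact h13 (h5.trans (Subgroup.card_dvd_of_le inf_le_left))
  rw [h2, Subgroup.index_bot] at h1
  exact h1

theorem card_182 {G : Subgroup S14} (h2 : TwoTrans G) : 13 ∣ Nat.card G := by
  -- the stabilizer of 13 acts transitively on the other points
  set L : Subgroup S14 := G ⊓ MulAction.stabilizer S14 (13 : Fin 14) with hL
  have hmemL : ∀ l : S14, l ∈ L ↔ l ∈ G ∧ l 13 = 13 := fun l => Iff.rfl
  have horb2 : MulAction.orbit L (0 : Fin 14) = {x : Fin 14 | x ≠ 13} := by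
    ext x
    constructor
    · rintro ⟨⟨l, hl⟩, rfl⟩
      have hl' := (hmemL l).1 hl
      intro h
      exact absurd (l.injective (h.trans hl'.2.symm)) (by decide)
    · intro hx
      obtain ⟨g, hg, h3, h4⟩ := h2 0 13 x 13 (by decide) hx
      exact ⟨⟨g, hg, h4⟩, h3⟩
  have h3 := MulAction.index_stabilizer L (0 : Fin 14)
  rw [horb2] at h3
  have h4 : ({x : Fin 14 | x ≠ 13} : Set (Fin 14)).ncard = 13 := by
    rw [Set.ncard_eq_toFinset_card']
    decide
  rw [h4] at h3
  have h5 := Subgroup.index_dvd_card (MulAction.stabilizer L (0 : Fin 14))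
  rw [h3] at h5
  exact h5.trans (Subgroup.card_dvd_of_le inf_le_left)

theorem mem236 {e : ℕ} (h : e ∣ 6) (h1 : e ≠ 1) : e ∈ ({2, 3, 6} : Finset ℕ) := by
  have he : e ≤ 6 := Nat.le_of_dvd (by norm_num) h
  interval_cases e
  · exact absurd h (by norm_num)
  · exact absurd rfl h1
  · decide
  · decide
  · exact absurd h (by norm_num)
  · exact absurd h (by norm_num)
  · decide

theorem Hyp.card_pre {G : Subgroup S14} (h : Hyp G) (hc : c13 ∈ G) :
    (Nat.card G = 1092 ∨ Nat.card G = 14742) ∧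
    (∀ k : ℕ, (∀ g ∈ G, g * c13 * g⁻¹ ∈ zpowers c13 → g ^ k * c13 = c13 * g ^ k) →
      Nat.card G = 1092 → 6 ∣ k) := by
  have h169 : ¬ 13 ^ 2 ∣ Nat.card G := fun h1 => absurd (h1.trans h.card_dvd) (by norm_num)
  obtain ⟨f, n', f1, f2, f3, f4, f5⟩ := sylow_data' (by norm_num) h169 hc c13_order
    (fun w _ hw => cent_thirteen c13_order w hw)
  obtain ⟨e, n, e1, e2, e3, e4⟩ := h.data7
  have hf6 : f ∣ 6 := f5 6 (fun g hg hgc => pow_six_comm (h.even g hg) hgc)
  have hf1 : f ≠ 1 := by
    intro hf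
    obtain ⟨K, hKG, hn, hcard, h13⟩ := f4 hf
    rcases h.normal_compl hn with h5 | ⟨ht, h5⟩
    · rw [h5, one_mul] at hcard
      have h6 := fourteen_dvd_card h.trans
      rw [← hcard] at h6
      exact absurd h6 (by norm_num)
    · have h14 := Hyp.regular_compl hc hn h13 ht
      rw [h14] at hcard
      rw [← hcard] at e1
      have he : e ≤ 6 := Nat.le_of_dvd (by norm_num) e3
      interval_cases e <;> omega
  have h2' : n' % 13 = 1 := f2
  -- the order is 182 * 2^i * 3^j
  have h182 : 182 ∣ Nat.card G := by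
    have h13 := card_182 h.twoTrans
    have h14 := fourteen_dvd_card h.trans
    have := Nat.Coprime.mul_dvd_of_dvd_of_dvd (by norm_num : Nat.Coprime 14 13) h14 h13
    simpa using this
  obtain ⟨m, hm⟩ := h182
  have hmd : m ∣ 2 ^ 8 * 3 ^ 4 := by
    have h1 := h.card_dvd
    rw [hm] at h1
    have : 182 * m ∣ 182 * (2 ^ 8 * 3 ^ 4) := by norm_num; exact h1
    exact Nat.dvd_of_mul_dvd_mul_left (by norm_num) this
  obtain ⟨a, b, ha, hb, hab⟩ := (Nat.dvd_mul).1 hmd
  obtain ⟨i, hi, rfl⟩ := (Nat.dvd_prime_pow Nat.prime_two).1 ha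
  obtain ⟨j, hj, rfl⟩ := (Nat.dvd_prime_pow Nat.prime_three).1 hb
  have key : ∀ i ∈ Finset.range 9, ∀ j ∈ Finset.range 5, ∀ e ∈ ({2, 3, 6} : Finset ℕ),
      ∀ f ∈ ({2, 3, 6} : Finset ℕ),
      7 * e ∣ 182 * (2 ^ i * 3 ^ j) → 13 * f ∣ 182 * (2 ^ i * 3 ^ j) →
      (182 * (2 ^ i * 3 ^ j) / (7 * e)) % 7 = 1 → (182 * (2 ^ i * 3 ^ j) / (13 * f)) % 13 = 1 →
      (182 * (2 ^ i * 3 ^ j) = 1092 ∧ f = 6) ∨ 182 * (2 ^ i * 3 ^ j) = 14742 := by
    decide +kernel
  have hE : e ∈ ({2, 3, 6} : Finset ℕ) := mem236 e3 e4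
  have hF : f ∈ ({2, 3, 6} : Finset ℕ) := mem236 hf6 hf1
  have hepos : 0 < 7 * e := by
    rcases Nat.eq_zero_or_pos e with h0 | h0
    · rw [h0] at e3; exact absurd e3 (by norm_num)
    · omega
  have hfpos : 0 < 13 * f := by
    rcases Nat.eq_zero_or_pos f with h0 | h0
    · rw [h0] at hf6; exact absurd hf6 (by norm_num)
    · omega
  have hN : Nat.card G = 182 * (2 ^ i * 3 ^ j) := by rw [hm, hab]
  rw [hN] at e1 f1
  have hk := key i (Finset.mem_range.2 (by omega)) j (Finset.mem_range.2 (by omega)) e hE f hF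
    ⟨n, e1⟩ ⟨n', f1⟩ (by rw [e1, Nat.mul_div_cancel_left _ hepos]; exact e2)
    (by rw [f1, Nat.mul_div_cancel_left _ hfpos]; exact h2')
  rw [← hN] at hk
  constructor
  · rcases hk with ⟨h1, -⟩ | h1
    · exact Or.inl h1
    · exact Or.inr h1
  · intro k hk1 hN1
    rcases hk with ⟨-, h1⟩ | h1
    · rw [← h1]; exact f5 k hk1
    · rw [hN1] at h1; norm_num at h1

theorem Hyp.card_ne {G : Subgroup S14} (h : Hyp G) : Nat.card G ≠ 14742 := by
  intro hN
  have : Fact (Nat.Prime 2) := ⟨Nat.prime_two⟩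
  have hmin : (Nat.card G).minFac = 2 := by rw [hN]; norm_num
  obtain ⟨P⟩ : Nonempty (Sylow 2 G) := inferInstance
  have hcardP : Nat.card (P : Subgroup G) = 2 := by
    have h1 := P.card_eq_multiplicity
    rw [hN] at h1
    have h2 : Nat.factorization 14742 2 = 1 := by
      have h3 : 1 ≤ Nat.factorization 14742 2 :=
        (Nat.prime_two.dvd_iff_one_le_factorization (by norm_num)).1 (by norm_num)
      have h4 : ¬ 2 ≤ Nat.factorization 14742 2 := fun h5 =>
        absurd ((Nat.prime_two.pow_dvd_iff_le_factorization (by norm_num)).2 h5) (by norm_num)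
      omega
    rw [h2, pow_one] at h1
    exact h1
  have hcyc : IsCyclic (P : Subgroup G) := isCyclic_of_prime_card hcardP
  have hN2 : normalizer ((P : Subgroup G) : Set G) ≤ centralizer ((P : Subgroup G) : Set G) :=
    IsCyclic.normalizer_le_centralizer hmin hcyc
  obtain ⟨K, hKG, hn, hcard, h13⟩ := burnside_compl P hN2
  rw [hcardP] at hcard
  rcases h.normal_compl hn with h5 | ⟨-, h5⟩
  · rw [h5, hN] at hcard
    norm_num at hcard
  · exact h13 (dvd_trans (by norm_num) h5)

theorem Hyp.card_eq {G : Subgroup S14} (h : Hyp G) (hc : c13 ∈ G) : Nat.card G = 1092 :=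
  (h.card_pre hc).1.resolve_right h.card_ne

end Pool.Agent.Lib.MP_6f5538_al
end
end
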