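import Pool.Agent.Lib.MP_6f5538_al.NDefs
import Pool.Agent.Lib.MP_6f5538_al.Order

section

/-!
Kernel evaluation of two finite checks.
-/

namespace Pool.Agent.Lib.MP_6f5538_al

theorem chkT_all : allB 8190 (fun k => chkT (k + 1)) = true := by decide +kernel

theorem chkW_all : allB 12 (fun c => allB 12 (fun d =>
    chkW 1 (c + 1) (d + 1) && chkW 5 (c + 1) (d + 1))) = true := by
  decide +kernel

end Pool.Agent.Lib.MP_6f5538_al
end

section

/-!
Permutations of 14 points coded by natural numbers (hexadecimal digits).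
-/

namespace Pool.Agent.Lib.MP_6f5538_al

open Equiv Equiv.Perm Subgroup

theorem lk_eq (c i : ℕ) : lk c i = c / 16 ^ i % 16 := by
  unfold lk
  change (c >>> (4 * i)) &&& 15 = _
  have : (15 : ℕ) = 2 ^ 4 - 1 := by norm_num
  rw [this, Nat.and_two_pow_sub_one_eq_mod, Nat.shiftRight_eq_div_pow, pow_mul]
  norm_num

theorem lk_lt (c i : ℕ) : lk c i < 16 := by
  rw [lk_eq]; exact Nat.mod_lt _ (by norm_num)

theorem lk_zero_add (a m : ℕ) (ha : a < 16) : lk (Nat.add a (Nat.mul 16 m)) 0 = a := by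
  rw [lk_eq]
  change (a + 16 * m) / 16 ^ 0 % 16 = a
  omega

theorem lk_succ_add (a m i : ℕ) (ha : a < 16) :
    lk (Nat.add a (Nat.mul 16 m)) (i + 1) = lk m i := by
  rw [lk_eq, lk_eq]
  change (a + 16 * m) / 16 ^ (i + 1) % 16 = _
  rw [pow_succ', ← Nat.div_div_eq_div_mul]
  congr 2
  omega

theorem lk_zero_of_lt (a : ℕ) (ha : a < 16) : lk a 0 = a := by
  rw [lk_eq]
  omega

theorem lk_pack (f : ℕ → ℕ) (hf : ∀ i, f i < 16) (i : ℕ) (hi : i < 14) : lk (pack f) i = f i := by
  unfold pack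
  interval_cases i <;>
  · repeat rw [lk_succ_add _ _ _ (hf _)]
    first
      | exact lk_zero_add _ _ (hf _)
      | exact lk_zero_of_lt _ (hf _)

/-- `v` is the table of the permutation `g` -/
def Code (v : ℕ) (g : S14) : Prop := ∀ x : Fin 14, lk v x.val = (g x).val

theorem Code.mul {a b : ℕ} {g h : S14} (ha : Code a g) (hb : Code b h) :
    Code (comp a b) (g * h) := by
  intro x
  unfold comp
  rw [lk_pack _ (fun i => lk_lt _ _) _ x.2, hb x, ha (h x)]
  rfl

/-- code of a permutation -/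
def codeOf (g : S14) : ℕ := pack (fun i => if h : i < 14 then (g ⟨i, h⟩).val else 0)

theorem code_codeOf (g : S14) : Code (codeOf g) g := by
  intro x
  unfold codeOf
  rw [lk_pack _ (fun i => by split_ifs <;> omega) _ x.2]
  simp

theorem Code.unique {v : ℕ} {g h : S14} (hg : Code v g) (hh : Code v h) : g = h := by
  ext x
  rw [← hg x, hh x]

theorem code_one : Code idc 1 := by
  intro x; revert x; decide

theorem firstRet_spec {v : ℕ} {g : S14} (hv : Code v g) (p : Fin 14) (fuel : ℕ) (q : Fin 14)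
    (n : ℕ) (hq : q = (g ^ n) p) (hlt : ∀ i, 0 < i → i < n → (g ^ i) p ≠ p) :
    firstRet v p fuel q n = 0 ∨ ((g ^ (firstRet v p fuel q n)) p = p ∧
      ∀ i, 0 < i → i < firstRet v p fuel q n → (g ^ i) p ≠ p) := by
  induction fuel generalizing q n with
  | zero => left; rfl
  | succ fuel ih =>
    unfold firstRet
    cases hb : Nat.beq q p with
    | true =>
      right
      have h1 : q = p := Fin.ext (Nat.eq_of_beq_eq_true hb)
      exact ⟨by rw [← hq, h1], hlt⟩
    | false =>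
      simp only
      rw [force_eq, hv q]
      apply ih
      · rw [hq, pow_succ', Perm.mul_apply]
      · intro i h0 hi
        rcases Nat.lt_succ_iff_lt_or_eq.1 hi with h1 | h1
        · exact hlt i h0 h1
        · subst h1
          intro h2
          rw [← hq] at h2
          rw [h2] at hb
          simp at hb

theorem badRet_sound {E v : ℕ} {g : S14} (hv : Code v g) (p : Fin 14)
    (hE : g ^ E = 1) : badRet E v p = false := by
  cases hb : badRet E v p with
  | false => rfl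
  | true =>
    exfalso
    unfold badRet at hb
    rw [force_eq] at hb
    rw [hv p] at hb
    have h1 := firstRet_spec hv p 15 (g p) 1 (by rw [pow_one]) (fun i h0 h1 => by omega)
    set n := firstRet v p 15 (g p) 1 with hn
    rw [Bool.and_eq_true] at hb
    obtain ⟨hb1, hb2⟩ := hb
    have hn0 : n ≠ 0 := by
      intro h; rw [h] at hb2; simp at hb2
    have hmod : E % n ≠ 0 := by
      intro h
      have h' : Nat.mod E n = 0 := h
      rw [h'] at hb1; simp at hb1
    rcases h1 with h1 | ⟨h1, h2⟩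
    · exact hn0 h1
    · have h3 : (g ^ (E % n)) p = p := by
        have h4 : g ^ E = (g ^ (E % n)) * (g ^ n) ^ (E / n) := by
          rw [← pow_mul, ← pow_add, Nat.mod_add_div]
        have h5 : ∀ m : ℕ, ((g ^ n) ^ m) p = p := by
          intro m
          induction m with
          | zero => rfl
          | succ m ih => rw [pow_succ, Perm.mul_apply, h1, ih]
        have h6 := congrArg (fun e : S14 => e p) h4
        simp only [Perm.mul_apply] at h6
        rw [h5, hE] at h6
        exact h6.symm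
      exact h2 _ (Nat.pos_of_ne_zero hmod) (Nat.mod_lt _ (Nat.pos_of_ne_zero hn0)) h3

end Pool.Agent.Lib.MP_6f5538_al
end

section

/-!
Uniqueness: a primitive group satisfying our hypotheses and containing the standard 13-cycle is
the explicit group generated by `c13`, `u0` and `w0`.
-/

namespace Pool.Agent.Lib.MP_6f5538_al

open Equiv Equiv.Perm Subgroup

/-- multiplication by a number modulo 13, fixing the point 13 -/
def mulm (x : Fin 14) (n : ℕ) : Fin 14 :=
  if x.val = 13 then 13 else ⟨(x.val * n) % 13, by omega⟩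

theorem u0_pow (n : ℕ) (x : Fin 14) : (u0 ^ n) x = mulm x (4 ^ n) := by
  have h1 : ∀ x : Fin 14, u0 x = mulm x 4 := by decide +kernel
  induction n with
  | zero =>
    unfold mulm
    split_ifs with h
    · exact Fin.ext (by simpa using h)
    · apply Fin.ext
      simp only [pow_zero, Perm.one_apply, mul_one]
      omega
  | succ n ih =>
    rw [pow_succ', Perm.mul_apply, ih, h1]
    unfold mulm
    by_cases h : x.val = 13
    · simp [h]
    · simp only [h, if_false]
      have h2 : (x.val * 4 ^ n) % 13 ≠ 13 := by omega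
      simp only [h2, if_false]
      apply Fin.ext
      simp only
      rw [pow_succ, ← mul_assoc, Nat.mul_mod (x.val * 4 ^ n) 4 13, Nat.mul_mod]

theorem u0_six : u0 ^ 6 = 1 := by rw [u0, ← pow_mul]; exact m2_order

theorem u0_conj : u0 * c13 * u0⁻¹ = c13 ^ 4 := conj_pow_iter m2_conj 2

theorem u0_pow_mod (k : ℕ) : u0 ^ k = u0 ^ (k % 6) := by
  conv_lhs => rw [← Nat.mod_add_div k 6, pow_add, pow_mul, u0_six, one_pow, mul_one]

theorem pow_comm_of_four {g : S14} {b k n : ℕ} (hg : g = c13 ^ b * u0 ^ k)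
    (h : 4 ^ (k * n) % 13 = 1) : g ^ n * c13 = c13 * g ^ n := by
  subst hg
  have h2 := conj_pow_iter u0_conj k
  have h3 : (c13 ^ b * u0 ^ k) * c13 * (c13 ^ b * u0 ^ k)⁻¹ = c13 ^ (4 ^ k) := by
    have : (c13 ^ b * u0 ^ k) * c13 * (c13 ^ b * u0 ^ k)⁻¹ =
      c13 ^ b * (u0 ^ k * c13 * (u0 ^ k)⁻¹) * (c13 ^ b)⁻¹ := by group
    rw [this, h2, ← pow_add, mul_inv_eq_iff_eq_mul, ← pow_add, Nat.add_comm]
  have h4 := conj_pow_iter h3 n
  have h6 : c13 ^ ((4 ^ k) ^ n) = c13 := by
    rw [← pow_mod_orderOf, c13_order, ← pow_mul, h, pow_one]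
  rw [h6] at h4
  exact mul_inv_eq_iff_eq_mul.1 h4

theorem Hyp.u0_mem {G : Subgroup S14} (h : Hyp G) (hc : c13 ∈ G) : u0 ∈ G := by
  have hN := h.card_eq hc
  have hdiv := (h.card_pre hc).2
  by_contra hu
  -- either `u0 ^ 2` or `u0 ^ 3` is missing
  have h23 : u0 ^ 2 ∉ G ∨ u0 ^ 3 ∉ G := by
    by_contra hcon
    push Not at hcon
    apply hu
    have : u0 = u0 ^ 3 * (u0 ^ 2)⁻¹ := by group
    rw [this]
    exact G.mul_mem hcon.2 (G.inv_mem hcon.1)
  have hform : ∀ g ∈ G, g * c13 * g⁻¹ ∈ zpowers c13 → ∃ b k : ℕ, g = c13 ^ b * u0 ^ k ∧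
      k < 6 ∧ u0 ^ k ∈ G := by
    intro g hg hgc
    obtain ⟨b, k, hbk⟩ := normalizer13 (h.even g hg) hgc
    refine ⟨b, k % 6, by rw [hbk, u0_pow_mod k], Nat.mod_lt _ (by norm_num), ?_⟩
    rw [← u0_pow_mod]
    have : u0 ^ k = (c13 ^ b)⁻¹ * g := by rw [hbk]; group
    rw [this]
    exact G.mul_mem (G.inv_mem (G.pow_mem hc b)) hg
  rcases h23 with h2 | h3
  · have := hdiv 2 (fun g hg hgc => by
      obtain ⟨b, k, hbk, hk6, hkG⟩ := hform g hg hgc
      apply pow_comm_of_four hbk
      have hk : k = 0 ∨ k = 3 := by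
        by_contra hcon
        have h5 : (u0 ^ k) ^ 2 ∈ G := G.pow_mem hkG 2
        have h6 : (u0 ^ k) ^ 4 ∈ G := G.pow_mem hkG 4
        interval_cases k
        · omega
        · exact hu (by simpa using hkG)
        · exact h2 hkG
        · omega
        · apply h2
          rw [← pow_mul, u0_pow_mod] at h5
          exact h5
        · apply h2
          rw [← pow_mul, u0_pow_mod] at h6
          exact h6
      rcases hk with rfl | rfl <;> norm_num) hN
    norm_num at this
  · have := hdiv 3 (fun g hg hgc => by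
      obtain ⟨b, k, hbk, hk6, hkG⟩ := hform g hg hgc
      apply pow_comm_of_four hbk
      have hk : k = 0 ∨ k = 2 ∨ k = 4 := by
        by_contra hcon
        have h5 : (u0 ^ k) ^ 3 ∈ G := G.pow_mem hkG 3
        interval_cases k
        · omega
        · exact hu (by simpa using hkG)
        · omega
        · exact h3 hkG
        · omega
        · apply h3
          rw [← pow_mul, u0_pow_mod] at h5
          exact h5
      rcases hk with rfl | rfl | rfl <;> norm_num) hN
    norm_num at this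

theorem u0_order : orderOf u0 = 6 := by
  have h1 : orderOf u0 ∣ 6 := orderOf_dvd_of_pow_eq_one u0_six
  have h2 : u0 ^ 2 ≠ 1 := by
    intro h; have := congrArg (fun e : S14 => e 1) h
    simp only [u0_pow] at this
    exact absurd this (by decide)
  have h3 : u0 ^ 3 ≠ 1 := by
    intro h; have := congrArg (fun e : S14 => e 1) h
    simp only [u0_pow] at this
    exact absurd this (by decide)
  have h4 : ¬ orderOf u0 ∣ 2 := fun h => h2 (orderOf_dvd_iff_pow_eq_one.1 h)
  have h5 : ¬ orderOf u0 ∣ 3 := fun h => h3 (orderOf_dvd_iff_pow_eq_one.1 h)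
  have h6 : orderOf u0 ≤ 6 := Nat.le_of_dvd (by norm_num) h1
  generalize orderOf u0 = n at *
  interval_cases n <;> revert h1 h4 h5 <;> decide

/-- the two-point stabilizer is generated by `u0` -/
theorem Hyp.stab_eq {G : Subgroup S14} (h : Hyp G) (hc : c13 ∈ G) {g : S14} (hg : g ∈ G)
    (g13 : g 13 = 13) (g0 : g 0 = 0) : ∃ k : ℕ, g = u0 ^ k := by
  have hN := h.card_eq hc
  have hu := h.u0_mem hc
  have h2 := h.twoTrans
  -- first stabilizer
  have hpre : MulAction.IsPretransitive G (Fin 14) := h.isPretransitive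
  have h1 := MulAction.index_stabilizer_of_transitive G (13 : Fin 14)
  rw [Nat.card_eq_fintype_card, Fintype.card_fin] at h1
  have hA : Nat.card (MulAction.stabilizer G (13 : Fin 14)) = 78 := by
    have := Subgroup.card_mul_index (MulAction.stabilizer G (13 : Fin 14))
    rw [h1, hN] at this
    omega
  set A : Subgroup G := MulAction.stabilizer G (13 : Fin 14) with hAdef
  have horb2 : MulAction.orbit A (0 : Fin 14) = {x : Fin 14 | x ≠ 13} := by
    ext x
    constructor
    · rintro ⟨⟨⟨l, hlG⟩, hl⟩, rfl⟩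
      have hl13 : l 13 = 13 := hl
      intro h
      have h' : l 0 = 13 := h
      exact absurd (l.injective (h'.trans hl13.symm)) (by decide)
    · intro hx
      obtain ⟨g, hg, h3, h4⟩ := h2 0 13 x 13 (by decide) hx
      exact ⟨⟨⟨g, hg⟩, h4⟩, h3⟩
  have h3 := MulAction.index_stabilizer A (0 : Fin 14)
  rw [horb2] at h3
  have h4 : ({x : Fin 14 | x ≠ 13} : Set (Fin 14)).ncard = 13 := by
    rw [Set.ncard_eq_toFinset_card']
    decide
  rw [h4] at h3
  have hB : Nat.card (MulAction.stabilizer A (0 : Fin 14)) = 6 := by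
    have := Subgroup.card_mul_index (MulAction.stabilizer A (0 : Fin 14))
    rw [h3, hA] at this
    omega
  have u13 : u0 13 = 13 := by decide +kernel
  have u00 : u0 0 = 0 := by decide +kernel
  have u13' : (⟨u0, hu⟩ : G) ∈ A := u13
  have huB : (⟨⟨u0, hu⟩, u13'⟩ : A) ∈ MulAction.stabilizer A (0 : Fin 14) := u00
  have hle : zpowers (⟨⟨u0, hu⟩, u13'⟩ : A) ≤ MulAction.stabilizer A (0 : Fin 14) := by
    rw [zpowers_le]; exact huB
  have e1 : orderOf (⟨⟨u0, hu⟩, u13'⟩ : A) = 6 := by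
    rw [← Subgroup.orderOf_coe, ← Subgroup.orderOf_coe]
    exact u0_order
  have heq := Subgroup.eq_of_le_of_card_ge hle (by
    rw [hB, Nat.card_zpowers, e1])
  have hgB : (⟨⟨g, hg⟩, g13⟩ : A) ∈ MulAction.stabilizer A (0 : Fin 14) := g0
  rw [← heq] at hgB
  obtain ⟨j, hj⟩ := mem_zpowers_iff.1 hgB
  have hj' : u0 ^ j = g := congrArg (fun e : A => e.val.val) hj
  refine ⟨(j % 6).toNat, ?_⟩
  have h6 : 0 ≤ j % (6 : ℤ) := Int.emod_nonneg _ (by omega)
  rw [← hj', ← zpow_natCast, Int.toNat_of_nonneg h6]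
  have := zpow_mod_orderOf u0 j
  rw [u0_order] at this
  exact this.symm

end Pool.Agent.Lib.MP_6f5538_al
end

section

/-!
The elements exchanging the two points fixed by `u0`.
-/

namespace Pool.Agent.Lib.MP_6f5538_al

open Equiv Equiv.Perm Subgroup

/-- inversion modulo 13, exchanging 0 and 13 -/
def w0 : S14 where
  toFun := ![13, 1, 7, 9, 10, 8, 11, 2, 5, 3, 4, 6, 12, 0]
  invFun := ![13, 1, 7, 9, 10, 8, 11, 2, 5, 3, 4, 6, 12, 0]
  left_inv := by decide
  right_inv := by decide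

theorem w0_sign : sign w0 = 1 := by decide +kernel

/-- exponent -/
def lg (x : Fin 14) : ℕ := ![0, 0, 0, 2, 1, 4, 2, 5, 1, 4, 5, 3, 3, 0] x
/-- base -/
def bs (x : Fin 14) : Fin 14 := ![1, 1, 2, 1, 1, 2, 2, 2, 2, 1, 1, 2, 1, 1] x

theorem lg_bs (x : Fin 14) (h0 : x ≠ 0) (h13 : x ≠ 13) : x = (u0 ^ (lg x)) (bs x) := by
  rw [u0_pow]; revert x; decide

theorem bs_cases : ∀ x : Fin 14, bs x = 1 ∨ bs x = 2 := by decide
theorem B1_one : ∀ x : Fin 14, x ≠ 0 → x ≠ 13 → bs x = 1 → lk 0x01011000011010 x = 1 := by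
  decide
theorem B2_zero : ∀ x : Fin 14, x ≠ 0 → x ≠ 13 → bs x = 1 → lk 0x00100111100100 x = 0 := by
  decide
theorem B1_zero : ∀ x : Fin 14, x ≠ 0 → x ≠ 13 → bs x = 2 → lk 0x01011000011010 x = 0 := by
  decide
theorem B2_one : ∀ x : Fin 14, x ≠ 0 → x ≠ 13 → bs x = 2 → lk 0x00100111100100 x = 1 := by
  decide
theorem D_zero : ∀ x : Fin 14, x ≠ 0 → lk 0xd x = 0 := by decide
theorem pw_eq : ∀ x : Fin 14, ∀ j : ℕ, (j = 1 ∨ j = 5) → 4 ^ (j * lg x) % 13 =
    lk 0xa9c341 (Nat.mod (Nat.mul j (lk 0x03354152412000 x)) 6) := by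
  intro x j hj
  rcases hj with rfl | rfl <;> revert x <;> decide

/-- entries of `wt` -/
def wv (j c d x : ℕ) : ℕ :=
  Nat.add (Nat.mod (Nat.mul (lk 0xa9c341 (Nat.mod (Nat.mul j (lk 0x03354152412000 x)) 6))
    (Nat.add (Nat.mul c (lk 0x01011000011010 x)) (Nat.mul d (lk 0x00100111100100 x)))) 13)
    (lk 0xd x)

theorem wv_lt (j c d x : ℕ) : wv j c d x < 16 := by
  unfold wv
  cases x with
  | zero =>
    have h1 : lk 0x01011000011010 0 = 0 := by decide
    have h2 : lk 0x00100111100100 0 = 0 := by decide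
    have h3 : lk 0xd 0 = 13 := by decide
    rw [h1, h2, h3]
    have : Nat.add (Nat.mul c 0) (Nat.mul d 0) = 0 := by
      change c * 0 + d * 0 = 0
      simp
    rw [this]
    change (_ * 0) % 13 + 13 < 16
    simp
  | succ x =>
    have h3 : lk 0xd (x + 1) = 0 := by
      rw [lk_eq, pow_succ', ← Nat.div_div_eq_div_mul]
      norm_num
    rw [h3]
    exact lt_of_lt_of_le (Nat.mod_lt _ (by norm_num : 0 < 13)) (by norm_num)

theorem code_wt {j : ℕ} (hj : j = 1 ∨ j = 5) {w : S14} (w13 : w 13 = 0) (w0' : w 0 = 13)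
    (hw : w * u0 = u0 ^ j * w) : Code (wt j (w 1) (w 2)) w := by
  have hpow : ∀ i : ℕ, w * u0 ^ i = u0 ^ (j * i) * w := by
    intro i
    have h1 : w * u0 * w⁻¹ = u0 ^ j := by rw [hw]; group
    have h2 : w * u0 ^ i * w⁻¹ = u0 ^ (j * i) := by
      rw [← conj_pow, h1, pow_mul]
    rw [← h2]; group
  have h1 : ∀ x : Fin 14, x ≠ 13 → w x ≠ 0 := fun x hx h => hx (w.injective (h.trans w13.symm))
  have h2 : ∀ x : Fin 14, x ≠ 0 → w x ≠ 13 := fun x hx h => hx (w.injective (h.trans w0'.symm))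
  intro x
  have e0 : lk (wt j (w 1) (w 2)) x = wv j (w 1) (w 2) x :=
    lk_pack _ (fun i => wv_lt j (w 1) (w 2) i) _ x.2
  rw [e0]
  by_cases hx0 : x = 0
  · subst hx0
    rw [w0']
    unfold wv
    have h1 : lk 0x01011000011010 (0 : Fin 14).val = 0 := by decide
    have h2 : lk 0x00100111100100 (0 : Fin 14).val = 0 := by decide
    have h3 : lk 0xd (0 : Fin 14).val = 13 := by decide
    rw [h1, h2, h3]
    change (_ * ((w 1).val * 0 + (w 2).val * 0)) % 13 + 13 = 13
    simp
  by_cases hx13 : x = 13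
  · subst hx13
    rw [w13]
    unfold wv
    have h1 : lk 0x01011000011010 (13 : Fin 14).val = 0 := by decide
    have h2 : lk 0x00100111100100 (13 : Fin 14).val = 0 := by decide
    have h3 : lk 0xd (13 : Fin 14).val = 0 := by decide
    rw [h1, h2, h3]
    change (_ * ((w 1).val * 0 + (w 2).val * 0)) % 13 + 0 = 0
    simp
  have hxe := lg_bs x hx0 hx13
  have hwx : w x = mulm (w (bs x)) (4 ^ (j * lg x)) := by
    conv_lhs => rw [hxe]
    rw [← Perm.mul_apply, hpow, Perm.mul_apply, u0_pow]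
  have hbs := bs_cases x
  have hwb : (w (bs x)).val ≠ 13 := by
    intro h
    apply h2 (bs x) (by rcases hbs with h | h <;> rw [h] <;> decide)
    exact Fin.ext h
  rw [hwx]
  unfold mulm
  rw [if_neg hwb]
  simp only
  have hsel : Nat.add (Nat.mul (w 1).val (lk 0x01011000011010 x))
      (Nat.mul (w 2).val (lk 0x00100111100100 x)) = (w (bs x)).val := by
    rcases hbs with h | h
    · rw [h]
      have e1 := B1_one x hx0 hx13 h
      have e2 := B2_zero x hx0 hx13 h
      rw [e1, e2]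
      change (w 1).val * 1 + (w 2).val * 0 = _
      simp
    · rw [h]
      have e1 := B1_zero x hx0 hx13 h
      have e2 := B2_one x hx0 hx13 h
      rw [e1, e2]
      change (w 1).val * 0 + (w 2).val * 1 = _
      simp
  have hpw := pw_eq x j hj
  have hD := D_zero x hx0
  unfold wv
  rw [hsel, hD, ← hpw]
  change (4 ^ (j * lg x) % 13 * (w (bs x)).val) % 13 + 0 = _
  rw [Nat.add_zero, Nat.mod_mul_mod, mul_comm]

theorem code_tc (q : ℕ) : Code (tc q) (c13 ^ q) := by
  intro x
  unfold tc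
  rw [lk_pack _ _ _ x.2, c13_pow]
  · unfold addm
    by_cases hx : x.val = 13
    · rw [if_pos hx, hx]; rfl
    · rw [if_neg hx]
      have : Nat.beq x.val 13 = false := by
        cases hb : Nat.beq x.val 13 with
        | false => rfl
        | true => exact absurd (Nat.eq_of_beq_eq_true hb) hx
      rw [this]
      rfl
  · intro i
    split
    · norm_num
    · exact lt_of_lt_of_le (Nat.mod_lt _ (by norm_num : 0 < 13)) (by norm_num)

theorem code_wL : ∀ k : Fin 6, ∀ x : Fin 14, lk (wL k.val) x = ((u0 ^ k.val * w0) x).val := by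
  decide +kernel

theorem code_wO : ∀ k : Fin 6, ∀ x : Fin 14,
    lk (wO k.val) x = ((m2 * (u0 ^ k.val * w0)) x).val := by
  decide +kernel

theorem chkW_sound {G : Subgroup S14} (hN : Nat.card G = 1092) (he : ∀ g ∈ G, sign g = 1)
    (hc : c13 ∈ G) {w : S14} (hw : w ∈ G) {j : ℕ} (hcode : Code (wt j (w 1) (w 2)) w)
    (h : chkW j (w 1) (w 2) = true) : ∃ k : ℕ, w = u0 ^ k * w0 := by
  unfold chkW at h
  rw [force_eq] at h
  set v := wt j (w 1) (w 2) with hv
  have hpow : ∀ g ∈ G, g ^ 1092 = 1 := by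
    intro g hg
    have := pow_card_eq_one' (x := (⟨g, hg⟩ : G))
    rw [hN] at this
    have h2 : (((⟨g, hg⟩ : G) ^ 1092 : G) : S14) = ((1 : G) : S14) := by rw [this]
    rw [Subgroup.coe_pow] at h2
    exact h2
  have hinj : ∀ x : Fin 14, x ≠ 1 → Nat.beq (lk v 1) (lk v x) = false := by
    intro x hx
    cases hb : Nat.beq (lk v 1) (lk v x) with
    | false => rfl
    | true =>
      exfalso
      have h1 := Nat.eq_of_beq_eq_true hb
      rw [hcode x] at h1
      have h2 := hcode 1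
      have h3 : (w 1).val = (w x).val := by rw [← h2]; exact h1
      exact hx (w.injective (Fin.ext h3)).symm
  simp only [Bool.or_eq_true] at h
  rcases h with (((h | h) | h) | h) | h
  · obtain ⟨k, hk6, hk⟩ := anyB_true h
    have h1 := Nat.eq_of_beq_eq_true hk
    refine ⟨k, ?_⟩
    apply Code.unique (v := v) hcode
    intro x
    rw [h1]
    exact code_wL ⟨k, hk6⟩ x
  · exfalso
    obtain ⟨k, hk6, hk⟩ := anyB_true h
    have h1 := Nat.eq_of_beq_eq_true hk
    have h2 : w = m2 * (u0 ^ k * w0) := by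
      apply Code.unique (v := v) hcode
      intro x
      rw [h1]
      exact code_wO ⟨k, hk6⟩ x
    have h3 := he w hw
    rw [h2, Perm.sign_mul, Perm.sign_mul, u0, ← pow_mul, map_pow, m2_sign, w0_sign, pow_mul] at h3
    norm_num at h3
  · exfalso
    rcases h with ((((h | h) | h) | h) | h) | h
    · have h' : Nat.beq (lk v 1) (lk v 2) = false := hinj 2 (by decide)
      rw [h'] at h; exact absurd h (by decide)
    · have h' : Nat.beq (lk v 1) (lk v 8) = false := hinj 8 (by decide)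
      rw [h'] at h; exact absurd h (by decide)
    · have h' : Nat.beq (lk v 1) (lk v 6) = false := hinj 6 (by decide)
      rw [h'] at h; exact absurd h (by decide)
    · have h' : Nat.beq (lk v 1) (lk v 11) = false := hinj 11 (by decide)
      rw [h'] at h; exact absurd h (by decide)
    · have h' : Nat.beq (lk v 1) (lk v 5) = false := hinj 5 (by decide)
      rw [h'] at h; exact absurd h (by decide)
    · have h' : Nat.beq (lk v 1) (lk v 7) = false := hinj 7 (by decide)
      rw [h'] at h; exact absurd h (by decide)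
  · exfalso
    obtain ⟨i, -, hi⟩ := anyB_true h
    rw [force_eq] at hi
    have h1 := badRet_sound ((code_tc i).mul hcode) 0
      (hpow _ (G.mul_mem (G.pow_mem hc i) hw))
    rw [show ((0 : Fin 14) : ℕ) = 0 from rfl] at h1
    rw [h1] at hi
    exact absurd hi (by decide)
  · exfalso
    obtain ⟨i, -, hi⟩ := anyB_true h
    rw [force_eq] at hi
    obtain ⟨l, -, hl⟩ := anyB_true hi
    rw [force_eq] at hl
    have h1 := badRet_sound ((code_tc l).mul (hcode.mul ((code_tc i).mul hcode))) 0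
      (hpow _ (G.mul_mem (G.pow_mem hc l) (G.mul_mem hw (G.mul_mem (G.pow_mem hc i) hw))))
    rw [show ((0 : Fin 14) : ℕ) = 0 from rfl] at h1
    rw [h1] at hl
    exact absurd hl (by decide)

theorem Hyp.w0_mem {G : Subgroup S14} (h : Hyp G) (hc : c13 ∈ G) : w0 ∈ G := by
  have hu := h.u0_mem hc
  obtain ⟨w, hw, w13, w0'⟩ := h.twoTrans 13 0 0 13 (by decide) (by decide)
  have u13 : u0 13 = 13 := by decide +kernel
  have u00 : u0 0 = 0 := by decide +kernel
  have hwinv0 : w⁻¹ 0 = 13 := by rw [Perm.inv_eq_iff_eq]; exact w13.symm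
  have hwinv13 : w⁻¹ 13 = 0 := by rw [Perm.inv_eq_iff_eq]; exact w0'.symm
  obtain ⟨j', hj'⟩ := h.stab_eq hc (g := w * u0 * w⁻¹)
    (G.mul_mem (G.mul_mem hw hu) (G.inv_mem hw))
    (by simp only [Perm.mul_apply]; rw [hwinv13, u00, w0'])
    (by simp only [Perm.mul_apply]; rw [hwinv0, u13, w13])
  rw [u0_pow_mod] at hj'
  set j := j' % 6 with hj
  have hj6 : j < 6 := Nat.mod_lt _ (by norm_num)
  have hjo : orderOf (u0 ^ j) = 6 := by
    rw [← hj', orderOf_conj', u0_order]
  have hj15 : j = 1 ∨ j = 5 := by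
    have h1 : (u0 ^ j) ^ 3 ≠ 1 := fun h2 => by
      have := orderOf_dvd_of_pow_eq_one h2
      rw [hjo] at this; norm_num at this
    have h2 : (u0 ^ j) ^ 2 ≠ 1 := fun h2 => by
      have := orderOf_dvd_of_pow_eq_one h2
      rw [hjo] at this; norm_num at this
    clear_value j
    clear hj hjo hj'
    interval_cases j
    · simp at h1
    · left; rfl
    · exact absurd (by rw [← pow_mul]; exact u0_six) h1
    · exact absurd (by rw [← pow_mul]; exact u0_six) h2
    · exact absurd (by rw [← pow_mul, u0_pow_mod]; rfl) h1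
    · right; rfl
  have hwu : w * u0 = u0 ^ j * w := by rw [← hj']; group
  have hcode := code_wt hj15 w13 w0' hwu
  have hne : ∀ x : Fin 14, x ≠ 13 → x ≠ 0 → (w x).val ≠ 0 ∧ (w x).val ≠ 13 := by
    intro x hx hx0
    exact ⟨fun h => hx (w.injective ((Fin.ext h : w x = 0).trans w13.symm)),
      fun h => hx0 (w.injective ((Fin.ext h : w x = 13).trans w0'.symm))⟩
  have h1 := hne 1 (by decide) (by decide)
  have h2 := hne 2 (by decide) (by decide)
  have hchk := chkW_all
  have e1 : (w 1).val - 1 < 12 := by omega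
  have e2 : (w 2).val - 1 < 12 := by omega
  have h3 := allB_true (allB_true hchk _ e1) _ e2
  rw [Nat.sub_add_cancel (by omega), Nat.sub_add_cancel (by omega), Bool.and_eq_true] at h3
  have h4 : chkW j (w 1) (w 2) = true := by
    rcases hj15 with h | h <;> rw [h]
    · exact h3.1
    · exact h3.2
  obtain ⟨k, hk⟩ := chkW_sound (h.card_eq hc) h.even hc hw hcode h4
  have : w0 = (u0 ^ k)⁻¹ * w := by rw [hk]; group
  rw [this]
  exact G.mul_mem (G.inv_mem (G.pow_mem hu k)) hw

/-- normal form of the elements of the group -/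
def InL (g : S14) : Prop :=
  (∃ b k : ℕ, g = c13 ^ b * u0 ^ k) ∨ (∃ q b k : ℕ, g = c13 ^ q * (w0 * (c13 ^ b * u0 ^ k)))

theorem Hyp.fix13 {G : Subgroup S14} (h : Hyp G) (hc : c13 ∈ G) {g : S14} (hg : g ∈ G)
    (g13 : g 13 = 13) : ∃ b k : ℕ, b < 13 ∧ g = c13 ^ b * u0 ^ k := by
  have hg0 : (g 0).val < 13 := by
    have : g 0 ≠ 13 := fun h => absurd (g.injective (h.trans g13.symm)) (by decide)
    have h2 : (g 0).val ≠ 13 := fun h => this (Fin.ext h)
    omega
  have e1 : (c13 ^ (g 0).val) 13 = 13 := by rw [c13_pow]; rfl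
  have e0 : (c13 ^ (g 0).val) 0 = g 0 := by
    rw [c13_pow]
    unfold addm
    apply Fin.ext
    simp
    omega
  obtain ⟨k, hk⟩ := h.stab_eq hc (g := (c13 ^ (g 0).val)⁻¹ * g)
    (G.mul_mem (G.inv_mem (G.pow_mem hc _)) hg)
    (by rw [Perm.mul_apply, g13, Perm.inv_eq_iff_eq]; exact e1.symm)
    (by rw [Perm.mul_apply, Perm.inv_eq_iff_eq]; exact e0.symm)
  exact ⟨(g 0).val, k, hg0, by rw [← hk]; group⟩

theorem Hyp.inL {G : Subgroup S14} (h : Hyp G) (hc : c13 ∈ G) {g : S14} (hg : g ∈ G) :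
    InL g := by
  have hw := h.w0_mem hc
  by_cases g13 : g 13 = 13
  · obtain ⟨b, k, -, hbk⟩ := h.fix13 hc hg g13
    exact Or.inl ⟨b, k, hbk⟩
  · right
    have e0 : (c13 ^ (g 13).val) 0 = g 13 := by
      rw [c13_pow]
      unfold addm
      apply Fin.ext
      have : (g 13).val ≠ 13 := fun h => g13 (Fin.ext h)
      simp
      omega
    obtain ⟨b, k, -, hbk⟩ := h.fix13 hc (g := w0⁻¹ * ((c13 ^ (g 13).val)⁻¹ * g))
      (G.mul_mem (G.inv_mem hw) (G.mul_mem (G.inv_mem (G.pow_mem hc _)) hg))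
      (by
        rw [Perm.mul_apply, Perm.mul_apply]
        have : (c13 ^ (g 13).val)⁻¹ (g 13) = 0 := by rw [Perm.inv_eq_iff_eq]; exact e0.symm
        rw [this, Perm.inv_eq_iff_eq]
        decide)
    refine ⟨(g 13).val, b, k, ?_⟩
    rw [← hbk]; group

end Pool.Agent.Lib.MP_6f5538_al
end

section

/-!
Every group satisfying the hypotheses is conjugate to one explicit group; description relative
to the standard element `s0`.
-/

namespace Pool.Agent.Lib.MP_6f5538_al

open Equiv Equiv.Perm Subgroup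

/-- the explicit group -/
def Lsub : Subgroup S14 := closure {c13, u0, w0}

theorem c13_mem : c13 ∈ Lsub := subset_closure (by simp)
theorem u0_mem : u0 ∈ Lsub := subset_closure (by simp)
theorem w0_mem : w0 ∈ Lsub := subset_closure (by simp)

theorem hyp_eq_Lsub {G : Subgroup S14} (h : Hyp G) (hc : c13 ∈ G) : G = Lsub := by
  apply le_antisymm
  · intro g hg
    rcases h.inL hc hg with ⟨b, k, rfl⟩ | ⟨q, b, k, rfl⟩
    · exact Lsub.mul_mem (Lsub.pow_mem c13_mem _) (Lsub.pow_mem u0_mem _)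
    · exact Lsub.mul_mem (Lsub.pow_mem c13_mem _) (Lsub.mul_mem w0_mem
        (Lsub.mul_mem (Lsub.pow_mem c13_mem _) (Lsub.pow_mem u0_mem _)))
  · unfold Lsub
    rw [closure_le]
    rintro x (rfl | rfl | rfl)
    · exact hc
    · exact h.u0_mem hc
    · exact h.w0_mem hc

theorem hyp_exists_cj {G : Subgroup S14} (h : Hyp G) : ∃ π : S14, cj π G = Lsub := by
  obtain ⟨y, hy, ho⟩ := exists_orderOf (by norm_num) (card_182 h.twoTrans)
  obtain ⟨n, hn, hle⟩ := type_of_prime_order (by norm_num) ho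
  have hn2 : n = 0 := by omega
  subst hn2
  obtain ⟨π, hπ⟩ := exists_cj_mem (c := c13) hy (by rw [hn, c13_type]; rfl)
  exact ⟨π, hyp_eq_Lsub (h.cj π) hπ⟩

theorem cj_cj (a b : S14) (G : Subgroup S14) : cj a (cj b G) = cj (a * b) G := by
  ext g
  rw [mem_cj, mem_cj, mem_cj]
  simp [mul_assoc]

theorem cj_self {G : Subgroup S14} {l : S14} (hl : l ∈ G) : cj l G = G := by
  ext g
  rw [mem_cj]
  constructor
  · intro h
    have := G.mul_mem (G.mul_mem hl h) (G.inv_mem hl)
    simpa [mul_assoc] using this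
  · intro h
    exact G.mul_mem (G.mul_mem (G.inv_mem hl) h) hl

/-- an element of order 7 -/
def r7 : S14 := c13 * w0
/-- an element inverting `r7` -/
def y0 : S14 := w0 * u0 ^ 3

theorem r7_mem : r7 ∈ Lsub := Lsub.mul_mem c13_mem w0_mem
theorem y0_mem : y0 ∈ Lsub := Lsub.mul_mem w0_mem (Lsub.pow_mem u0_mem _)

theorem r7_pow : r7 ^ 7 = 1 := by
  ext x; revert x; decide +kernel

theorem r7_order : orderOf r7 = 7 := by
  have : Fact (Nat.Prime 7) := ⟨by norm_num⟩
  apply orderOf_eq_prime r7_pow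
  intro h
  have := congrArg (fun e : S14 => e 0) h
  revert this
  decide

theorem y0_conj : y0 * r7 * y0⁻¹ = r7 ^ 6 := by
  rw [mul_inv_eq_iff_eq_mul]
  ext x; revert x; decide +kernel

theorem code_RP : ∀ i : Fin 7, ∀ x : Fin 14, lk (RP i.val) x = ((r7 ^ i.val) x).val := by
  decide +kernel

theorem r7_pow_mod (n : ℕ) : r7 ^ n = r7 ^ (n % 7) := by
  have := pow_mod_orderOf r7 n
  rw [r7_order] at this
  exact this.symm

theorem code_pt {π : S14} {m : ℕ} (h : π * s0 = r7 ^ m * π) : Code (pt m (π 0) (π 7)) π := by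
  have hpow : ∀ i : ℕ, π * s0 ^ i = r7 ^ (m * i) * π := by
    intro i
    have h1 : π * s0 * π⁻¹ = r7 ^ m := by rw [h]; group
    have h2 : π * s0 ^ i * π⁻¹ = r7 ^ (m * i) := by
      rw [← conj_pow, h1, pow_mul]
    rw [← h2]; group
  intro x
  unfold pt
  rw [lk_pack _ _ _ x.2]
  · by_cases hx : x.val ≤ 6
    · have hb : Nat.ble x.val 6 = true := Nat.ble_eq_true_of_le hx
      rw [hb]
      simp only
      have h1 : Nat.mod (Nat.mul m x.val) 7 < 7 := Nat.mod_lt _ (by norm_num)
      rw [code_RP ⟨Nat.mod (Nat.mul m x.val) 7, h1⟩ (π 0)]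
      simp only
      have h2 : x = (s0 ^ x.val) 0 := (s0_pow_zero x (by omega)).symm
      conv_rhs => rw [h2, ← Perm.mul_apply, hpow, Perm.mul_apply, r7_pow_mod]
      rfl
    · have hb : Nat.ble x.val 6 = false := by
        cases hb : Nat.ble x.val 6 with
        | false => rfl
        | true => exact absurd (Nat.le_of_ble_eq_true hb) hx
      rw [hb]
      simp only
      have h1 : Nat.mod (Nat.mul m (x.val - 7)) 7 < 7 := Nat.mod_lt _ (by norm_num)
      rw [code_RP ⟨Nat.mod (Nat.mul m (x.val - 7)) 7, h1⟩ (π 7)]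
      simp only
      have h2 : x = (s0 ^ (x.val - 7)) 7 := (s0_pow_seven x (by omega)).symm
      conv_rhs => rw [h2, ← Perm.mul_apply, hpow, Perm.mul_apply, r7_pow_mod]
      rfl
  · intro i
    split
    · exact lk_lt _ _
    · exact lk_lt _ _

theorem r7_orbits : ∀ x : Fin 14, ∃ i : Fin 7, ((r7 ^ i.val) 0 = x ∨ (r7 ^ i.val) 3 = x) := by
  decide +kernel

theorem r7_orbits2 : ∀ x : Fin 14, (∃ i : Fin 7, (r7 ^ i.val) 0 = x) ∨
    ∃ i : Fin 7, (r7 ^ i.val) 3 = x := by
  decide +kernel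

/-- Position of a group with our hypotheses relative to `s0`. -/
theorem hyp_exists_pt {G : Subgroup S14} (h : Hyp G) (hs : s0 ∈ G) :
    ∃ π : S14, cj π G = Lsub ∧ ∃ m : Fin 3, ∃ sw : Fin 2, ∃ j : Fin 7,
      Code (pt (m.val + 1) (3 * sw.val) (lk (RP j.val) (3 - 3 * sw.val))) π := by
  obtain ⟨π1, h1⟩ := hyp_exists_cj h
  have hcardL : Nat.card Lsub = 1092 := by
    have h2 := (h.cj π1).card_eq (by rw [h1]; exact c13_mem)
    rw [h1] at h2
    exact h2
  -- Sylow
  have hs1 : π1 * s0 * π1⁻¹ ∈ Lsub := by rw [← h1]; exact conj_mem_cj hs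
  have hso : orderOf s0 = 7 := by rw [← lcm_cycleType, s0_type]; rfl
  obtain ⟨⟨l, hl⟩, hll⟩ := conj_of_orderOf_prime (K := Lsub) (p := 7) (by norm_num)
    (by rw [hcardL]; norm_num) ⟨r7, r7_mem⟩ ⟨π1 * s0 * π1⁻¹, hs1⟩
    (by rw [Subgroup.orderOf_mk]; exact r7_order)
    (by rw [Subgroup.orderOf_mk, orderOf_conj', hso])
  have hll' : (l * π1) * s0 * (l * π1)⁻¹ ∈ zpowers r7 := by
    obtain ⟨j, hj⟩ := mem_zpowers_iff.1 hll
    rw [mem_zpowers_iff]
    refine ⟨j, ?_⟩
    have := congrArg Subtype.val hj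
    simp only [Subgroup.coe_zpow, Subgroup.coe_mul, Subgroup.coe_inv] at this
    rw [this]
    group
  have hcj2 : cj (l * π1) G = Lsub := by rw [← cj_cj, h1, cj_self hl]
  have hexp : ∃ m < 7, (l * π1) * s0 * (l * π1)⁻¹ = r7 ^ m := by
    obtain ⟨j, hj⟩ := mem_zpowers_iff.1 hll'
    refine ⟨(j % 7).toNat, ?_, ?_⟩
    · have h1 : j % (7 : ℤ) < 7 := Int.emod_lt_of_pos _ (by norm_num)
      have h2 : 0 ≤ j % (7 : ℤ) := Int.emod_nonneg _ (by omega)
      omega
    · have h2 : 0 ≤ j % (7 : ℤ) := Int.emod_nonneg _ (by omega)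
      rw [← hj, ← zpow_natCast, Int.toNat_of_nonneg h2]
      have := zpow_mod_orderOf r7 j
      rw [r7_order] at this
      exact this.symm
  obtain ⟨m, hm7, hm⟩ := hexp
  have hm0 : m ≠ 0 := by
    rintro rfl
    have h3 : orderOf ((l * π1) * s0 * (l * π1)⁻¹) = 1 := by rw [hm]; simp
    rw [orderOf_conj', hso] at h3
    norm_num at h3
  -- make `m` at most 3
  have hm3 : ∃ π : S14, cj π G = Lsub ∧ ∃ m : Fin 3, π * s0 * π⁻¹ = r7 ^ (m.val + 1) := by
    by_cases hle : m ≤ 3
    · exact ⟨l * π1, hcj2, ⟨m - 1, by omega⟩, by rw [hm]; congr 1; simp only; omega⟩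
    · refine ⟨y0 * (l * π1), by rw [← cj_cj, hcj2, cj_self y0_mem], ⟨6 - m, by omega⟩, ?_⟩
      have e1 : y0 * (l * π1) * s0 * (y0 * (l * π1))⁻¹ =
          y0 * ((l * π1) * s0 * (l * π1)⁻¹) * y0⁻¹ := by group
      rw [e1, hm, ← conj_pow, y0_conj, ← pow_mul, r7_pow_mod]
      congr 1
      simp only
      omega
  obtain ⟨π, hπ, m', hm'⟩ := hm3
  -- adjust by a power of `r7`
  have hadj : ∃ π : S14, cj π G = Lsub ∧ π * s0 * π⁻¹ = r7 ^ (m'.val + 1) ∧
      (π 0 = 0 ∨ π 0 = 3) := by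
    obtain ⟨i, hi⟩ := r7_orbits (π 0)
    refine ⟨(r7 ^ i.val)⁻¹ * π, ?_, ?_, ?_⟩
    · rw [← cj_cj, hπ, cj_self (Lsub.inv_mem (Lsub.pow_mem r7_mem _))]
    · have e1 : (r7 ^ i.val)⁻¹ * π * s0 * ((r7 ^ i.val)⁻¹ * π)⁻¹ =
          (r7 ^ i.val)⁻¹ * (π * s0 * π⁻¹) * r7 ^ i.val := by group
      have e2 : r7 ^ (m'.val + 1) * r7 ^ i.val = r7 ^ i.val * r7 ^ (m'.val + 1) := by
        rw [← pow_add, ← pow_add, Nat.add_comm]
      rw [e1, hm', mul_assoc, e2, ← mul_assoc, inv_mul_cancel, one_mul]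
    · rw [Perm.mul_apply]
      rcases hi with hi | hi
      · left; rw [← hi]; simp
      · right; rw [← hi]; simp
  obtain ⟨π', hπ', hm'', hπ0⟩ := hadj
  have hcomm : π' * s0 = r7 ^ (m'.val + 1) * π' := by rw [← hm'']; group
  have hcode := code_pt hcomm
  -- `π 7` lies on the other cycle
  have hne : ∀ i : ℕ, ¬ π' 7 = (r7 ^ i) (π' 0) := by
    intro i hi
    -- `r7 ^ i = (π' s0 π'⁻¹) ^ k` for some `k`
    have hk : ∃ k : ℕ, r7 ^ i = (r7 ^ (m'.val + 1)) ^ k := by
      have : ∃ k : ℕ, (m'.val + 1) * k % 7 = i % 7 := by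
        have h5 : i % 7 < 7 := Nat.mod_lt _ (by norm_num)
        have : ∀ m' : Fin 3, ∀ i' : Fin 7, ∃ k : Fin 7, (m'.val + 1) * k.val % 7 = i'.val := by
          decide
        obtain ⟨k, hk⟩ := this m' ⟨i % 7, h5⟩
        exact ⟨k.val, hk⟩
      obtain ⟨k, hk⟩ := this
      exact ⟨k, by rw [← pow_mul, r7_pow_mod i, r7_pow_mod (_ * k), hk]⟩
    obtain ⟨k, hk⟩ := hk
    rw [hk, ← hm'', conj_pow] at hi
    simp only [Perm.mul_apply, Perm.inv_def, Equiv.symm_apply_apply] at hi
    have h5 := π'.injective hi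
    have h6 : ∀ k : ℕ, ((s0 ^ k) 0).val < 7 := by
      intro k
      induction k with
      | zero => decide
      | succ k ih =>
        rw [pow_succ', Perm.mul_apply]
        revert ih
        generalize (s0 ^ k) 0 = w
        revert w
        decide
    have h7 := h6 k
    rw [← h5] at h7
    exact absurd h7 (by decide)
  rcases hπ0 with h0 | h0
  · -- first cycle
    rcases r7_orbits2 (π' 7) with ⟨i, hi⟩ | ⟨i, hi⟩
    · exact absurd (by rw [h0]; exact hi.symm) (hne i.val)
    · refine ⟨π', hπ', m', 0, i, ?_⟩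
      have e1 : lk (RP i.val) (3 - 3 * (0 : Fin 2).val) = (π' 7).val := by
        rw [← hi]
        exact code_RP i 3
      rw [e1]
      have e2 : 3 * (0 : Fin 2).val = (π' 0).val := by rw [h0]; rfl
      rw [e2]
      exact hcode
  · rcases r7_orbits2 (π' 7) with ⟨i, hi⟩ | ⟨i, hi⟩
    · refine ⟨π', hπ', m', 1, i, ?_⟩
      have e1 : lk (RP i.val) (3 - 3 * (1 : Fin 2).val) = (π' 7).val := by
        rw [← hi]
        exact code_RP i 0
      rw [e1]
      have e2 : 3 * (1 : Fin 2).val = (π' 0).val := by rw [h0]; rfl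
      rw [e2]
      exact hcode
    · exact absurd (by rw [h0]; exact hi.symm) (hne i.val)

/-- normal form of the elements of `Lsub`, given one group satisfying the hypotheses -/
theorem hyp_inL_of_mem {G : Subgroup S14} (h : Hyp G) {g : S14} (hg : g ∈ Lsub) : InL g := by
  obtain ⟨π, hπ⟩ := hyp_exists_cj h
  have h1 := h.cj π
  rw [hπ] at h1
  exact h1.inL c13_mem hg

end Pool.Agent.Lib.MP_6f5538_al
end

section

/-!
Imprimitive overgroups of the standard element `s0`.
-/

namespace Pool.Agent.Lib.MP_6f5538_al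

open Equiv Equiv.Perm Subgroup

/-- `x` preserves the partition into the two cycles of `s0` -/
def Wp (x : S14) : Prop :=
  ∀ a b : Fin 14, (a.val < 7 ↔ b.val < 7) → ((x a).val < 7 ↔ (x b).val < 7)

/-- `x` preserves a perfect matching -/
def Mp (k : Fin 7) (x : S14) : Prop := ∀ a, x (muk k a) = muk k (x a)

/-- `x` preserves one of the `s0`-invariant block systems -/
def Imp (x : S14) : Prop := Wp x ∨ ∃ k, Mp k x

theorem lk_ra : ∀ k : Fin 13, lk 0x777000 k = (ra k).val := by decide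
theorem lk_rb : ∀ k : Fin 13, lk 0xdcba987a98321 k = (rb k).val := by decide

theorem equiv_code {R : Fin 14 → Fin 14 → Prop} (hR : Equivalence R) {c : ℕ} (hc0 : c ≠ 0)
    (hc1 : c ≠ 8191) (hc2 : c < 8192)
    (hcR : ∀ a b : Fin 14, rl c a b = 1 ↔ (a ≠ b ∧ R a b)) : inLst c = true := by
  obtain ⟨c', rfl⟩ := Nat.exists_eq_succ_of_ne_zero hc0
  have h := allB_true chkT_all c' (by omega)
  unfold chkT at h
  rw [Bool.or_eq_true] at h
  rcases h with h | h
  · exact h
  exfalso
  have key : ∀ a b d : Fin 14, rl (c' + 1) a b = 1 → viol (c' + 1) a b d = true → False := by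
    intro a b d hab hv
    unfold viol at hv
    simp only [Bool.and_eq_true] at hv
    obtain ⟨⟨h1, h2⟩, h3⟩ := hv
    have h1' := Nat.eq_of_beq_eq_true h1
    have h2' := Nat.eq_of_beq_eq_true h2
    have hne : a ≠ d := by
      rintro rfl
      simp at h3
    have h4 := (hcR a b).1 hab
    have h5 := (hcR b d).1 h1'
    have h6 := (hcR a d).2 ⟨hne, hR.trans h4.2 h5.2⟩
    change rl (c'.succ) a d = 1 at h6
    change rl (c'.succ) a d = 0 at h2'
    omega
  obtain ⟨k, hk, h⟩ := anyB_true h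
  rw [Bool.and_eq_true] at h
  obtain ⟨h1, h2⟩ := h
  obtain ⟨d, hd, h3⟩ := anyB_true h2
  have h1' := Nat.eq_of_beq_eq_true h1
  have e1 := lk_ra ⟨k, hk⟩
  have e2 := lk_rb ⟨k, hk⟩
  simp only at e1 e2
  rw [e1, e2, Bool.or_eq_true] at h3
  have e3 := pidx_rep ⟨k, hk⟩
  have h4 : rl (c' + 1) (ra ⟨k, hk⟩) (rb ⟨k, hk⟩) = 1 := by
    unfold rl; rw [e3]; exact h1'
  have h5 : rl (c' + 1) (rb ⟨k, hk⟩) (ra ⟨k, hk⟩) = 1 := by
    unfold rl; rw [pidx_symm, e3]; exact h1'
  rcases h3 with h3 | h3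
  · exact key _ _ ⟨d, hd⟩ h4 h3
  · exact key _ _ ⟨d, hd⟩ h5 h3

theorem match_code : ∀ k : Fin 7, ∀ a b : Fin 14,
    (rl (64 * 2 ^ k.val) a b = 1 ↔ b = muk k a) := by
  decide +kernel

theorem imp_of_code {G : Subgroup S14} {x : S14} (hx : x ∈ G) {c : ℕ} (h : InvC G c)
    (hc : inLst c = true) : Imp x := by
  have hdeg : ∀ a : Fin 14, (∃ b : Fin 14, rl c a b = 1) ↔ (∃ b : Fin 14, rl c (x a) b = 1) := by
    intro a
    constructor
    · rintro ⟨b, hb⟩
      exact ⟨x b, by rw [h.2 x hx]; exact hb⟩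
    · rintro ⟨b, hb⟩
      refine ⟨x⁻¹ b, ?_⟩
      rw [← h.2 x hx]
      simpa using hb
  have hM : ∀ k : Fin 7, c = 64 * 2 ^ k.val → Imp x := by
    intro k hk
    right
    refine ⟨k, fun a => ?_⟩
    have h1 : rl c a (muk k a) = 1 := by rw [hk]; exact (match_code k _ _).2 rfl
    have h2 : rl c (x a) (x (muk k a)) = 1 := by rw [h.2 x hx]; exact h1
    rw [hk] at h2
    exact (match_code k _ _).1 h2
  unfold inLst at hc
  simp only [Bool.or_eq_true] at hc
  rcases hc with ((((((((hc | hc) | hc) | hc) | hc) | hc) | hc) | hc) | hc) | hc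
  · have hc' := Nat.eq_of_beq_eq_true hc
    subst hc'
    left
    have e1 : ∀ a : Fin 14, (∃ b : Fin 14, rl 7 a b = 1) ↔ a.val < 7 := by decide
    intro a b hab
    have h1 := hdeg a
    have h2 := hdeg b
    rw [e1, e1] at h1 h2
    rw [← h1, ← h2]
    exact hab
  · have hc' := Nat.eq_of_beq_eq_true hc
    subst hc'
    left
    have e1 : ∀ a : Fin 14, (∃ b : Fin 14, rl 56 a b = 1) ↔ ¬ a.val < 7 := by decide
    intro a b hab
    have h1 := hdeg a
    have h2 := hdeg b
    rw [e1, e1] at h1 h2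
    rw [← not_iff_not, ← h1, ← h2]
    exact not_congr hab
  · have hc' := Nat.eq_of_beq_eq_true hc
    subst hc'
    left
    have e1 : ∀ a b : Fin 14, a ≠ b → ((a.val < 7 ↔ b.val < 7) ↔ rl 63 a b = 1) := by decide
    intro a b hab
    by_cases hne : a = b
    · subst hne; exact Iff.rfl
    · have h1 := (e1 a b hne).1 hab
      rw [← h.2 x hx] at h1
      exact (e1 _ _ (fun h => hne (x.injective h))).2 h1
  · exact hM 0 (Nat.eq_of_beq_eq_true hc)
  · exact hM 1 (Nat.eq_of_beq_eq_true hc)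
  · exact hM 2 (Nat.eq_of_beq_eq_true hc)
  · exact hM 3 (Nat.eq_of_beq_eq_true hc)
  · exact hM 4 (Nat.eq_of_beq_eq_true hc)
  · exact hM 5 (Nat.eq_of_beq_eq_true hc)
  · exact hM 6 (Nat.eq_of_beq_eq_true hc)

/-- a group of even permutations containing `s0` and `x` but not the alternating group either
satisfies our hypotheses or lies in a wreath product -/
theorem dichotomy {G : Subgroup S14} (hs : s0 ∈ G) (he : ∀ g ∈ G, sign g = 1)
    (hA : ¬ alternatingGroup (Fin 14) ≤ G) : Hyp G ∨ ∀ x ∈ G, Imp x := by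
  by_cases hp : Prim G
  · exact Or.inl ⟨hp, he, hA, s0, hs, s0_type⟩
  · right
    intro x hx
    unfold Prim at hp
    push Not at hp
    obtain ⟨R, hR, hinv, ⟨a0, b0, hab, hne⟩, ⟨a1, b1, hab1⟩⟩ := hp
    obtain ⟨c, hc, hcR, -⟩ := exists_code hs (fun a b => a ≠ b ∧ R a b) (fun a h => h.1 rfl)
      (fun a b h => ⟨h.1.symm, hR.symm h.2⟩)
      (fun g hg a b h => ⟨fun h' => h.1 (g.injective h'), hinv g hg a b h.2⟩)
    refine imp_of_code hx hc (equiv_code hR ?_ ?_ hc.1 hcR)
    · rintro rfl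
      have := (hcR a0 b0).2 ⟨hne, hab⟩
      unfold rl at this
      rw [bt_eq] at this
      simp at this
    · rintro rfl
      by_cases h11 : a1 = b1
      · subst h11; exact hab1 (hR.refl _)
      · exact hab1 ((hcR a1 b1).1 (rl_full a1 b1 h11)).2

end Pool.Agent.Lib.MP_6f5538_al
end
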