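import Pool.Agent.Lib.MP_6f5538_al.Dicho

/-!
Tables and checks for the four conjugates of `s0`.
-/

namespace Pool.Agent.Lib.MP_6f5538_al

open Equiv Equiv.Perm Subgroup

/-- the permutation of order 4 relating the four elements of the total dominating set -/
def tau : S14 where
  toFun := ![2, 9, 8, 1, 0, 5, 7, 12, 4, 13, 10, 6, 11, 3]
  invFun := ![4, 3, 0, 13, 8, 5, 11, 6, 2, 1, 10, 12, 7, 9]
  left_inv := by decide
  right_inv := by decide

theorem code_Tc : ∀ j : Fin 4, ∀ x : Fin 14, lk (Tc j.val) x = ((tau ^ j.val) x).val := by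
  decide +kernel

theorem tau_four : tau ^ 4 = 1 := by
  ext x; revert x; decide +kernel

theorem code_MU : ∀ k : Fin 7, ∀ x : Fin 14, lk (MU k.val) x = (muk k x).val := by
  decide +kernel

theorem code_SP : ∀ k : Fin 7, ∀ x : Fin 14, lk (SP k.val) x = ((s0 ^ k.val) x).val := by
  decide +kernel

theorem code_uc : ∀ k : Fin 6, ∀ x : Fin 14, lk (uc k.val) x = ((u0 ^ k.val) x).val := by
  decide +kernel

end Pool.Agent.Lib.MP_6f5538_al
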