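import Pool.Agent.Lib.MP_6f5538_al.NDefs
import Pool.Agent.Lib.MP_6f5538_al.Order
import Pool.Agent.Lib.MP_6f5538_al.LDefs

section

/-!
Kernel evaluation of finite checks.
-/

namespace Pool.Agent.Lib.MP_6f5538_al

theorem chkExp : chkAll goodRet = true := by decide +kernel

theorem chkL_0 : allB 2 (fun sw => allB 7 (fun j => chkL 0 sw j)) = true := by decide +kernel

end Pool.Agent.Lib.MP_6f5538_al
end

section

/-!
Kernel evaluation of a finite check.
-/

namespace Pool.Agent.Lib.MP_6f5538_al

theorem chkL_1 : allB 2 (fun sw => allB 7 (fun j => chkL 1 sw j)) = true := by decide +kernel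

end Pool.Agent.Lib.MP_6f5538_al
end

section

/-!
Kernel evaluation of a finite check.
-/

namespace Pool.Agent.Lib.MP_6f5538_al

theorem chkL_2 : allB 2 (fun sw => allB 7 (fun j => chkL 2 sw j)) = true := by decide +kernel

end Pool.Agent.Lib.MP_6f5538_al
end

section

/-!
Kernel evaluation of finite checks.
-/

namespace Pool.Agent.Lib.MP_6f5538_al

theorem chkA1_0 : allB 7 (fun n => chkA 1 0 n) = true := by decide +kernel

theorem chkA1_1 : allB 7 (fun n => chkA 1 1 n) = true := by decide +kernel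

theorem chkA1_2 : allB 7 (fun n => chkA 1 2 n) = true := by decide +kernel

theorem chkA1_3 : allB 7 (fun n => chkA 1 3 n) = true := by decide +kernel

theorem chkA1_4 : allB 7 (fun n => chkA 1 4 n) = true := by decide +kernel

theorem chkA1_5 : allB 7 (fun n => chkA 1 5 n) = true := by decide +kernel

theorem chkA1_6 : allB 7 (fun n => chkA 1 6 n) = true := by decide +kernel

end Pool.Agent.Lib.MP_6f5538_al
end

section

/-!
Kernel evaluation of finite checks.
-/

namespace Pool.Agent.Lib.MP_6f5538_al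

theorem chkA2_0 : allB 7 (fun n => chkA 2 0 n) = true := by decide +kernel

theorem chkA2_1 : allB 7 (fun n => chkA 2 1 n) = true := by decide +kernel

theorem chkA2_2 : allB 7 (fun n => chkA 2 2 n) = true := by decide +kernel

theorem chkA2_3 : allB 7 (fun n => chkA 2 3 n) = true := by decide +kernel

theorem chkA2_4 : allB 7 (fun n => chkA 2 4 n) = true := by decide +kernel

theorem chkA2_5 : allB 7 (fun n => chkA 2 5 n) = true := by decide +kernel

theorem chkA2_6 : allB 7 (fun n => chkA 2 6 n) = true := by decide +kernel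

end Pool.Agent.Lib.MP_6f5538_al
end

section

/-!
Kernel evaluation of finite checks.
-/

namespace Pool.Agent.Lib.MP_6f5538_al

theorem chkB_0 : chkB 0 = true := by decide +kernel

theorem chkB_1 : chkB 1 = true := by decide +kernel

theorem chkB_2 : chkB 2 = true := by decide +kernel

theorem chkB_3 : chkB 3 = true := by decide +kernel

theorem chkB_4 : chkB 4 = true := by decide +kernel

theorem chkB_5 : chkB 5 = true := by decide +kernel

theorem chkB_6 : chkB 6 = true := by decide +kernel

theorem chkB_7 : chkB 7 = true := by decide +kernel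

theorem chkB_8 : chkB 8 = true := by decide +kernel

theorem chkB_9 : chkB 9 = true := by decide +kernel

theorem chkB_10 : chkB 10 = true := by decide +kernel

theorem chkB_11 : chkB 11 = true := by decide +kernel

theorem chkB_12 : chkB 12 = true := by decide +kernel

theorem chkB_13 : chkB 13 = true := by decide +kernel

end Pool.Agent.Lib.MP_6f5538_al
end

section

/-!
The primitive proper overgroups cannot occur for all four conjugates of `s0`.
-/

namespace Pool.Agent.Lib.MP_6f5538_al

open Equiv Equiv.Perm Subgroup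

theorem fi_spec (p y : ℕ) (n : ℕ) (h : ∃ m < n, lk p m = y) :
    fi p y n < n ∧ lk p (fi p y n) = y := by
  induction n with
  | zero => obtain ⟨m, hm, -⟩ := h; omega
  | succ n ih =>
    unfold fi
    cases hb : Nat.beq (lk p n) y with
    | true =>
      simp only
      exact ⟨by omega, Nat.eq_of_beq_eq_true hb⟩
    | false =>
      simp only
      have h1 : ∃ m < n, lk p m = y := by
        obtain ⟨m, hm, hmy⟩ := h
        rcases Nat.lt_succ_iff_lt_or_eq.1 hm with h1 | h1
        · exact ⟨m, h1, hmy⟩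
        · subst h1
          rw [hmy] at hb
          simp at hb
      have h2 := ih h1
      exact ⟨by omega, h2.2⟩

theorem Code.inv {p : ℕ} {g : S14} (h : Code p g) : Code (invc p) g⁻¹ := by
  intro y
  have h15 : ∀ i : ℕ, Nat.land i 15 < 16 := by
    intro i
    change i &&& 15 < 16
    have : (15 : ℕ) = 2 ^ 4 - 1 := by norm_num
    rw [this, Nat.and_two_pow_sub_one_eq_mod]
    exact Nat.mod_lt _ (by norm_num)
  unfold invc
  rw [lk_pack _ (fun i => h15 _) _ y.2]
  have h1 : ∃ m < 14, lk p m = y.val := ⟨(g⁻¹ y).val, (g⁻¹ y).2, by rw [h (g⁻¹ y)]; simp⟩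
  obtain ⟨h2, h3⟩ := fi_spec p y.val 14 h1
  have h4 := h ⟨fi p y.val 14, h2⟩
  simp only at h4
  rw [h3] at h4
  have h5 : g⁻¹ y = ⟨fi p y.val 14, h2⟩ := by
    rw [Perm.inv_eq_iff_eq]
    exact Fin.ext h4
  rw [h5]
  change (fi p y.val 14) &&& 15 = fi p y.val 14
  have : (15 : ℕ) = 2 ^ 4 - 1 := by norm_num
  rw [this, Nat.and_two_pow_sub_one_eq_mod]
  exact Nat.mod_eq_of_lt (by omega)

theorem firstRet2_eq {y s : ℕ} {g h : S14} (hy : Code y g) (hs : Code s h) (p fuel : ℕ)
    (q : Fin 14) (n : ℕ) : firstRet2 y s p fuel q n = firstRet (comp y s) p fuel q n := by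
  induction fuel generalizing q n with
  | zero => rfl
  | succ fuel ih =>
    unfold firstRet2 firstRet
    cases hb : Nat.beq q p with
    | true => rfl
    | false =>
      simp only
      rw [force_eq, force_eq]
      have h1 : lk y (lk s q) = (g (h q)).val := by rw [hs q, hy (h q)]
      have h2 : lk (comp y s) q = (g (h q)).val := (hy.mul hs) q
      rw [h1, h2]
      exact ih _ _

theorem badWord_sound {y : ℕ} {g : S14} (hy : Code y g) (h : badWord y = true) :
    ∃ i : ℕ, (g * s0 ^ i) ^ 546 ≠ 1 := by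
  unfold badWord at h
  obtain ⟨i, hi, h1⟩ := anyB_true h
  refine ⟨i + 1, fun hE => ?_⟩
  have hs : Code (SP (i + 1)) (s0 ^ (i + 1)) := fun x => code_SP ⟨i + 1, by omega⟩ x
  have h2 := badRet_sound (hy.mul hs) 0 hE
  unfold badRet at h2
  rw [force_eq] at h1 h2
  have h3 : lk y (lk (SP (i + 1)) 0) = (g ((s0 ^ (i + 1)) 0)).val := by
    have e1 := hs 0
    rw [show ((0 : Fin 14) : ℕ) = 0 from rfl] at e1
    rw [e1, hy]
  have h4 : lk (comp y (SP (i + 1))) ((0 : Fin 14) : ℕ) = (g ((s0 ^ (i + 1)) 0)).val :=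
    (hy.mul hs) 0
  rw [h3, firstRet2_eq hy hs] at h1
  rw [h4, show ((0 : Fin 14) : ℕ) = 0 from rfl] at h2
  rw [h1] at h2
  exact absurd h2 (by decide)

theorem ble_false {n : ℕ} : Nat.ble 7 n = false ↔ n < 7 := by
  constructor
  · intro h
    by_contra hc
    rw [Nat.ble_eq_true_of_le (by omega : 7 ≤ n)] at h
    exact absurd h (by decide)
  · intro h
    cases hb : Nat.ble 7 n with
    | false => rfl
    | true => have := Nat.le_of_ble_eq_true hb; omega

theorem ble_true {n : ℕ} : Nat.ble 7 n = true ↔ ¬ n < 7 := by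
  rw [← ble_false]
  simp

theorem notW_sound {y : ℕ} {g : S14} (hy : Code y g) (h : notW y = true) : ¬ Wp g := by
  intro hW
  have e0 := hy 0
  have e1 := hy 1
  have e2 := hy 2
  have e3 := hy 3
  have e4 := hy 4
  have e5 := hy 5
  have e6 := hy 6
  have w1 := hW 0 1 (by decide)
  have w2 := hW 0 2 (by decide)
  have w3 := hW 0 3 (by decide)
  have w4 := hW 0 4 (by decide)
  have w5 := hW 0 5 (by decide)
  have w6 := hW 0 6 (by decide)
  unfold notW at h
  have e0' : lk y 0 = (g 0).val := e0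
  have e1' : lk y 1 = (g 1).val := e1
  have e2' : lk y 2 = (g 2).val := e2
  have e3' : lk y 3 = (g 3).val := e3
  have e4' : lk y 4 = (g 4).val := e4
  have e5' : lk y 5 = (g 5).val := e5
  have e6' : lk y 6 = (g 6).val := e6
  rw [e0', e1', e2', e3', e4', e5', e6'] at h
  by_cases h0 : (g 0).val < 7
  · have b0 := ble_false.2 h0
    have b1 := ble_false.2 (w1.1 h0)
    have b2 := ble_false.2 (w2.1 h0)
    have b3 := ble_false.2 (w3.1 h0)
    have b4 := ble_false.2 (w4.1 h0)
    have b5 := ble_false.2 (w5.1 h0)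
    have b6 := ble_false.2 (w6.1 h0)
    rw [b0, b1, b2, b3, b4, b5, b6] at h
    exact absurd h (by decide)
  · have b0 := ble_true.2 h0
    have b1 := ble_true.2 ((not_congr w1).1 h0)
    have b2 := ble_true.2 ((not_congr w2).1 h0)
    have b3 := ble_true.2 ((not_congr w3).1 h0)
    have b4 := ble_true.2 ((not_congr w4).1 h0)
    have b5 := ble_true.2 ((not_congr w5).1 h0)
    have b6 := ble_true.2 ((not_congr w6).1 h0)
    rw [b0, b1, b2, b3, b4, b5, b6] at h
    exact absurd h (by decide)

theorem notM_sound {y mk : ℕ} {g : S14} {k : Fin 7} (hy : Code y g) (hm : Code mk (muk k))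
    (h : notM y mk = true) : ¬ Mp k g := by
  intro hM
  unfold notM at h
  obtain ⟨p, hp, h1⟩ := anyB_true h
  have e1 := hm ⟨p, by omega⟩
  have e2 := hy ⟨p, by omega⟩
  simp only at e1 e2
  rw [e1, e2, hy, hm, hM] at h1
  simp at h1

theorem notImp_sound {y : ℕ} {g : S14} (hy : Code y g) (h : notImp y = true) : ¬ Imp g := by
  unfold notImp at h
  rw [Bool.and_eq_true] at h
  rintro (hI | ⟨k, hk⟩)
  · exact notW_sound hy h.1 hI
  · exact notM_sound hy (code_MU k) (allB_true h.2 k.val k.2) hk

theorem c13_pow_mod (n : ℕ) : c13 ^ n = c13 ^ (n % 13) := by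
  have := pow_mod_orderOf c13 n
  rw [c13_order] at this
  exact this.symm

theorem chkAll_sound {f : ℕ → Bool} (h : chkAll f = true) {g : S14} (hg : InL g) :
    ∃ l, Code l g ∧ f l = true := by
  unfold chkAll at h
  have key : ∀ b k : ℕ, ∃ a, Code a (c13 ^ b * u0 ^ k) ∧ f a = true ∧
      force (comp 0xc64352b8a971d a) (fun a' =>
        allB 13 (fun q => force (comp (tc q) a') f)) = true := by
    intro b k
    have h1 := allB_true (allB_true h (b % 13) (Nat.mod_lt _ (by norm_num))) (k % 6)
      (Nat.mod_lt _ (by norm_num))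
    rw [force_eq, Bool.and_eq_true] at h1
    refine ⟨comp (tc (b % 13)) (uc (k % 6)), ?_, h1.1, h1.2⟩
    rw [c13_pow_mod, u0_pow_mod k]
    exact (code_tc _).mul (fun x => code_uc ⟨k % 6, Nat.mod_lt _ (by norm_num)⟩ x)
  rcases hg with ⟨b, k, rfl⟩ | ⟨q, b, k, rfl⟩
  · obtain ⟨a, h1, h2, -⟩ := key b k
    exact ⟨a, h1, h2⟩
  · obtain ⟨a, h1, -, h3⟩ := key b k
    rw [force_eq] at h3
    have h4 := allB_true h3 (q % 13) (Nat.mod_lt _ (by norm_num))
    rw [force_eq] at h4
    refine ⟨_, ?_, h4⟩
    rw [c13_pow_mod q]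
    have hw : Code 0xc64352b8a971d w0 := by
      intro x
      have h5 := code_wL 0 x
      have e : (u0 ^ (0 : Fin 6).val * w0) = w0 := by simp
      rw [e] at h5
      exact h5
    exact (code_tc _).mul (hw.mul h1)

theorem goodRet_sound {v : ℕ} {g : S14} (hv : Code v g) (h : goodRet v = true) : g ^ 546 = 1 := by
  ext p
  unfold goodRet at h
  have h1 := allB_true h p.val p.2
  rw [force_eq, hv p] at h1
  have h2 := firstRet_spec hv p 15 (g p) 1 (by rw [pow_one]) (fun i h0 h1 => by omega)
  set n := firstRet v p 15 (g p) 1 with hn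
  rw [Bool.and_eq_true] at h1
  obtain ⟨hb1, hb2⟩ := h1
  have hn0 : n ≠ 0 := by
    intro h; rw [h] at hb2; simp at hb2
  rcases h2 with h2 | ⟨h2, -⟩
  · exact absurd h2 hn0
  · have hmod : 546 % n = 0 := Nat.eq_of_beq_eq_true hb1
    obtain ⟨c, hc⟩ := Nat.dvd_of_mod_eq_zero hmod
    have h5 : ∀ m : ℕ, ((g ^ n) ^ m) p = p := by
      intro m
      induction m with
      | zero => rfl
      | succ m ih => rw [pow_succ, Perm.mul_apply, h2, ih]
    rw [hc, pow_mul, h5]
    rfl

theorem exp546 {g : S14} (hg : InL g) : g ^ 546 = 1 := by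
  obtain ⟨l, h1, h2⟩ := chkAll_sound chkExp hg
  exact goodRet_sound h1 h2

theorem Hyp.pow546 {G : Subgroup S14} (h : Hyp G) {g : S14} (hg : g ∈ G) : g ^ 546 = 1 := by
  obtain ⟨π, hπ⟩ := hyp_exists_cj h
  have h1 : π * g * π⁻¹ ∈ Lsub := by rw [← hπ]; exact conj_mem_cj hg
  have h2 := exp546 (hyp_inL_of_mem h h1)
  rw [conj_pow] at h2
  have h3 : g ^ 546 = π⁻¹ * (π * g ^ 546 * π⁻¹) * π := by group
  rw [h3, h2]
  group

theorem chkL_all (m : Fin 3) (sw : Fin 2) (j : Fin 7) : chkL m.val sw.val j.val = true := by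
  obtain ⟨m, hm⟩ := m
  interval_cases m
  · exact allB_true (allB_true chkL_0 sw.val sw.2) j.val j.2
  · exact allB_true (allB_true chkL_1 sw.val sw.2) j.val j.2
  · exact allB_true (allB_true chkL_2 sw.val sw.2) j.val j.2

theorem Code.congr {p : ℕ} {g h : S14} (hg : Code p g) (e : g = h) : Code p h := e ▸ hg

theorem chk1_sound {Q Qi l : ℕ} {π t x : S14} (hQ : Code Q (π * t)) (hQi : Code Qi (π * t)⁻¹)
    (hl : Code l (π * x * π⁻¹)) (h : chk1 Q Qi l = true) :
    ¬ Imp (t⁻¹ * x * t) ∧ ∃ i : ℕ, ((t⁻¹ * x * t) * s0 ^ i) ^ 546 ≠ 1 := by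
  unfold chk1 at h
  rw [force_eq, Bool.and_eq_true] at h
  have h1 : Code (comp Qi (comp l Q)) (t⁻¹ * x * t) := by
    refine (hQi.mul (hl.mul hQ)).congr ?_
    group
  exact ⟨notImp_sound h1 h.1, badWord_sound h1 h.2⟩

/-- if `⟨x, s0⟩` is one of the primitive groups, then one of the other three conjugates of `x`
escapes all proper overgroups of `s0` -/
theorem prim_escape {x : S14} (hx : x ≠ 1) (h : Hyp (closure {x, s0})) :
    ∃ j : ℕ, j < 4 ∧ ¬ Imp (tau ^ j * x * (tau ^ j)⁻¹) ∧
      ¬ Hyp (closure {tau ^ j * x * (tau ^ j)⁻¹, s0}) := by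
  have hxm : x ∈ closure {x, s0} := subset_closure (by simp)
  have hsm : s0 ∈ closure {x, s0} := subset_closure (by simp)
  obtain ⟨π, hπ, m, sw, j, hcode⟩ := hyp_exists_pt h hsm
  have hlL : π * x * π⁻¹ ∈ Lsub := by rw [← hπ]; exact conj_mem_cj hxm
  have hL := hyp_inL_of_mem h hlL
  have hchk := chkL_all m sw j
  unfold chkL at hchk
  set p := pt (m.val + 1) (3 * sw.val) (lk (RP j.val) (3 - 3 * sw.val)) with hp
  rw [force_eq, force_eq, force_eq, force_eq, force_eq, force_eq, force_eq] at hchk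
  obtain ⟨l, hl, hl2⟩ := chkAll_sound hchk hL
  have hT : ∀ i : Fin 4, Code (comp p (Tc i.val)) (π * tau ^ i.val) :=
    fun i => hcode.mul (code_Tc i)
  have fin : ∀ i : ℕ, ∀ k : ℕ, i + k = 4 →
      chk1 (comp p (Tc i)) (invc (comp p (Tc i))) l = true →
      Code (comp p (Tc i)) (π * tau ^ i) →
      ¬ Imp (tau ^ k * x * (tau ^ k)⁻¹) ∧ ¬ Hyp (closure {tau ^ k * x * (tau ^ k)⁻¹, s0}) := by
    intro i k hik hc hQ
    have h1 := chk1_sound hQ hQ.inv hl hc
    have h2 : (tau ^ i)⁻¹ = tau ^ k := by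
      rw [inv_eq_iff_mul_eq_one, ← pow_add, hik, tau_four]
    have h3 : (tau ^ k)⁻¹ = tau ^ i := by rw [← h2, inv_inv]
    rw [h3, ← h2]
    refine ⟨h1.1, fun hH => ?_⟩
    obtain ⟨e, he⟩ := h1.2
    apply he
    apply hH.pow546
    exact mul_mem (subset_closure (by simp)) (Subgroup.pow_mem _ (subset_closure (by simp)) _)
  unfold chk3 at hl2
  simp only [Bool.or_eq_true] at hl2
  rcases hl2 with ((h1 | h1) | h1) | h1
  · exfalso
    have h2 := Nat.eq_of_beq_eq_true h1
    rw [h2] at hl
    have h3 := hl.unique code_one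
    apply hx
    have h4 : x = π⁻¹ * (π * x * π⁻¹) * π := by group
    rw [h4, h3]
    group
  · exact ⟨1, by norm_num, fin 3 1 rfl h1 (hT 3)⟩
  · exact ⟨2, by norm_num, fin 2 2 rfl h1 (hT 2)⟩
  · exact ⟨3, by norm_num, fin 1 3 rfl h1 (hT 1)⟩

end Pool.Agent.Lib.MP_6f5538_al
end

section

/-!
Soundness of the searches.
-/

namespace Pool.Agent.Lib.MP_6f5538_al

open Equiv Equiv.Perm Subgroup Finset

theorem lk_setd (T p v q : ℕ) (hv : v < 16) (hq : q < 14) :
    lk (setd T p v) q = if q = p then v else lk T q := by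
  unfold setd
  rw [lk_pack _ _ _ hq]
  · cases hb : Nat.beq q p with
    | true => simp only [Nat.eq_of_beq_eq_true hb, if_true]
    | false =>
      have : q ≠ p := by
        rintro rfl
        simp at hb
      simp only [if_neg this]
  · intro i
    split
    · exact hv
    · exact lk_lt _ _

/-- `T` is a part of the table of `x` -/
def Part (T : ℕ) (x : S14) : Prop := ∀ p : Fin 14, lk T p = 15 ∨ lk T p = (x p).val

theorem Part.setd {T : ℕ} {x : S14} (h : Part T x) (p : Fin 14) :
    Part (setd T p (x p)) x := by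
  intro q
  rw [lk_setd _ _ _ _ (by omega) q.2]
  by_cases hq : q = p
  · subst hq
    right
    simp
  · rw [if_neg (fun h => hq (Fin.ext h))]
    exact h q

theorem usd_false {T : ℕ} {x : S14} (h : Part T x) {p : Fin 14} (hp : lk T p = 15) :
    usd T (x p) = false := by
  cases hb : usd T (x p) with
  | false => rfl
  | true =>
    exfalso
    unfold usd at hb
    obtain ⟨q, hq, h1⟩ := anyB_true hb
    have h2 := Nat.eq_of_beq_eq_true h1
    rcases h ⟨q, hq⟩ with h3 | h3
    · simp only at h3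
      omega
    · simp only at h3
      have h4 : x ⟨q, hq⟩ = x p := Fin.ext (by omega)
      have h5 := x.injective h4
      rw [← h5] at hp
      simp only at hp
      omega

theorem wk_sound {Q : Prop} {k : ℕ → Bool} {x : S14} (hk : ∀ T, Part T x → k T = true → Q)
    (fuel : ℕ) : ∀ (A B : ℕ) (α β : S14), Code A α → Code B β → (∀ a, x (α a) = α (x a)) →
    (∀ a, x (β a) = β (x a)) → ∀ (T : ℕ) (p : Fin 14), Part T x →
    wk k fuel A B T p (x p) = true → Q := by
  induction fuel with
  | zero =>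
    intro A B α β _ _ _ _ T p _ h
    exact absurd h (by unfold wk; decide)
  | succ fuel ih =>
    intro A B α β hA hB hα hβ T p hT h
    unfold wk at h
    cases hb : Nat.beq (lk T p) 15 with
    | true =>
      rw [hb] at h
      simp only at h
      rw [usd_false hT (Nat.eq_of_beq_eq_true hb)] at h
      simp only at h
      rw [force_eq, force_eq, force_eq, hA p, hA (x p), ← hα] at h
      exact ih B A β α hB hA hβ hα _ (α p) (hT.setd p) h
    | false =>
      rw [hb] at h
      simp only at h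
      have h1 : lk T p = (x p).val := by
        rcases hT p with h1 | h1
        · rw [h1] at hb; simp at hb
        · exact h1
      rw [h1] at h
      have h2 : Nat.beq (x p).val (x p).val = true := by simp
      rw [h2] at h
      exact hk T hT h

theorem Part.code {T : ℕ} {x : S14} (h : Part T x)
    (h2 : allB 14 (fun q => !(Nat.beq (lk T q) 15)) = true) : Code T x := by
  intro p
  rcases h p with h1 | h1
  · have h3 := allB_true h2 p.val p.2
    rw [h1] at h3
    simp at h3
  · exact h1

theorem srch_sound {Q : Prop} {leaf : ℕ → Bool} {x : S14}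
    (hleaf : ∀ T, Code T x → leaf T = true → Q) {A B : ℕ} {α β : S14} (hA : Code A α)
    (hB : Code B β) (hα : ∀ a, x (α a) = α (x a)) (hβ : ∀ a, x (β a) = β (x a)) (fuel : ℕ) :
    ∀ T p : ℕ, p ≤ 14 → Part T x → srch A B leaf fuel T p = true → Q := by
  induction fuel with
  | zero =>
    intro T p _ _ h
    exact absurd h (by unfold srch; decide)
  | succ fuel ih =>
    intro T p hp hT h
    unfold srch at h
    cases hb : Nat.beq p 14 with
    | true =>
      rw [hb] at h
      simp only at h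
      rw [Bool.and_eq_true] at h
      exact hleaf T (hT.code h.1) h.2
    | false =>
      rw [hb] at h
      simp only at h
      have hp14 : p ≠ 14 := by
        rintro rfl
        simp at hb
      have hp' : p < 14 := by omega
      cases hb2 : Nat.beq (lk T p) 15 with
      | true =>
        rw [hb2] at h
        simp only at h
        have h1 := allB_true h (x ⟨p, hp'⟩).val (x ⟨p, hp'⟩).2
        refine wk_sound (Q := Q) (x := x) ?_ 20 A B α β hA hB hα hβ T ⟨p, hp'⟩ hT h1
        intro T' hT' h2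
        exact ih T' (p + 1) (by omega) hT' h2
      | false =>
        rw [hb2] at h
        simp only at h
        exact ih T (p + 1) (by omega) hT h

theorem xorB_prod (n : ℕ) (f : ℕ → Bool) :
    ∏ i ∈ range n, (if f i = true then (-1 : ℤˣ) else 1) =
      if xorB n f = true then (-1 : ℤˣ) else 1 := by
  induction n with
  | zero => simp [xorB]
  | succ n ih =>
    rw [prod_range_succ, ih]
    change _ = if Bool.xor (f n) (xorB n f) = true then (-1 : ℤˣ) else 1
    cases f n <;> cases xorB n f <;> simp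

theorem oddT_sound {T : ℕ} {x : S14} (hT : Code T x) (h : oddT T = true) : sign x = -1 := by
  rw [Equiv.Perm.sign_eq_prod_prod_Iio]
  have h1 : ∀ j : Fin 14, ∏ i ∈ Finset.Iio j, (if x i < x j then (1 : ℤˣ) else -1) =
      ∏ i ∈ range j.val, (if Nat.ble (lk T j.val) (lk T i) = true then (-1 : ℤˣ) else 1) := by
    intro j
    have h2 : range j.val = (Finset.Iio j).map Fin.valEmbedding := by
      rw [Fin.map_valEmbedding_Iio]
      ext a
      simp
    rw [h2, prod_map]
    apply prod_congr rfl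
    intro i hi
    have e1 : lk T (Fin.valEmbedding i) = (x i).val := hT i
    have e2 : lk T j.val = (x j).val := hT j
    rw [e1, e2]
    by_cases hlt : x i < x j
    · rw [if_pos hlt, if_neg]
      intro hb
      have := Nat.le_of_ble_eq_true hb
      have hlt' : (x i).val < (x j).val := hlt
      omega
    · rw [if_neg hlt, if_pos]
      apply Nat.ble_eq_true_of_le
      exact not_lt.1 hlt
  rw [prod_congr rfl (fun j _ => h1 j)]
  rw [Fin.prod_univ_eq_prod_range (fun j => ∏ i ∈ range j,
    (if Nat.ble (lk T j) (lk T i) = true then (-1 : ℤˣ) else 1)) 14]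
  rw [prod_congr rfl (fun j _ => xorB_prod j (fun i => Nat.ble (lk T j) (lk T i)))]
  rw [xorB_prod 14 (fun j => xorB j (fun i => Nat.ble (lk T j) (lk T i)))]
  unfold oddT at h
  rw [h]
  simp

/-- conjugate by a power of `tau` -/
def ct (j : ℕ) (x : S14) : S14 := tau ^ j * x * (tau ^ j)⁻¹

theorem ct_inv {j i : ℕ} (h : i + j = 4) : (tau ^ j)⁻¹ = tau ^ i := by
  rw [inv_eq_iff_mul_eq_one, ← pow_add, Nat.add_comm, h, tau_four]

theorem ct_eq {j i : ℕ} (h : i + j = 4) (x : S14) : ct j x = tau ^ j * x * tau ^ i := by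
  unfold ct
  rw [ct_inv h]

theorem ct_ct (i j : ℕ) (x : S14) : ct i (ct j x) = ct (i + j) x := by
  unfold ct
  rw [pow_add]
  group

theorem ct_four (j : ℕ) (x : S14) : ct (j + 4) x = ct j x := by
  unfold ct
  rw [pow_add, tau_four]
  group

theorem ct_zero (x : S14) : ct 0 x = x := by
  unfold ct
  simp

theorem ct_sign (j : ℕ) (x : S14) : sign (ct j x) = sign x := by
  unfold ct
  rw [Perm.sign_mul, Perm.sign_mul, Perm.sign_inv, mul_comm, ← mul_assoc, Int.units_mul_self,
    one_mul]

theorem ct_ne {j : ℕ} {x : S14} (h : x ≠ 1) : ct j x ≠ 1 := by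
  intro h1
  apply h
  unfold ct at h1
  have : x = (tau ^ j)⁻¹ * (tau ^ j * x * (tau ^ j)⁻¹) * tau ^ j := by group
  rw [this, h1]
  group

theorem code_ct {T : ℕ} {x : S14} (hT : Code T x) {i j : ℕ} (hj : j < 4) (hi : i < 4)
    (h : i + j = 4) : Code (comp (Tc j) (comp T (Tc i))) (ct j x) := by
  rw [ct_eq h, mul_assoc]
  exact Code.mul (fun y => code_Tc ⟨j, hj⟩ y) (hT.mul (fun y => code_Tc ⟨i, hi⟩ y))

theorem leafA_sound {d T : ℕ} {x : S14} (hx : x ≠ 1) (he : sign x = 1) (hT : Code T x)
    (h : leafA d T = true) : ∃ j, ¬ Imp (ct j x) := by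
  unfold leafA at h
  rw [Bool.or_eq_true, Bool.or_eq_true] at h
  rcases h with (h | h) | h
  · exfalso
    rw [Nat.eq_of_beq_eq_true h] at hT
    exact hx (hT.unique code_one)
  · split at h
    · rw [Bool.or_eq_true, force_eq, force_eq] at h
      rcases h with h | h
      · exact ⟨2, notImp_sound (code_ct hT (by norm_num) (by norm_num) rfl) h⟩
      · exact ⟨3, notImp_sound (code_ct hT (by norm_num) (by norm_num) rfl) h⟩
    · rw [Bool.or_eq_true, force_eq, force_eq] at h
      rcases h with h | h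
      · exact ⟨1, notImp_sound (code_ct hT (by norm_num) (by norm_num) rfl) h⟩
      · exact ⟨3, notImp_sound (code_ct hT (by norm_num) (by norm_num) rfl) h⟩
  · exfalso
    have := oddT_sound hT h
    rw [he] at this
    exact absurd this (by decide)

theorem Part_T15 (x : S14) : Part T15 x := by
  intro p
  left
  revert p
  decide

theorem hc_aux {t x μ : S14} (h : ∀ a, (t * x * t⁻¹) (μ a) = μ ((t * x * t⁻¹) a)) (a : Fin 14) :
    x ((t⁻¹ * (μ * t)) a) = (t⁻¹ * (μ * t)) (x a) := by
  have h2 := h (t a)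
  rw [Perm.mul_apply, Perm.mul_apply, Perm.mul_apply, Perm.mul_apply] at h2
  have e1 : t⁻¹ (t a) = a := by simp
  rw [e1] at h2
  apply t.injective
  rw [Perm.mul_apply, Perm.mul_apply, Perm.mul_apply, Perm.mul_apply, h2]
  simp

theorem chkA_sound {d : ℕ} {m n : Fin 7} (hd : 0 < d) (hd4 : d < 4) {x : S14} (hx : x ≠ 1)
    (he : sign x = 1) (hm : Mp m x) (hn : Mp n (ct d x)) (h : chkA d m.val n.val = true) :
    ∃ j, ¬ Imp (ct j x) := by
  unfold chkA at h
  rw [force_eq] at h
  have hB : Code (comp (Tc (4 - d)) (comp (MU n.val) (Tc d))) (tau ^ (4 - d) * (muk n * tau ^ d)) :=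
    Code.mul (fun y => code_Tc ⟨4 - d, by omega⟩ y)
      (Code.mul (code_MU n) (fun y => code_Tc ⟨d, hd4⟩ y))
  have e1 : (tau ^ d)⁻¹ = tau ^ (4 - d) := ct_inv (by omega)
  have hc := hc_aux hn
  rw [e1] at hc
  exact srch_sound (Q := ∃ j, ¬ Imp (ct j x)) (x := x)
    (fun T hT h1 => leafA_sound (d := d) hx he hT h1)
    (code_MU m) hB hm hc 15 T15 0 (by norm_num) (Part_T15 x) h

/-- the two sides -/
theorem Wp.iff {y : S14} (h : Wp y) (a b : Fin 14) :
    (a.val < 7 ↔ b.val < 7) ↔ ((y a).val < 7 ↔ (y b).val < 7) := by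
  constructor
  · exact h a b
  · intro h1
    by_contra hne
    have key : ∀ c : Fin 14, ((y c).val < 7 ↔ (y a).val < 7) := by
      intro c
      by_cases hc : (c.val < 7 ↔ a.val < 7)
      · exact h c a hc
      · have hc' : (c.val < 7 ↔ b.val < 7) := by tauto
        exact (h c b hc').trans h1.symm
    have k1 := key (y⁻¹ 0)
    have k2 := key (y⁻¹ 7)
    rw [show y (y⁻¹ 0) = 0 by simp] at k1
    rw [show y (y⁻¹ 7) = 7 by simp] at k2
    have e1 : ((0 : Fin 14) : ℕ) < 7 := by decide
    have e2 : ¬ ((7 : Fin 14) : ℕ) < 7 := by decide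
    exact e2 (k2.2 (k1.1 e1))

theorem okp_aux {t x : S14} (h : Wp (t * x * t⁻¹)) (p q : Fin 14) :
    ((t p).val < 7 ↔ (t q).val < 7) ↔ ((t (x p)).val < 7 ↔ (t (x q)).val < 7) := by
  have h2 := h.iff (t p) (t q)
  rw [Perm.mul_apply, Perm.mul_apply, Perm.mul_apply, Perm.mul_apply] at h2
  have e1 : t⁻¹ (t p) = p := by simp
  have e2 : t⁻¹ (t q) = q := by simp
  rw [e1, e2] at h2
  exact h2

theorem ble_eq (n : ℕ) : Nat.ble 7 n = !(decide (n < 7)) := by
  by_cases hn : n < 7
  · rw [ble_false.2 hn]; simp [hn]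
  · rw [ble_true.2 hn]; simp [hn]

theorem okp_aux2 {x : S14} {j : ℕ} (hj : j < 4) (h : Wp (ct j x)) (p : Fin 14) :
    (!(Bool.xor (Bool.xor (Nat.ble 7 (lk (Tc j) p)) (Nat.ble 7 (lk (Tc j) 0)))
      (Bool.xor (Nat.ble 7 (lk (Tc j) (x p))) (Nat.ble 7 (lk (Tc j) (x 0)))))) = true := by
  have h4 := okp_aux h p 0
  have e : ∀ q : Fin 14, lk (Tc j) q = ((tau ^ j) q).val := fun q => code_Tc ⟨j, hj⟩ q
  have e0 : lk (Tc j) 0 = ((tau ^ j) 0).val := e 0
  rw [e p, e0, e (x p), e (x 0)]
  rw [ble_eq, ble_eq, ble_eq, ble_eq]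
  generalize ((tau ^ j) p).val = a1 at *
  generalize ((tau ^ j) 0).val = a2 at *
  generalize ((tau ^ j) (x p)).val = a3 at *
  generalize ((tau ^ j) (x 0)).val = a4 at *
  clear e e0 h
  by_cases c1 : a1 < 7 <;> by_cases c2 : a2 < 7 <;>
  by_cases c3 : a3 < 7 <;> by_cases c4 : a4 < 7 <;>
  simp [c1, c2, c3, c4] at h4 ⊢

theorem okp_true {x : S14} (h1 : Wp (ct 1 x)) (h2 : Wp (ct 2 x)) (h3 : Wp (ct 3 x))
    (p : Fin 14) : okp p.val (x p).val (x 0).val = true := by
  have k1 := okp_aux2 (by norm_num) h1 p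
  have k2 := okp_aux2 (by norm_num) h2 p
  have k3 := okp_aux2 (by norm_num) h3 p
  unfold okp allB allB allB allB
  simp only [Nat.zero_add, Nat.reduceAdd]
  rw [k1, k2, k3]
  rfl

theorem srchB_sound {Q : Prop} {x : S14} (hx : x ≠ 1) (he : sign x = 1)
    (hQ : ¬ Imp x → Q)
    (hok : ∀ p : Fin 14, okp p.val (x p).val (x 0).val = true) (fuel : ℕ) :
    ∀ T p : ℕ, p ≤ 14 → Part T x → (∀ q : Fin 14, q.val < p → lk T q = (x q).val) →
    (∀ q : Fin 14, p ≤ q.val → lk T q = 15) → srchB (x 0).val fuel T p = true → Q := by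
  induction fuel with
  | zero =>
    intro T p _ _ _ _ h
    exact absurd h (by unfold srchB; decide)
  | succ fuel ih =>
    intro T p hp hT h1 h2 h
    unfold srchB at h
    cases hb : Nat.beq p 14 with
    | true =>
      rw [hb] at h
      simp only at h
      have hp14 := Nat.eq_of_beq_eq_true hb
      have hC : Code T x := fun q => h1 q (by omega)
      rw [Bool.or_eq_true, Bool.or_eq_true] at h
      rcases h with (h | h) | h
      · exfalso
        rw [Nat.eq_of_beq_eq_true h] at hC
        exact hx (hC.unique code_one)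
      · exact hQ (notImp_sound hC h)
      · exfalso
        have := oddT_sound hC h
        rw [he] at this
        exact absurd this (by decide)
    | false =>
      rw [hb] at h
      simp only at h
      have hp14 : p ≠ 14 := by
        rintro rfl
        simp at hb
      have hp' : p < 14 := by omega
      have h3 := allB_true h (x ⟨p, hp'⟩).val (x ⟨p, hp'⟩).2
      have h4 : lk T (⟨p, hp'⟩ : Fin 14) = 15 := h2 _ (le_refl _)
      rw [usd_false hT h4] at h3
      have h5 := hok ⟨p, hp'⟩
      simp only at h5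
      rw [h5] at h3
      simp only [Bool.not_true, Bool.or_false] at h3
      rw [force_eq] at h3
      refine ih _ (p + 1) (by omega) (hT.setd ⟨p, hp'⟩) ?_ ?_ h3
      · intro q hq
        rw [lk_setd _ _ _ _ (by omega) q.2]
        by_cases hqp : q = ⟨p, hp'⟩
        · rw [if_pos (by rw [hqp]), hqp]
        · have hqp' : q.val ≠ p := fun h => hqp (Fin.ext h)
          rw [if_neg hqp']
          exact h1 q (by omega)
      · intro q hq
        rw [lk_setd _ _ _ _ (by omega) q.2]
        simp only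
        rw [if_neg (by omega)]
        exact h2 q (by omega)

theorem chkB_sound {x : S14} (hx : x ≠ 1) (he : sign x = 1) (h1 : Wp (ct 1 x))
    (h2 : Wp (ct 2 x)) (h3 : Wp (ct 3 x)) (h4 : chkB (x 0).val = true) : ¬ Imp x := by
  unfold chkB at h4
  rw [force_eq] at h4
  refine srchB_sound (Q := ¬ Imp x) hx he (fun h => h) (okp_true h1 h2 h3) 14 _ 1 (by norm_num)
    ((Part_T15 x).setd 0) ?_ ?_ h4
  · intro q hq
    have hq0 : q = 0 := Fin.ext (by simp only [Fin.val_zero]; omega)
    subst hq0
    rw [lk_setd _ _ _ _ (by omega) (by decide)]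
    simp
  · intro q hq
    rw [lk_setd _ _ _ _ (by omega) q.2, if_neg]
    · have := Part_T15 x
      revert hq
      clear h1 h2 h3 h4 this
      revert q
      decide
    · simp only [Fin.val_zero]
      omega

end Pool.Agent.Lib.MP_6f5538_al
end

section

/-!
No nontrivial even permutation lies in imprimitive overgroups of all four conjugates of `s0`.
-/

namespace Pool.Agent.Lib.MP_6f5538_al

open Equiv Equiv.Perm Subgroup

theorem chkA1_all (m : Fin 7) : allB 7 (fun n => chkA 1 m.val n) = true := by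
  obtain ⟨m, hm⟩ := m
  interval_cases m
  · exact chkA1_0
  · exact chkA1_1
  · exact chkA1_2
  · exact chkA1_3
  · exact chkA1_4
  · exact chkA1_5
  · exact chkA1_6

theorem chkA2_all (m : Fin 7) : allB 7 (fun n => chkA 2 m.val n) = true := by
  obtain ⟨m, hm⟩ := m
  interval_cases m
  · exact chkA2_0
  · exact chkA2_1
  · exact chkA2_2
  · exact chkA2_3
  · exact chkA2_4
  · exact chkA2_5
  · exact chkA2_6

theorem chkB_all (v : ℕ) (hv : v < 14) : chkB v = true := by
  interval_cases v
  · exact chkB_0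
  · exact chkB_1
  · exact chkB_2
  · exact chkB_3
  · exact chkB_4
  · exact chkB_5
  · exact chkB_6
  · exact chkB_7
  · exact chkB_8
  · exact chkB_9
  · exact chkB_10
  · exact chkB_11
  · exact chkB_12
  · exact chkB_13

/-- commutes with one of the seven matchings -/
def MM (x : S14) : Prop := ∃ k, Mp k x

theorem two_match {d : ℕ} (hd : d = 1 ∨ d = 2) {x : S14} (hx : x ≠ 1) (he : sign x = 1)
    (h0 : MM x) (h1 : MM (ct d x)) : ∃ j, ¬ Imp (ct j x) := by
  obtain ⟨m, hm⟩ := h0
  obtain ⟨n, hn⟩ := h1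
  rcases hd with rfl | rfl
  · exact chkA_sound (by norm_num) (by norm_num) hx he hm hn
      (allB_true (chkA1_all m) n.val n.2)
  · exact chkA_sound (by norm_num) (by norm_num) hx he hm hn
      (allB_true (chkA2_all m) n.val n.2)

theorem imp_escape {x : S14} (hx : x ≠ 1) (he : sign x = 1) :
    ∃ j : ℕ, j < 4 ∧ ¬ Imp (ct j x) := by
  by_contra hcon
  push Not at hcon
  have hall : ∀ j, Imp (ct j x) := by
    intro j
    have h1 : ∀ q r : ℕ, ct (r + 4 * q) x = ct r x := by
      intro q r
      induction q with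
      | zero => rfl
      | succ q ih => rw [Nat.mul_succ, ← Nat.add_assoc, ct_four, ih]
    rw [← Nat.mod_add_div j 4, h1]
    exact hcon _ (Nat.mod_lt _ (by norm_num))
  have hA : ∀ i d : ℕ, (d = 1 ∨ d = 2) → MM (ct i x) → MM (ct (d + i) x) → False := by
    intro i d hd h0 h1
    rw [← ct_ct] at h1
    obtain ⟨j, hj⟩ := two_match hd (ct_ne (j := i) hx) (by rw [ct_sign]; exact he) h0 h1
    apply hj
    rw [ct_ct]
    exact hall _
  have hB : ∀ i : ℕ, ¬ MM (ct (1 + i) x) → ¬ MM (ct (2 + i) x) → ¬ MM (ct (3 + i) x) →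
      False := by
    intro i h1 h2 h3
    have hW : ∀ j, ¬ MM (ct (j + i) x) → Wp (ct j (ct i x)) := by
      intro j hj
      rw [ct_ct]
      rcases hall (j + i) with h | h
      · exact h
      · exact absurd h hj
    exact chkB_sound (ct_ne (j := i) hx) (by rw [ct_sign]; exact he) (hW 1 h1) (hW 2 h2) (hW 3 h3)
      (chkB_all _ (ct i x 0).2) (hall i)
  have c4 : ct 4 x = ct 0 x := ct_four 0 x
  have c5 : ct 5 x = ct 1 x := ct_four 1 x
  have c6 : ct 6 x = ct 2 x := ct_four 2 x
  by_cases m0 : MM (ct 0 x)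
  · have m1 : ¬ MM (ct 1 x) := fun h => hA 0 1 (Or.inl rfl) m0 h
    have m2 : ¬ MM (ct 2 x) := fun h => hA 0 2 (Or.inr rfl) m0 h
    have m3 : ¬ MM (ct 3 x) := fun h => hA 3 1 (Or.inl rfl) h (by
      have : ct (1 + 3) x = ct 0 x := c4
      rw [this]; exact m0)
    exact hB 0 m1 m2 m3
  · by_cases m1 : MM (ct 1 x)
    · have m2 : ¬ MM (ct 2 x) := fun h => hA 1 1 (Or.inl rfl) m1 h
      have m3 : ¬ MM (ct 3 x) := fun h => hA 1 2 (Or.inr rfl) m1 h
      exact hB 1 m2 m3 (by
        have : ct (3 + 1) x = ct 0 x := c4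
        rw [this]; exact m0)
    · by_cases m2 : MM (ct 2 x)
      · have m3 : ¬ MM (ct 3 x) := fun h => hA 2 1 (Or.inl rfl) m2 h
        exact hB 2 m3 (by
          have : ct (2 + 2) x = ct 0 x := c4
          rw [this]; exact m0) (by
          have : ct (3 + 2) x = ct 1 x := c5
          rw [this]; exact m1)
      · exact hB 3 (by
          have : ct (1 + 3) x = ct 0 x := c4
          rw [this]; exact m0) (by
          have : ct (2 + 3) x = ct 1 x := c5
          rw [this]; exact m1) (by
          have : ct (3 + 3) x = ct 2 x := c6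
          rw [this]; exact m2)

end Pool.Agent.Lib.MP_6f5538_al
end
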