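import Pool.Agent.Lib.MP_6f5538_al.Setup

/-!
A primitive group of degree 14 not containing the alternating group has no elements that are
cycles of length 3, 5 or 7.
-/

namespace Pool.Agent.Lib.MP_6f5538_al

open Equiv Equiv.Perm Subgroup MulAction

/-- The commutator of two permutations whose supports meet in exactly one point is a 3-cycle. -/
theorem isThreeCycle_comm {g h : S14} (a : Fin 14) (hga : g a ≠ a) (hha : h a ≠ a)
    (hd : ∀ x, g x ≠ x → h x ≠ x → x = a) : IsThreeCycle (g * h * g⁻¹ * h⁻¹) := by
  have hAg : g (g a) ≠ g a := fun h => hga (g.injective h)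
  have hBh : h (h a) ≠ h a := fun h' => hha (h.injective h')
  have e1 : h (g a) = g a := by
    by_contra hc; exact hga (hd _ hAg hc)
  have e2 : g (h a) = h a := by
    by_contra hc; exact hha (hd _ hc hBh)
  have hne : h a ≠ g a := by
    intro hc
    rw [← hc] at hAg
    exact hAg e2
  have fixg : ∀ x, g x ≠ x → x ≠ a → h x = x := by
    intro x h1 h2; by_contra hc; exact h2 (hd x h1 hc)
  have fixh : ∀ x, h x ≠ x → x ≠ a → g x = x := by
    intro x h1 h2; by_contra hc; exact h2 (hd x hc h1)
  -- inverse images of `a`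
  have key : g * h * g⁻¹ * h⁻¹ = swap a (h a) * swap a (g a) := by
    ext x
    congr 1
    simp only [Perm.mul_apply]
    obtain ⟨y, rfl⟩ := h.surjective x
    rw [Perm.inv_def, Perm.inv_def, Equiv.symm_apply_apply]
    obtain ⟨z, rfl⟩ := g.surjective y
    rw [Equiv.symm_apply_apply]
    -- goal : g (h z) = swap a (h a) (swap a (g a) (h (g z)))
    by_cases hz : z = a
    · subst hz
      rw [e1, swap_apply_right, swap_apply_left, e2]
    · by_cases h1 : g z = z
      · rw [h1]
        by_cases h2 : h z = z
        · rw [h2, h1]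
          have h3 : z ≠ g a := fun hc => hz (g.injective (h1.trans hc))
          rw [swap_apply_of_ne_of_ne hz h3, swap_apply_of_ne_of_ne hz]
          exact fun hc => hz (h.injective (h2.trans hc))
        · by_cases h3 : h z = a
          · rw [h3, swap_apply_left, swap_apply_of_ne_of_ne hga hne.symm]
          · have h4 : h (h z) ≠ h z := fun hc => h2 (h.injective hc)
            have h5 : g (h z) = h z := fixh _ h4 h3
            rw [h5]
            have h6 : h z ≠ g a := fun hc => h2 (by rw [← e1] at hc; exact absurd (h.injective hc) (fun h7 => h4 (by rw [h7] at *; simp_all)))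
            rw [swap_apply_of_ne_of_ne h3 h6, swap_apply_of_ne_of_ne h3]
            exact fun hc => hz (h.injective hc)
      · have h2 : h z = z := fixg z h1 hz
        rw [h2]
        by_cases h3 : g z = a
        · rw [h3, swap_apply_of_ne_of_ne hha hne, swap_apply_right]
        · have h4 : g (g z) ≠ g z := fun hc => h1 (g.injective hc)
          have h5 : h (g z) = g z := fixg _ h4 h3
          rw [h5]
          have h6 : g z ≠ g a := fun hc => hz (g.injective hc)
          rw [swap_apply_of_ne_of_ne h3 h6, swap_apply_of_ne_of_ne h3]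
          intro hc
          rw [hc] at h4
          exact h4 e2
  rw [key]
  exact isThreeCycle_swap_mul_swap_same (Ne.symm hha) (Ne.symm hga) hne

theorem Hyp.no_three {G : Subgroup S14} (h : Hyp G) {g : S14} (hg : g ∈ G) :
    ¬ IsThreeCycle g := fun h3 =>
  h.notA (alternatingGroup_le_of_isPreprimitive_of_isThreeCycle_mem h.isPreprimitive h3 hg)

/-- Jordan: a primitive group containing a cycle of prime length is highly transitive. -/
theorem Hyp.multTrans {G : Subgroup S14} (h : Hyp G) {g : S14} (hg : g ∈ G) (hc : g.IsCycle)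
    (hp : (g.support.card).Prime) {n m : ℕ} (hn : n + 1 + g.support.card = 14)
    (hm : m ≤ n + 2) (hn2 : n + 2 < 14) : IsMultiplyPretransitive G (Fin 14) m := by
  have hmp : IsMultiplyPreprimitive G (Fin 14) (n + 2) := by
    apply h.isPreprimitive.isMultiplyPreprimitive (s := (g.supportᶜ : Set (Fin 14)))
    · apply Nat.add_left_cancel (n := Set.ncard (g.support : Set (Fin 14)))
      rw [Set.ncard_add_ncard_compl, Set.ncard_coe_finset]
      simp only [Nat.card_eq_fintype_card, Fintype.card_fin]
      omega
    · simpa using hn2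
    · have := isPretransitive_of_isCycle_mem hc hg
      apply IsPreprimitive.of_prime_card
      have h1 : Nat.card (SubMulAction.ofFixingSubgroup G (g.supportᶜ : Set (Fin 14)))
          = g.support.card := by
        refine Nat.subtype_card g.support (fun x => ?_)
        change x ∈ g.support ↔
          x ∈ SubMulAction.ofFixingSubgroup G (g.supportᶜ : Set (Fin 14))
        simp [SubMulAction.mem_ofFixingSubgroup_iff]
      rw [h1]
      exact hp
  have : IsMultiplyPretransitive G (Fin 14) (n + 2) :=
    IsMultiplyPreprimitive.isMultiplyPretransitive ..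
  exact isMultiplyPretransitive_of_le hm (by simp only [Nat.card_eq_fintype_card, Fintype.card_fin]; omega)

/-- the standard 7-cycle -/
def c7 : S14 := List.formPerm [0, 1, 2, 3, 4, 5, 6]
/-- the standard 5-cycle -/
def c5 : S14 := List.formPerm [0, 1, 2, 3, 4]

theorem c7_cycle : c7.IsCycle := List.isCycle_formPerm (by decide) (by decide)
theorem c5_cycle : c5.IsCycle := List.isCycle_formPerm (by decide) (by decide)
theorem c7_support : c7.support = {0, 1, 2, 3, 4, 5, 6} := by
  unfold c7
  rw [List.support_formPerm_of_nodup _ (by decide) (by decide)]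
  decide
theorem c5_support : c5.support = {0, 1, 2, 3, 4} := by
  unfold c5
  rw [List.support_formPerm_of_nodup _ (by decide) (by decide)]
  decide
theorem c7_type : c7.cycleType = {7} := by
  rw [c7_cycle.cycleType, c7_support]; rfl
theorem c5_type : c5.cycleType = {5} := by
  rw [c5_cycle.cycleType, c5_support]; rfl

/-- embedding given by a table -/
def emb7a : Fin 7 ↪ Fin 14 := ⟨![0, 1, 2, 3, 4, 5, 6], by decide⟩
/-- embedding given by a table -/
def emb7b : Fin 7 ↪ Fin 14 := ⟨![0, 7, 8, 9, 10, 11, 12], by decide⟩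
/-- embedding given by a table -/
def emb5a : Fin 5 ↪ Fin 14 := ⟨![0, 1, 2, 3, 4], by decide⟩
/-- embedding given by a table -/
def emb5b : Fin 5 ↪ Fin 14 := ⟨![0, 7, 8, 9, 10], by decide⟩

theorem Hyp.no_cycle_aux {G : Subgroup S14} (h : Hyp G) {p : ℕ} {c : S14} (hc : c ∈ G)
    (ea eb : Fin p ↪ Fin 14) (hmt : IsMultiplyPretransitive G (Fin 14) p) (i0 : Fin p)
    (ha0 : ea i0 = 0) (hb0 : eb i0 = 0) (c0 : c 0 ≠ 0)
    (hrange : ∀ y ∈ c.support, ∃ i, ea i = y) (hdisj : ∀ i, eb i ∈ c.support → eb i = 0) :
    False := by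
  obtain ⟨⟨k, hkG⟩, hk⟩ := hmt.exists_smul_eq ea eb
  have hk' : ∀ i : Fin p, k (ea i) = eb i := by
    intro i
    have := congrArg (fun e => e i) hk
    exact this
  have h0 : k 0 = 0 := by
    have := hk' i0
    rwa [ha0, hb0] at this
  have h3 : IsThreeCycle (c * (k * c * k⁻¹) * c⁻¹ * (k * c * k⁻¹)⁻¹) := by
    apply isThreeCycle_comm 0 c0
    · simp only [Perm.mul_apply]
      have h4 : k⁻¹ 0 = 0 := by
        rw [Perm.inv_eq_iff_eq]; exact h0.symm
      rw [h4]
      intro hc1
      have h2 : k (c 0) = k 0 := by rw [hc1, h0]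
      exact c0 (k.injective h2)
    · intro x hx1 hx2
      have hx1' : x ∈ c.support := Perm.mem_support.2 hx1
      have hx2' : k⁻¹ x ∈ c.support := by
        rw [Perm.mem_support]
        intro hc1
        apply hx2
        simp only [Perm.mul_apply]
        rw [hc1]
        simp
      obtain ⟨i, hi⟩ := hrange _ hx2'
      have hx : x = eb i := by
        rw [← hk' i, hi]; simp
      subst hx
      exact hdisj i hx1'
  refine h.no_three ?_ h3
  have h1 : k * c * k⁻¹ ∈ G := G.mul_mem (G.mul_mem hkG hc) (G.inv_mem hkG)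
  exact G.mul_mem (G.mul_mem (G.mul_mem hc h1) (G.inv_mem hc)) (G.inv_mem h1)

theorem Hyp.no_c7 {G : Subgroup S14} (h : Hyp G) : c7 ∉ G := by
  intro hc
  have hcard : c7.support.card = 7 := by rw [c7_support]; rfl
  have hmt : IsMultiplyPretransitive G (Fin 14) 7 :=
    h.multTrans hc c7_cycle (by rw [hcard]; norm_num) (n := 6) (by rw [hcard]) (by norm_num)
      (by norm_num)
  refine h.no_cycle_aux hc emb7a emb7b hmt 0 rfl rfl (by decide) ?_ ?_
  · rw [c7_support]; decide
  · rw [c7_support]; decide

theorem Hyp.no_c5 {G : Subgroup S14} (h : Hyp G) : c5 ∉ G := by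
  intro hc
  have hcard : c5.support.card = 5 := by rw [c5_support]; rfl
  have hmt : IsMultiplyPretransitive G (Fin 14) 5 :=
    h.multTrans hc c5_cycle (by rw [hcard]; norm_num) (n := 8) (by rw [hcard]) (by norm_num)
      (by norm_num)
  refine h.no_cycle_aux hc emb5a emb5b hmt 0 rfl rfl (by decide) ?_ ?_
  · rw [c5_support]; decide
  · rw [c5_support]; decide

/-- conjugating an element of a given cycle type to a standard one -/
theorem exists_cj_mem {G : Subgroup S14} {g c : S14} (hg : g ∈ G)
    (ht : g.cycleType = c.cycleType) : ∃ π : S14, c ∈ cj π G := by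
  have h1 : IsConj g c := isConj_iff_cycleType_eq.2 ht
  obtain ⟨π, hπ⟩ := isConj_iff.1 h1
  exact ⟨π, by rw [← hπ]; exact conj_mem_cj hg⟩

theorem Hyp.no_type7 {G : Subgroup S14} (h : Hyp G) {g : S14} (hg : g ∈ G) :
    g.cycleType ≠ {7} := by
  intro ht
  obtain ⟨π, hπ⟩ := exists_cj_mem hg (ht.trans c7_type.symm)
  exact (h.cj π).no_c7 hπ

theorem Hyp.no_type5 {G : Subgroup S14} (h : Hyp G) {g : S14} (hg : g ∈ G) :
    g.cycleType ≠ {5} := by
  intro ht
  obtain ⟨π, hπ⟩ := exists_cj_mem hg (ht.trans c5_type.symm)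
  exact (h.cj π).no_c5 hπ

end Pool.Agent.Lib.MP_6f5538_al
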