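import Pool.Agent.Lib.MP_6f5538_al.ICheck

/-!
The total dominating set of size 4.
-/

namespace Pool.Agent.Lib.MP_6f5538_al

open Equiv Equiv.Perm Subgroup

theorem alt_or {x : S14} (he : sign x = 1) (h1 : ¬ Imp x)
    (h2 : ¬ Hyp (closure {x, s0})) : alternatingGroup (Fin 14) ≤ closure {x, s0} := by
  by_contra hA
  have hs : s0 ∈ closure {x, s0} := subset_closure (by simp)
  have hx : x ∈ closure {x, s0} := subset_closure (by simp)
  have hev : ∀ g ∈ closure {x, s0}, sign g = 1 := by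
    intro g hg
    have hle : closure {x, s0} ≤ alternatingGroup (Fin 14) := by
      rw [closure_le]
      rintro y (rfl | rfl)
      · exact he
      · change sign s0 = 1
        decide +kernel
    exact hle hg
  rcases dichotomy hs hev hA with h | h
  · exact h2 h
  · exact h1 (h x hx)

/-- some conjugate of `x` under a power of `tau` generates the alternating group with `s0` -/
theorem exists_gen {x : S14} (hx : x ≠ 1) (he : sign x = 1) :
    ∃ j : ℕ, j < 4 ∧ alternatingGroup (Fin 14) ≤ closure {ct j x, s0} := by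
  have hred : ∀ j, alternatingGroup (Fin 14) ≤ closure {ct j x, s0} →
      ∃ j : ℕ, j < 4 ∧ alternatingGroup (Fin 14) ≤ closure {ct j x, s0} := by
    intro j hj
    have h1 : ∀ q r : ℕ, ct (r + 4 * q) x = ct r x := by
      intro q r
      induction q with
      | zero => rfl
      | succ q ih => rw [Nat.mul_succ, ← Nat.add_assoc, ct_four, ih]
    rw [← Nat.mod_add_div j 4, h1] at hj
    exact ⟨j % 4, Nat.mod_lt _ (by norm_num), hj⟩
  by_cases hH : ∃ j, Hyp (closure {ct j x, s0})
  · obtain ⟨j, hj⟩ := hH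
    obtain ⟨i, -, h1, h2⟩ := prim_escape (ct_ne hx) hj
    have h3 := alt_or (x := ct i (ct j x)) (by rw [ct_sign, ct_sign]; exact he) h1 h2
    rw [ct_ct] at h3
    exact hred _ h3
  · push Not at hH
    obtain ⟨j, hj4, hj⟩ := imp_escape hx he
    exact ⟨j, hj4, alt_or (by rw [ct_sign]; exact he) hj (hH j)⟩

/-- the four elements -/
def sj (j : ℕ) : S14 := (tau ^ j)⁻¹ * s0 * tau ^ j

theorem exists_gen' {x : S14} (hx : x ≠ 1) (he : sign x = 1) :
    ∃ j : ℕ, j < 4 ∧ alternatingGroup (Fin 14) ≤ closure {x, sj j} := by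
  obtain ⟨j, hj, h⟩ := exists_gen hx he
  refine ⟨j, hj, fun g hg => ?_⟩
  have h1 : tau ^ j * g * (tau ^ j)⁻¹ ∈ alternatingGroup (Fin 14) := by
    rw [mem_alternatingGroup] at hg ⊢
    rw [Perm.sign_mul, Perm.sign_mul, Perm.sign_inv, hg, mul_one, Int.units_mul_self]
  have h2 := h h1
  have h3 : closure {ct j x, s0} ≤ cj (tau ^ j) (closure {x, sj j}) := by
    rw [closure_le]
    rintro y (rfl | rfl)
    · exact conj_mem_cj (subset_closure (by simp))
    · have h4 : (tau ^ j) * sj j * (tau ^ j)⁻¹ ∈ cj (tau ^ j) (closure {x, sj j}) :=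
        conj_mem_cj (subset_closure (by simp))
      have h5 : (tau ^ j) * sj j * (tau ^ j)⁻¹ = s0 := by unfold sj; group
      rw [h5] at h4
      exact h4
  have h4 := mem_cj.1 (h3 h2)
  have h5 : (tau ^ j)⁻¹ * (tau ^ j * g * (tau ^ j)⁻¹) * tau ^ j = g := by group
  rw [h5] at h4
  exact h4

theorem s0_sign : sign s0 = 1 := by decide +kernel
theorem tau_sign : sign tau = -1 := by decide +kernel

theorem sj_mem (j : ℕ) : sj j ∈ alternatingGroup (Fin 14) := by
  rw [mem_alternatingGroup]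
  unfold sj
  rw [Perm.sign_mul, Perm.sign_mul, Perm.sign_inv, s0_sign, mul_one, Int.units_mul_self]

/-- the four elements in the alternating group -/
def sA (j : ℕ) : alternatingGroup (Fin 14) := ⟨sj j, sj_mem j⟩

theorem muk_comm : muk 0 * s0 = s0 * muk 0 := by
  ext x; revert x; decide +kernel

theorem sA_conj (j : ℕ) : IsConj (sA 0) (sA j) := by
  have h1 : (tau ^ j)⁻¹ * (muk 0) ^ j ∈ alternatingGroup (Fin 14) := by
    rw [mem_alternatingGroup, Perm.sign_mul, Perm.sign_inv, map_pow, map_pow, tau_sign, muk_sign,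
      Int.units_mul_self]
  have hc : ∀ j : ℕ, (muk 0) ^ j * s0 = s0 * (muk 0) ^ j := by
    intro j
    induction j with
    | zero => simp
    | succ j ih => rw [pow_succ, mul_assoc, muk_comm, ← mul_assoc, ih, mul_assoc]
  rw [isConj_iff]
  refine ⟨⟨_, h1⟩, Subtype.ext ?_⟩
  simp only [Subgroup.coe_mul, InvMemClass.coe_inv]
  change (tau ^ j)⁻¹ * (muk 0) ^ j * ((tau ^ 0)⁻¹ * s0 * tau ^ 0) * ((tau ^ j)⁻¹ * (muk 0) ^ j)⁻¹
    = (tau ^ j)⁻¹ * s0 * tau ^ j
  rw [pow_zero, inv_one, one_mul, mul_one, mul_assoc (tau ^ j)⁻¹ (muk 0 ^ j), hc j]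
  group

theorem sA_tds (x : alternatingGroup (Fin 14)) (hx : x ≠ 1) :
    ∃ j < 4, closure {x, sA j} = ⊤ := by
  obtain ⟨j, hj, h⟩ := exists_gen' (x := x.val) (fun h => hx (Subtype.ext h))
    (mem_alternatingGroup.1 x.2)
  refine ⟨j, hj, ?_⟩
  rw [eq_top_iff]
  have h1 : (⊤ : Subgroup (alternatingGroup (Fin 14))).map (alternatingGroup (Fin 14)).subtype ≤
      (closure {x, sA j}).map (alternatingGroup (Fin 14)).subtype := by
    rw [MonoidHom.map_closure, Set.image_pair]
    rintro y ⟨z, -, rfl⟩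
    exact h z.2
  exact (Subgroup.map_le_map_iff_of_injective (Subgroup.subtype_injective _)).1 h1

end Pool.Agent.Lib.MP_6f5538_al
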