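import Pool.Agent.Lib.MP_6f5538_al.NDefs

/-!
Primitive subgroups of the alternating group of degree 14 in elementary terms.
-/

namespace Pool.Agent.Lib.MP_6f5538_al

open Equiv Equiv.Perm Subgroup MulAction
open scoped Pointwise

/-- permutations of 14 points -/
abbrev S14 := Equiv.Perm (Fin 14)

/-- `G` preserves no equivalence relation except equality and the full relation. -/
def Prim (G : Subgroup S14) : Prop :=
  ∀ R : Fin 14 → Fin 14 → Prop, Equivalence R →
    (∀ g ∈ G, ∀ a b, R a b → R (g a) (g b)) →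
    (∀ a b, R a b → a = b) ∨ (∀ a b, R a b)

/-- A primitive group of even permutations of degree 14 that does not contain the alternating
group and contains a product of two disjoint 7-cycles. -/
structure Hyp (G : Subgroup S14) : Prop where
  prim : Prim G
  even : ∀ g ∈ G, sign g = 1
  notA : ¬ alternatingGroup (Fin 14) ≤ G
  seven : ∃ s ∈ G, s.cycleType = {7, 7}

/-- conjugate subgroup -/
def cj (π : S14) (G : Subgroup S14) : Subgroup S14 := G.map (MulAut.conj π).toMonoidHom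

theorem mem_cj {π : S14} {G : Subgroup S14} {g : S14} : g ∈ cj π G ↔ π⁻¹ * g * π ∈ G := by
  constructor
  · rintro ⟨x, hx, rfl⟩
    simpa [MulAut.conj_apply, mul_assoc] using hx
  · intro h
    refine ⟨π⁻¹ * g * π, h, ?_⟩
    simp [MulAut.conj_apply, mul_assoc]

theorem conj_mem_cj {π : S14} {G : Subgroup S14} {g : S14} (h : g ∈ G) :
    π * g * π⁻¹ ∈ cj π G := by
  rw [mem_cj]
  simpa [mul_assoc] using h

theorem card_cj (π : S14) (G : Subgroup S14) : Nat.card (cj π G) = Nat.card G := by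
  unfold cj
  exact (Nat.card_congr (G.equivMapOfInjective _ (MulAut.conj π).injective).toEquiv).symm

theorem Prim.cj {G : Subgroup S14} (h : Prim G) (π : S14) : Prim (cj π G) := by
  intro R hR hinv
  have h1 := h (fun a b => R (π a) (π b))
    ⟨fun a => hR.refl _, fun h => hR.symm h, fun h h' => hR.trans h h'⟩ ?_
  · rcases h1 with h1 | h1
    · left
      intro a b hab
      have := h1 (π⁻¹ a) (π⁻¹ b) (by simpa using hab)
      simpa using congrArg π this
    · right
      intro a b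
      simpa using h1 (π⁻¹ a) (π⁻¹ b)
  · intro g hg a b hab
    have := hinv _ (conj_mem_cj (π := π) hg) _ _ hab
    simpa using this

theorem Hyp.cj {G : Subgroup S14} (h : Hyp G) (π : S14) : Hyp (cj π G) where
  prim := h.prim.cj π
  even := by
    intro g hg
    have h1 := h.even _ (mem_cj.1 hg)
    rw [Perm.sign_mul, Perm.sign_mul, Perm.sign_inv, mul_comm, ← mul_assoc,
      Int.units_mul_self, one_mul] at h1
    exact h1
  notA := by
    intro h1
    apply h.notA
    intro g hg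
    have h2 : π * g * π⁻¹ ∈ alternatingGroup (Fin 14) := by
      rw [mem_alternatingGroup] at hg ⊢
      simp [Perm.sign_mul, hg]
    have h3 := mem_cj.1 (h1 h2)
    simpa [mul_assoc] using h3
  seven := by
    obtain ⟨s, hs, hs7⟩ := h.seven
    exact ⟨π * s * π⁻¹, conj_mem_cj hs, by rw [cycleType_conj, hs7]⟩

theorem Hyp.exists_ne {G : Subgroup S14} (h : Hyp G) : ∃ g ∈ G, g ≠ 1 := by
  obtain ⟨s, hs, hs7⟩ := h.seven
  refine ⟨s, hs, ?_⟩
  rintro rfl
  simp at hs7

/-- A nontrivial subgroup normalized by `G` is transitive. -/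
theorem Prim.trans_of_normal {G : Subgroup S14} (h : Prim G) (K : Subgroup S14)
    (hn : ∀ g ∈ G, ∀ k ∈ K, g * k * g⁻¹ ∈ K) (hne : ∃ k ∈ K, k ≠ 1) (a b : Fin 14) :
    ∃ k ∈ K, k a = b := by
  have h1 := h (fun a b => ∃ k ∈ K, k a = b)
    ⟨fun a => ⟨1, K.one_mem, rfl⟩,
     fun {a b} ⟨k, hk, hkab⟩ => ⟨k⁻¹, K.inv_mem hk, by rw [← hkab]; simp⟩,
     fun {a b c} ⟨k, hk, hkab⟩ ⟨l, hl, hlbc⟩ => ⟨l * k, K.mul_mem hl hk, by
      rw [Perm.mul_apply, hkab, hlbc]⟩⟩ ?_
  · rcases h1 with h1 | h1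
    · exfalso
      obtain ⟨k, hk, hk1⟩ := hne
      apply hk1
      ext a
      have := h1 a (k a) ⟨k, hk, rfl⟩
      simp [← this]
    · exact h1 a b
  · rintro g hg a b ⟨k, hk, rfl⟩
    exact ⟨g * k * g⁻¹, hn g hg k hk, by simp⟩

theorem Hyp.trans {G : Subgroup S14} (h : Hyp G) (a b : Fin 14) : ∃ g ∈ G, g a = b :=
  h.prim.trans_of_normal G (fun _ hg _ hk => G.mul_mem (G.mul_mem hg hk) (G.inv_mem hg))
    h.exists_ne a b

theorem Hyp.isPretransitive {G : Subgroup S14} (h : Hyp G) : IsPretransitive G (Fin 14) where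
  exists_smul_eq a b := by
    obtain ⟨g, hg, hab⟩ := h.trans a b
    exact ⟨⟨g, hg⟩, hab⟩

theorem Hyp.isPreprimitive {G : Subgroup S14} (h : Hyp G) : IsPreprimitive G (Fin 14) := by
  have htr := h.isPretransitive
  refine { toIsPretransitive := htr, isTrivialBlock_of_isBlock := ?_ }
  intro B hB
  rcases B.eq_empty_or_nonempty with rfl | ⟨b0, hb0⟩
  · left; exact Set.subsingleton_empty
  have h1 := h.prim (fun a b => ∃ g : G, a ∈ g • B ∧ b ∈ g • B) ⟨?_, ?_, ?_⟩ ?_
  · rcases h1 with h1 | h1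
    · left
      intro a ha b hb
      exact h1 a b ⟨1, by simpa using ha, by simpa using hb⟩
    · right
      ext b
      simp only [Set.mem_univ, iff_true]
      obtain ⟨g, hg1, hg2⟩ := h1 b0 b
      have h2 : g • B = (1 : G) • B := by
        apply isBlock_iff_smul_eq_smul_of_nonempty.1 hB
        exact ⟨b0, hg1, by simpa using hb0⟩
      rw [h2, one_smul] at hg2
      exact hg2
  · intro a
    obtain ⟨g, hg⟩ := htr.exists_smul_eq b0 a
    have : a ∈ g • B := ⟨b0, hb0, hg⟩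
    exact ⟨g, this, this⟩
  · rintro a b ⟨g, h1, h2⟩
    exact ⟨g, h2, h1⟩
  · rintro a b c ⟨g, h1, h2⟩ ⟨k, h3, h4⟩
    have h5 : g • B = k • B := by
      apply isBlock_iff_smul_eq_smul_of_nonempty.1 hB
      exact ⟨b, h2, h3⟩
    exact ⟨g, h1, by rw [h5]; exact h4⟩
  · rintro g hg a b ⟨k, h1, h2⟩
    refine ⟨⟨g, hg⟩ * k, ?_, ?_⟩
    · rw [mul_smul]; exact Set.smul_mem_smul_set h1
    · rw [mul_smul]; exact Set.smul_mem_smul_set h2

/-- 2-transitivity in elementary terms -/
def TwoTrans (G : Subgroup S14) : Prop :=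
  ∀ a b c d : Fin 14, a ≠ b → c ≠ d → ∃ g ∈ G, g a = c ∧ g b = d

theorem TwoTrans.cj {G : Subgroup S14} (h : TwoTrans G) (π : S14) :
    TwoTrans (MP_6f5538_al.cj π G) := by
  intro a b c d hab hcd
  obtain ⟨g, hg, h1, h2⟩ := h (π⁻¹ a) (π⁻¹ b) (π⁻¹ c) (π⁻¹ d)
    (fun h => hab (π⁻¹.injective h)) (fun h => hcd (π⁻¹.injective h))
  refine ⟨π * g * π⁻¹, conj_mem_cj hg, ?_, ?_⟩
  · rw [Perm.mul_apply, Perm.mul_apply, h1]; simp
  · rw [Perm.mul_apply, Perm.mul_apply, h2]; simp

theorem cj_inv_cj (π : S14) (G : Subgroup S14) : cj π⁻¹ (cj π G) = G := by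
  ext g
  rw [mem_cj, mem_cj]
  simp [mul_assoc]

end Pool.Agent.Lib.MP_6f5538_al
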